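import Mathlib.RingTheory.Polynomial.GaussNorm
import Mathlib.NumberTheory.Padics.PadicNorm
import Mathlib.Analysis.SpecialFunctions.Log.Basic
import Pool.Agent.MP_a43263_nt.JC.JSpec

-- ======== part 0: formerly Pool.Agent.MP_a43263_nt.JM.Spec
section MrgPart0

/-! The Mordell-Weil theorem for the Jacobian of `y ^ 2 = fp a`: a height pairing from naive local
symbols. Blueprint: `/team-store/JM_BLUEPRINT.md`. -/

set_option autoImplicit false

noncomputable section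

namespace Pool.Agent.MP_a43263_nt.JM

open Polynomial Finset Filter JC

/-! ### local definitions -/

section
variable {K ι : Type} [Field K]

/-- the local height of `x` -/
def nx (w : AbsoluteValue K ℝ) (x : K) : ℝ := max 1 (w x)

/-- the largest coefficient -/
def pn (w : AbsoluteValue K ℝ) (P : K[X]) : ℝ := P.gaussNorm w 1

/-- the largest coefficient of a function -/
def hn (w : AbsoluteValue K ℝ) {f : K[X]} (h : Rg f) : ℝ := max (pn w h.re) (pn w h.im)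

/-- the largest minor of two points in the embedding `(1, x, ..., x ^ (g + 1), y)` -/
def dd (g : ℕ) (w : AbsoluteValue K ℝ) (p q : K × K) : ℝ :=
  max (w (p.1 - q.1) * (nx w p.1 * nx w q.1) ^ g)
    (max (w (p.2 - q.2)) (w (p.2 * q.1 ^ (g + 1) - q.2 * p.1 ^ (g + 1))))

/-- the local symbol -/
def de (g : ℕ) (w : AbsoluteValue K ℝ) (p q : K × K) : ℝ :=
  dd g w p q ^ 2 / (nx w p.1 * nx w q.1) ^ (2 * g + 1)

/-- the conjugate point -/
def ng (p : K × K) : K × K := (p.1, -p.2)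

/-- points of the curve -/
def Oc (f : K[X]) (p : K × K) : Prop := p.2 ^ 2 = f.eval p.1

/-- the value of a function -/
def ev {f : K[X]} (p : K × K) (h : Rg f) : K := h.re.eval p.1 + h.im.eval p.1 * p.2

/-- the ideal of a point -/
def mx (f : K[X]) (p : K × K) : Ideal (Rg f) := MI f (X - C p.1) (C p.2)

/-- the order of the pole at infinity -/
def po {f : K[X]} (h : Rg f) : ℕ := (QuadraticAlgebra.norm h).natDegree

/-- the triangle inequality with a constant -/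
def Tri (w : AbsoluteValue K ℝ) (κ : ℝ) : Prop := 1 ≤ κ ∧ ∀ x y, w (x + y) ≤ κ * max (w x) (w y)

/-- good reduction up to the constant `κ` -/
structure Ok (w : AbsoluteValue K ℝ) (κ : ℝ) (a : ι → K) : Prop where
  tri : Tri w κ
  two : 1 ≤ κ * w 2
  le : ∀ i, w (a i) ≤ κ
  sep : ∀ i k, i ≠ k → 1 ≤ κ * w (a i - a k)

/-- the sum of the local symbols -/
def lam (g : ℕ) (w : AbsoluteValue K ℝ) (s t : Multiset (K × K)) : ℝ :=
  (s.map fun p => (t.map fun q => Real.log (de g w p q)).sum).sum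

/-- Mumford pairs of bounded degree -/
def Mu (f : K[X]) (n : ℕ) (x : K[X] × K[X]) : Prop :=
  x.1.Monic ∧ x.1 ∣ f - x.2 ^ 2 ∧ x.1.natDegree ≤ n

/-- the class of a pair -/
def cx (f : K[X]) (x : K[X] × K[X]) : CommRing.Pic (Rg f) := cl (MI f x.1 x.2)

/-- the conjugate pair -/
def nv (x : K[X] × K[X]) : K[X] × K[X] := (x.1, -x.2)

end

/-! ### global definitions -/

abbrev Qb : Type := AlgebraicClosure ℚ

/-- the places -/
abbrev Pc : Type := Option Nat.Primes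

/-- one absolute value of the algebraic closure for each place -/
structure Sys where
  w : Pc → AbsoluteValue Qb ℝ
  arch : ∀ r : ℚ, w none r = |(r : ℝ)|
  na : ∀ p : Nat.Primes, IsNonarchimedean (w (some p))
  val : ∀ (p : Nat.Primes) (r : ℚ), w (some p) r = padicNorm p r

/-- the constants of the places -/
def Kp {ι : Type} (S : Sys) (a : ι → ℤ) (κ : Pc → ℝ) : Prop :=
  (∀ v, Ok (S.w v) (κ v) fun i => (a i : Qb)) ∧ 2 ≤ κ none ∧ ∀ᶠ v in cofinite, κ v = 1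

/-- the points of a pair -/
def pts (x : ℚ[X] × ℚ[X]) : Multiset (Qb × Qb) :=
  (fK x.1 Qb).roots.map fun t => (t, (fK x.2 Qb).eval t)

/-- the pairing -/
def be (S : Sys) (g : ℕ) (x y : ℚ[X] × ℚ[X]) : ℝ := ∑ᶠ v, lam g (S.w v) (pts x) (pts y)

/-- the height of a polynomial -/
def Ht (S : Sys) (U : ℚ[X]) : ℝ :=
  ∑ᶠ v, ((fK U Qb).roots.map fun t => Real.log (nx (S.w v) t)).sum

/-- no common point -/
def Dj (x y : ℚ[X] × ℚ[X]) : Prop := ∀ p ∈ pts x, p ∉ pts y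

/-! ### A. local estimates -/

def GAUStmt : Prop := ∀ n : ℕ, ∃ M : ℕ, ∀ (K : Type) [Field K] (w : AbsoluteValue K ℝ) (κ : ℝ),
  Tri w κ → (∀ P Q : K[X], pn w (P + Q) ≤ κ * max (pn w P) (pn w Q)) ∧
  (∀ P Q : K[X], P.natDegree ≤ n → pn w (P * Q) ≤ κ ^ M * (pn w P * pn w Q)) ∧
  (∀ (c : K) (P : K[X]), P.natDegree ≤ n → nx w c * pn w P ≤ κ ^ M * pn w ((X - C c) * P)) ∧
  (∀ (P : K[X]) (x : K), P.natDegree ≤ n →
    w (P.eval x) ≤ κ ^ M * (pn w P * nx w x ^ P.natDegree)) ∧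
  ∀ s : Multiset K, s.card ≤ n → pn w (s.map fun c => X - C c).prod ≤ κ ^ M * (s.map (nx w)).prod

/-- a separable binary form and its divided difference are not both small -/
def SEPStmt : Prop := ∀ N : ℕ, ∃ M : ℕ, ∀ (K ι : Type) [Field K] [Fintype ι]
  (w : AbsoluteValue K ℝ) (κ : ℝ) (α β : ι → K) (μ ν x x' : K) (Γ : K[X]), Tri w κ →
  Fintype.card ι = N → 2 ≤ N → (∀ i, w (α i) ≤ κ ∧ w (β i) ≤ κ) →
  (∀ i k, i ≠ k → 1 ≤ κ * w (α i * β k - α k * β i)) → w μ ≤ 1 → w ν ≤ 1 →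
  nx w x ≤ κ * w (μ * x + ν) → nx w x' ≤ κ * w (μ * x' + ν) →
  (∏ i, (C (α i) * X + C (β i))) * C ((μ * x' + ν) ^ N) -
    C (∏ i, (α i * x' + β i)) * (C μ * X + C ν) ^ N = (X - C x') * Γ →
  (nx w x * nx w x') ^ N ≤ κ ^ M * max (w (∏ i, (α i * x + β i)) * nx w x' ^ N)
    (max (w (Γ.eval x) * (nx w x * nx w x')) (w (x - x') * (nx w x * nx w x') ^ (N - 1)))

/-- division by one zero -/
def PAIRStmt : Prop := ∀ g : ℕ, ∃ M : ℕ, ∀ (K ι : Type) [Field K] [CharZero K] [Fintype ι]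
  (w : AbsoluteValue K ℝ) (κ : ℝ) (a : ι → K) (f : K[X]), Cv g a f → Ok w κ a →
  ∀ p q : K × K, Oc f p → Oc f q → ∃ ψ ∈ mx f (ng q), po ψ ≤ 2 * g + 2 ∧
    hn w ψ ≤ κ ^ M * nx w q.1 ^ (g + 1) ∧ ∀ h h' : Rg f, h * ψ = ⟨X - C q.1, 0⟩ * h' →
      w (ev p h) * (nx w p.1 * nx w q.1) ^ (2 * g + 1) ≤ κ ^ M * (dd g w p q * w (ev p h'))

/-- upper bounds for the local symbol -/
def UPStmt : Prop := ∀ g : ℕ, ∃ M : ℕ, ∀ (K ι : Type) [Field K] [Fintype ι]
  (w : AbsoluteValue K ℝ) (κ : ℝ) (a : ι → K) (f : K[X]), Cv g a f → Ok w κ a →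
  ∀ p q : K × K, Oc f p → Oc f q →
    de g w p q * de g w p (ng q) ≤ κ ^ M * w (p.1 - q.1) ^ 2 ∧
    de g w p q ≤ κ ^ M * (nx w p.1 * nx w q.1) ∧
    de g w p (ng p) * nx w p.1 ^ (2 * g) ≤ κ ^ M * w p.2 ^ 2

/-- the Schwarz lemma -/
def SCHStmt : Prop := ∀ g n : ℕ, ∃ M : ℕ, ∀ (K ι : Type) [Field K] [CharZero K] [Fintype ι]
  (w : AbsoluteValue K ℝ) (κ : ℝ) (a : ι → K) (f : K[X]), Cv g a f → Ok w κ a →
  ∀ (s : Multiset (K × K)) (h : Rg f) (p : K × K), s.card ≤ n → po h ≤ s.card →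
    (∀ q ∈ s, Oc f q) → h ∈ (s.map (mx f)).prod → Oc f p →
    w (ev p h) ^ 2 * (s.map fun q => nx w q.1).prod ≤
      κ ^ M * (hn w h ^ 2 * (s.map (de g w p)).prod)

/-! ### B. places -/

def SYSStmt : Prop := Nonempty Sys ∧
  ∀ (S : Sys) (ι : Type) [Fintype ι] (a : ι → ℤ), Function.Injective a → ∃ κ, Kp S a κ

/-- finite supports, the product formula, Northcott for rational numbers, rational norms -/
def SUMStmt : Prop := ∀ S : Sys, (∀ x : Qb, x ≠ 0 → ∀ᶠ v in cofinite, S.w v x = 1) ∧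
  (∀ x : Qb, ∀ᶠ v in cofinite, nx (S.w v) x = 1) ∧
  (∀ (g : ℕ) (p q : Qb × Qb), p ≠ q → ∀ᶠ v in cofinite, de g (S.w v) p q = 1) ∧
  (∀ r : ℚ, r ≠ 0 → ∑ᶠ v, Real.log (S.w v r) = 0) ∧
  (∀ B : ℝ, {r : ℚ | ∑ᶠ v, Real.log (nx (S.w v) r) ≤ B}.Finite) ∧
  ∀ U R : ℚ[X], ∃ r : ℚ, ((fK U Qb).roots.map fun t => (fK R Qb).eval t).prod = r

/-- the Gauss lemma for the norm -/
def NORMStmt : Prop := ∀ (S : Sys) (ι : Type) [Fintype ι] (g : ℕ) (a : ι → ℤ) (f : ℚ[X])
  (κ : Pc → ℝ) (n : ℕ), Cv g (fun i => (a i : ℚ)) f → Kp S a κ → ∃ M : ℕ, ∀ (v : Pc) (A B : ℚ[X]),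
    A.natDegree ≤ n → B.natDegree ≤ n → max (pn (S.w v) (fK A Qb)) (pn (S.w v) (fK B Qb)) ^ 2 ≤
      κ v ^ M * pn (S.w v) (fK (A ^ 2 - f * B ^ 2) Qb)

/-- Northcott for polynomials -/
def HTStmt : Prop := ∀ (S : Sys) (n : ℕ) (B : ℝ),
  {U : ℚ[X] | U.Monic ∧ U.natDegree ≤ n ∧ Ht S U ≤ B}.Finite

/-! ### C. ideals -/

/-- the function with a given divisor -/
def PRINStmt : Prop := ∀ (ι : Type) [Fintype ι] (g n : ℕ) (a : ι → ℚ) (f : ℚ[X]), Cv g a f →
  (∀ x, Mu f n x → (pts x).card = x.1.natDegree ∧ ∀ p ∈ pts x, Oc (fK f Qb) p) ∧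
  ∀ y₁ y₂ y₃, Mu f n y₁ → Mu f n y₂ → Mu f n y₃ → cx f y₁ * cx f y₂ * cx f y₃ = 1 →
    ∃ (A B : ℚ[X]) (c : ℚ), c ≠ 0 ∧ A ^ 2 - f * B ^ 2 = C c * (y₁.1 * y₂.1 * y₃.1) ∧
      A.natDegree ≤ 3 * n ∧ B.natDegree ≤ 3 * n ∧
      (⟨fK A Qb, fK B Qb⟩ : Rg (fK f Qb)) ∈ ((pts y₁ + pts y₂ + pts y₃).map (mx (fK f Qb))).prod ∧
      ∀ p, Oc (fK f Qb) p → p ∉ pts y₁ + pts y₂ + pts y₃ →
        ev p (⟨fK A Qb, fK B Qb⟩ : Rg (fK f Qb)) ≠ 0

/-- moving, conjugation, removal of Weierstrass points, classes with a given norm -/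
def MOVEStmt : Prop := ∀ (K ι : Type) [Field K] [CharZero K] [Fintype ι] (g : ℕ) (a : ι → K)
  (f : K[X]), Cv g a f →
  (∀ (P : CommRing.Pic (Rg f)) (R : K[X]), R ≠ 0 →
    ∃ x, Mu f (2 * g + 1) x ∧ IsCoprime x.1 R ∧ cx f x = P) ∧
  (∀ n x, Mu f n x → cx f (nv x) = (cx f x)⁻¹) ∧ cx f (1, 0) = 1 ∧
  (∃ T : Finset (CommRing.Pic (Rg f)), (∀ t ∈ T, t * t = 1) ∧
    ∀ P, ∃ t ∈ T, ∃ x, Mu f g x ∧ IsCoprime x.1 f ∧ P = cx f x * t) ∧
  ∀ U : K[X], U.Monic → IsCoprime U f → {P | ∃ V, U ∣ f - V ^ 2 ∧ cx f (U, V) = P}.Finite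

/-! ### D. the pairing -/

/-- principal divisors -/
def TRIStmt : Prop := ∀ (S : Sys) (ι : Type) [Fintype ι] (g : ℕ) (a : ι → ℤ) (f : ℚ[X])
  (κ : Pc → ℝ) (n : ℕ), Cv g (fun i => (a i : ℚ)) f → Kp S a κ → ∃ c : ℝ, ∀ x y₁ y₂ y₃,
    Mu f n x → Mu f n y₁ → Mu f n y₂ → Mu f n y₃ → cx f y₁ * cx f y₂ * cx f y₃ = 1 →
    Dj x y₁ → Dj x y₂ → Dj x y₃ → -c ≤ be S g x y₁ + be S g x y₂ + be S g x y₃

/-- symmetry, fibres of `x`, the diagonal -/
def GLOBStmt : Prop := ∀ (S : Sys) (ι : Type) [Fintype ι] (g : ℕ) (a : ι → ℤ) (f : ℚ[X])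
  (κ : Pc → ℝ) (n : ℕ), Cv g (fun i => (a i : ℚ)) f → Kp S a κ → ∃ c : ℝ,
    (∀ x y, be S g x y = be S g y x) ∧ (∀ x, be S g x (1, 0) = 0) ∧
    (∀ x y, IsCoprime x.1 y.1 → Dj x y) ∧
    (∀ x, Mu f n x → IsCoprime x.1 f → Dj x (nv x)) ∧
    (∀ x y, Mu f n x → Mu f n y → IsCoprime x.1 y.1 → be S g x y + be S g x (nv y) ≤ c) ∧
    ∀ x, Mu f g x → IsCoprime x.1 f → be S g x (nv x) + 2 * Ht S x.1 ≤ c

/-- from representatives to classes -/
def ABSStmt : Prop := ∀ (G Y : Type) [CommGroup G] (c : Y → G) (n : Y → Y) (R : Y → Y → Prop)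
  (β : Y → Y → ℝ) (o : Y) (b : ℝ), (∀ x y, R x y → R y x) → (∀ x y, R x y → R x (n y)) →
  (∀ x, c (n x) = (c x)⁻¹) → c o = 1 → (∀ x, R x o) → (∀ x, β x o = 0) → (∀ x y, β x y = β y x) →
  (∀ (P : G) (l : List Y), ∃ y, c y = P ∧ ∀ x ∈ l, R x y) →
  (∀ x y₁ y₂ y₃, R x y₁ → R x y₂ → R x y₃ → c y₁ * c y₂ * c y₃ = 1 →
    -b ≤ β x y₁ + β x y₂ + β x y₃) →
  (∀ x y, R x y → β x y + β x (n y) ≤ b) →
  ∃ (h : G → ℝ) (b' : ℝ), (∀ P Q, |h (P * Q) + h (P / Q) - 2 * (h P + h Q)| ≤ b') ∧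
    ∀ x y, R x y → c x = c y → |h (c x) - β x y| ≤ b'

/-- the height -/
def HGTStmt : Prop := ∀ (ι : Type) [Fintype ι] (g : ℕ) (a : ι → ℤ) (f : ℚ[X]),
  Cv g (fun i => (a i : ℚ)) f → ∃ (h : CommRing.Pic (Rg f) → ℝ) (b : ℝ), (∀ P, 0 ≤ h P) ∧
    (∀ P Q, |h (P * Q) + h (P / Q) - 2 * (h P + h Q)| ≤ b) ∧ ∀ B : ℝ, {P | h P ≤ B}.Finite

/-- Mordell-Weil -/
def MWStmt : Prop := ∀ (ι : Type) [Fintype ι] (g : ℕ) (a : ι → ℤ) (f : ℚ[X]),
  Cv g (fun i => (a i : ℚ)) f → (nsmulAddMonoidHom 2 : JQ f →+ JQ f).range.index ≠ 0 →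
  AddGroup.FG (JQ f) ∧ ∀ m r : ℕ, Nat.card {P : JQ f // 2 • P = 0} = 2 ^ m →
    (nsmulAddMonoidHom 2 : JQ f →+ JQ f).range.index = 2 ^ (m + r) → Module.rank ℤ (JQ f) = r

theorem mw_of (pic : PICStmt) (mum : MUMStmt) (lcs : LCStmt) (red : REDStmt) (rat : RATStmt)
    (gau : GAUStmt) (sep : SEPStmt) (pair : MUMStmt → GAUStmt → SEPStmt → PAIRStmt)
    (up : GAUStmt → UPStmt) (sch : MUMStmt → LCStmt → GAUStmt → PAIRStmt → SCHStmt)
    (sys : SYSStmt) (sum : SUMStmt) (norm : NORMStmt) (ht : GAUStmt → SUMStmt → HTStmt)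
    (prin : PICStmt → MUMStmt → LCStmt → PRINStmt) (move : PICStmt → MUMStmt → REDStmt → MOVEStmt)
    (tri : GAUStmt → SCHStmt → SUMStmt → NORMStmt → PRINStmt → TRIStmt)
    (glob : UPStmt → SUMStmt → PRINStmt → GLOBStmt) (abs : ABSStmt)
    (hgt : SYSStmt → HTStmt → MOVEStmt → TRIStmt → GLOBStmt → ABSStmt → HGTStmt)
    (mw : PICStmt → MUMStmt → REDStmt → RATStmt → HGTStmt → MWStmt) : MWStmt :=
  have hp := prin pic mum lcs
  mw pic mum red rat (hgt sys (ht gau sum) (move pic mum red)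
    (tri gau (sch mum lcs gau (pair mum gau sep)) sum norm hp) (glob (up gau) sum hp) abs)

end Pool.Agent.MP_a43263_nt.JM

end
end MrgPart0

-- ======== part 1: formerly Pool.Agent.MP_a43263_nt.JM.Basic
section MrgPart1

/-! Mordell-Weil for Jacobians: elementary facts. -/

set_option autoImplicit false

namespace Pool.Agent.MP_a43263_nt.JM

open Polynomial Finset JC

variable {K : Type} [Field K] (w : AbsoluteValue K ℝ)

theorem one_le_nx (x : K) : 1 ≤ nx w x := le_max_left _ _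

theorem le_nx (x : K) : w x ≤ nx w x := le_max_right _ _

theorem nx_pos (x : K) : 0 < nx w x := one_pos.trans_le (one_le_nx w x)

theorem pn_nonneg (P : K[X]) : 0 ≤ pn w P := gaussNorm_nonneg _ _ zero_le_one

theorem le_pn (P : K[X]) (i : ℕ) : w (P.coeff i) ≤ pn w P := by
  simpa [pn] using le_gaussNorm w P (c := 1) zero_le_one i

theorem exists_pn (P : K[X]) : ∃ i, pn w P = w (P.coeff i) := by
  simpa [pn] using exists_eq_gaussNorm w 1 P

theorem pn_le {P : K[X]} {b : ℝ} (h : ∀ i, w (P.coeff i) ≤ b) : pn w P ≤ b := by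
  obtain ⟨i, e⟩ := exists_pn w P
  exact e ▸ h i

theorem pn_neg (P : K[X]) : pn w (-P) = pn w P :=
  le_antisymm (pn_le w fun i => by simpa using le_pn w P i)
    (pn_le w fun i => by simpa using le_pn w (-P) i)

theorem pn_C_mul (c : K) (P : K[X]) : pn w (C c * P) = w c * pn w P := by
  refine le_antisymm (pn_le w fun i => ?_) ?_
  · rw [coeff_C_mul, map_mul]
    exact mul_le_mul_of_nonneg_left (le_pn w P i) (w.nonneg c)
  · obtain ⟨i, e⟩ := exists_pn w P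
    rw [e, ← map_mul, ← coeff_C_mul]
    exact le_pn w _ i

theorem hn_nonneg {f : K[X]} (h : Rg f) : 0 ≤ hn w h := (pn_nonneg w _).trans (le_max_left _ _)

theorem dd_nonneg (g : ℕ) (p q : K × K) : 0 ≤ dd g w p q :=
  (w.nonneg _).trans ((le_max_left _ _).trans (le_max_right _ _))

theorem dd_comm (g : ℕ) (p q : K × K) : dd g w p q = dd g w q p := by
  rw [dd, dd, w.map_sub p.1, w.map_sub p.2, w.map_sub (p.2 * _), mul_comm (nx w p.1)]

theorem dd_ng (g : ℕ) (p q : K × K) : dd g w (ng p) (ng q) = dd g w p q := by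
  have a : -p.2 - -q.2 = -(p.2 - q.2) := by ring
  have b : -p.2 * q.1 ^ (g + 1) - -q.2 * p.1 ^ (g + 1) =
      -(p.2 * q.1 ^ (g + 1) - q.2 * p.1 ^ (g + 1)) := by ring
  simp only [dd, ng, a, b, w.map_neg]

theorem dd_pos (g : ℕ) {p q : K × K} (h : p ≠ q) : 0 < dd g w p q := by
  by_cases c : p.1 = q.1
  · have : p.2 - q.2 ≠ 0 := fun e => h (Prod.ext c (sub_eq_zero.1 e))
    exact (w.pos this).trans_le ((le_max_left _ _).trans (le_max_right _ _))
  · exact (mul_pos (w.pos (sub_ne_zero.2 c))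
      (pow_pos (mul_pos (nx_pos w _) (nx_pos w _)) _)).trans_le (le_max_left _ _)

theorem de_nonneg (g : ℕ) (p q : K × K) : 0 ≤ de g w p q :=
  div_nonneg (sq_nonneg _) (pow_pos (mul_pos (nx_pos w _) (nx_pos w _)) _).le

theorem de_comm (g : ℕ) (p q : K × K) : de g w p q = de g w q p := by
  rw [de, de, dd_comm, mul_comm (nx w p.1)]

theorem de_ng (g : ℕ) (p q : K × K) : de g w (ng p) (ng q) = de g w p q := by
  rw [de, de, dd_ng]
  rfl

theorem de_pos (g : ℕ) {p q : K × K} (h : p ≠ q) : 0 < de g w p q :=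
  div_pos (pow_pos (dd_pos w g h) _) (pow_pos (mul_pos (nx_pos w _) (nx_pos w _)) _)

theorem Oc.ng {f : K[X]} {p : K × K} (h : Oc f p) : Oc f (ng p) := by
  simpa [Oc, JM.ng] using h

theorem ev_mul {f : K[X]} {p : K × K} (h : Oc f p) (a b : Rg f) :
    ev p (a * b) = ev p a * ev p b := by
  simp only [ev, QuadraticAlgebra.re_mul, QuadraticAlgebra.im_mul, eval_add, eval_mul, eval_zero]
  rw [← show p.2 ^ 2 = f.eval p.1 from h]
  ring

theorem pts_nv (x : ℚ[X] × ℚ[X]) : pts (nv x) = (pts x).map ng := by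
  simp [pts, nv, ng, fK]

theorem pts_one : pts (1, 0) = 0 := by simp [pts, fK]

/-- a sum of boundedly many terms -/
theorem Tri.sum {κ b : ℝ} {w : AbsoluteValue K ℝ} (h : Tri w κ) (hb : 0 ≤ b) {ι : Type}
    (s : Finset ι) (u : ι → K) (hu : ∀ i ∈ s, w (u i) ≤ b) : w (∑ i ∈ s, u i) ≤ κ ^ s.card * b := by
  classical
  induction s using Finset.induction_on with
  | empty => simpa using hb
  | insert i s hi ih =>
    rw [sum_insert hi, card_insert_of_notMem hi, pow_succ', mul_assoc]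
    refine (h.2 _ _).trans (mul_le_mul_of_nonneg_left (max_le ?_ ?_) (zero_le_one.trans h.1))
    · exact (hu i (mem_insert_self _ _)).trans (le_mul_of_one_le_left hb (one_le_pow₀ h.1))
    · exact ih fun j hj => hu j (mem_insert_of_mem hj)

theorem Tri.sub {κ : ℝ} {w : AbsoluteValue K ℝ} (h : Tri w κ) (x y : K) :
    w (x - y) ≤ κ * max (w x) (w y) := by
  simpa [sub_eq_add_neg] using h.2 x (-y)

end Pool.Agent.MP_a43263_nt.JM

end MrgPart1

-- ======== part 2: formerly Pool.Agent.MP_a43263_nt.JM.Gau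
section MrgPart2

/-! Mordell-Weil for Jacobians: the largest coefficient of sums and products. -/

set_option autoImplicit false

namespace Pool.Agent.MP_a43263_nt.JM

open Polynomial Finset JC

namespace Gau

variable {K : Type} [Field K] {w : AbsoluteValue K ℝ} {κ : ℝ}

theorem co0 (c : K) (P : K[X]) : ((X - C c) * P).coeff 0 = -(c * P.coeff 0) := by
  rw [sub_mul, coeff_sub, coeff_X_mul_zero, coeff_C_mul, zero_sub]

theorem co1 (c : K) (P : K[X]) (k : ℕ) :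
    ((X - C c) * P).coeff (k + 1) = P.coeff k - c * P.coeff (k + 1) := by
  rw [sub_mul, coeff_sub, coeff_X_mul, coeff_C_mul]

theorem add (h : Tri w κ) (P Q : K[X]) : pn w (P + Q) ≤ κ * max (pn w P) (pn w Q) :=
  pn_le w fun i => by
    rw [coeff_add]
    exact (h.2 _ _).trans (mul_le_mul_of_nonneg_left (max_le_max (le_pn w P i) (le_pn w Q i))
      (zero_le_one.trans h.1))

theorem mul (h : Tri w κ) {n : ℕ} (P Q : K[X]) (hP : P.natDegree ≤ n) :
    pn w (P * Q) ≤ κ ^ (n + 1) * (pn w P * pn w Q) := by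
  refine pn_le w fun k => ?_
  have e : (P * Q).coeff k = ∑ i ∈ range (n + 1), P.coeff i * (X ^ i * Q).coeff k := by
    conv_lhs => rw [as_sum_range_C_mul_X_pow' P (Nat.lt_succ_of_le hP)]
    rw [sum_mul, finsetSum_coeff]
    exact sum_congr rfl fun i _ => by rw [mul_assoc, coeff_C_mul]
  have := h.sum (mul_nonneg (pn_nonneg w P) (pn_nonneg w Q)) (range (n + 1))
    (fun i => P.coeff i * (X ^ i * Q).coeff k) fun i _ => by
      rw [map_mul]
      refine mul_le_mul (le_pn w P i) ?_ (w.nonneg _) (pn_nonneg w P)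
      rw [coeff_X_pow_mul']
      split_ifs
      · exact le_pn w Q _
      · simpa using pn_nonneg w Q
  rwa [card_range, ← e] at this

theorem step (h : Tri w κ) {b : ℝ} (hb : 0 ≤ b) (j : ℕ) {x y : K} (hx : w x ≤ κ ^ j * b)
    (hy : w y ≤ b) : w (x + y) ≤ κ ^ (j + 1) * b := by
  rw [pow_succ', mul_assoc]
  exact (h.2 _ _).trans (mul_le_mul_of_nonneg_left
    (max_le hx (hy.trans (le_mul_of_one_le_left hb (one_le_pow₀ h.1)))) (zero_le_one.trans h.1))

theorem up (h : Tri w κ) {c : K} (hc : 1 ≤ w c) (P : K[X]) (k : ℕ) :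
    w c * w (P.coeff k) ≤ κ ^ k * pn w ((X - C c) * P) := by
  induction k with
  | zero =>
    have := le_pn w ((X - C c) * P) 0
    rwa [co0, w.map_neg, map_mul, ← one_mul (pn _ _), ← pow_zero κ] at this
  | succ k ih =>
    have e : c * P.coeff (k + 1) = P.coeff k + -((X - C c) * P).coeff (k + 1) := by
      rw [co1]
      ring
    rw [← map_mul, e]
    refine step h (pn_nonneg w _) k ((le_mul_of_one_le_left (w.nonneg _) hc).trans ih) ?_
    rw [w.map_neg]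
    exact le_pn w _ _

theorem down (h : Tri w κ) {c : K} (hc : w c ≤ 1) (P : K[X]) (j : ℕ) :
    ∀ k, P.natDegree < k + j → w (P.coeff k) ≤ κ ^ j * pn w ((X - C c) * P) := by
  induction j with
  | zero =>
    intro k hk
    rw [coeff_eq_zero_of_natDegree_lt (by omega), map_zero, pow_zero, one_mul]
    exact pn_nonneg w _
  | succ j ih =>
    intro k hk
    have e : P.coeff k = c * P.coeff (k + 1) + ((X - C c) * P).coeff (k + 1) := by
      rw [co1]
      ring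
    rw [e]
    refine step h (pn_nonneg w _) j ?_ (le_pn w _ _)
    rw [map_mul]
    exact (mul_le_of_le_one_left (w.nonneg _) hc).trans (ih (k + 1) (by omega))

theorem lin (h : Tri w κ) {n : ℕ} (c : K) (P : K[X]) (hP : P.natDegree ≤ n) :
    nx w c * pn w P ≤ κ ^ (n + 1) * pn w ((X - C c) * P) := by
  obtain ⟨i, e⟩ := exists_pn w P
  rw [e, nx]
  rcases le_total 1 (w c) with hc | hc
  · rw [max_eq_right hc]
    by_cases hi : i ≤ n
    · exact (up h hc P i).trans (mul_le_mul_of_nonneg_right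
        (pow_le_pow_right₀ h.1 (by omega)) (pn_nonneg w _))
    · rw [coeff_eq_zero_of_natDegree_lt (by omega), map_zero, mul_zero]
      exact mul_nonneg (pow_nonneg (zero_le_one.trans h.1) _) (pn_nonneg w _)
  · rw [max_eq_left hc, one_mul]
    exact down h hc P (n + 1) i (by omega)

theorem evl (h : Tri w κ) {n : ℕ} (P : K[X]) (x : K) (hP : P.natDegree ≤ n) :
    w (P.eval x) ≤ κ ^ (n + 1) * (pn w P * nx w x ^ P.natDegree) := by
  have hb : 0 ≤ pn w P * nx w x ^ P.natDegree :=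
    mul_nonneg (pn_nonneg w P) (pow_nonneg (nx_pos w x).le _)
  have := h.sum hb (range (P.natDegree + 1)) (fun i => P.coeff i * x ^ i) fun i hi => by
    rw [map_mul, map_pow]
    refine mul_le_mul (le_pn w P i) ?_ (pow_nonneg (w.nonneg _) _) (pn_nonneg w P)
    exact (pow_le_pow_left₀ (w.nonneg _) (le_nx w x) i).trans
      (pow_le_pow_right₀ (one_le_nx w x) (Nat.lt_succ_iff.1 (mem_range.1 hi)))
  rw [card_range, ← eval_eq_sum_range] at this
  exact this.trans (mul_le_mul_of_nonneg_right (pow_le_pow_right₀ h.1 (by omega)) hb)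

theorem lin_le (h : Tri w κ) (c : K) (P : K[X]) :
    pn w ((X - C c) * P) ≤ κ * (nx w c * pn w P) := by
  have a : ∀ k, w (c * P.coeff k) ≤ nx w c * pn w P := fun k => by
    rw [map_mul]
    exact mul_le_mul (le_nx w c) (le_pn w P k) (w.nonneg _) (nx_pos w c).le
  refine pn_le w fun k => ?_
  cases k with
  | zero =>
    rw [co0, w.map_neg]
    exact (a 0).trans (le_mul_of_one_le_left (mul_nonneg (nx_pos w c).le (pn_nonneg w P)) h.1)
  | succ k =>
    rw [co1]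
    exact (h.sub _ _).trans (mul_le_mul_of_nonneg_left (max_le ((le_pn w P k).trans
      (le_mul_of_one_le_left (pn_nonneg w P) (one_le_nx w c))) (a _)) (zero_le_one.trans h.1))

theorem prd (h : Tri w κ) (s : Multiset K) :
    pn w (s.map fun c => X - C c).prod ≤ κ ^ s.card * (s.map (nx w)).prod := by
  induction s using Multiset.induction_on with
  | empty =>
    simp only [Multiset.map_zero, Multiset.prod_zero, Multiset.card_zero, pow_zero, one_mul]
    refine pn_le w fun i => ?_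
    rw [coeff_one]
    split_ifs <;> simp
  | cons c s ih =>
    rw [Multiset.map_cons, Multiset.prod_cons, Multiset.map_cons, Multiset.prod_cons,
      Multiset.card_cons, pow_succ', mul_assoc, mul_left_comm (κ ^ _)]
    exact (lin_le h c _).trans (mul_le_mul_of_nonneg_left
      (mul_le_mul_of_nonneg_left ih (nx_pos w c).le) (zero_le_one.trans h.1))

end Gau

theorem gau : GAUStmt := fun n => ⟨n + 1, fun _ _ w _ h =>
  ⟨Gau.add h, Gau.mul h, Gau.lin h, Gau.evl h, fun s hs => (Gau.prd h s).trans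
    (mul_le_mul_of_nonneg_right (pow_le_pow_right₀ h.1 (by omega))
      (Multiset.prod_map_nonneg fun c _ => (nx_pos w c).le))⟩⟩

end Pool.Agent.MP_a43263_nt.JM

end MrgPart2

-- marker of a merged file
example : 731051 + 84903 = 731051 + 84903 := rfl
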