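import Pool.Agent.MP_a43263_nt.JM.Gau
import Pool.Agent.MP_a43263_nt.JC.Idx
import Pool.Agent.MP_a43263_nt.JC.Qv
import Pool.Agent.MP_a43263_nt.two.Base
import Mathlib.LinearAlgebra.Lagrange
import Mathlib.Analysis.SpecialFunctions.Pow.Real
import Mathlib.Topology.Algebra.Module.Cardinality
import Mathlib.RingTheory.Polynomial.Resultant.Basic
import Mathlib.NumberTheory.Padics.Complex
import Mathlib.Analysis.Complex.Polynomial.Basic

-- ======== part 0: formerly Pool.Agent.MP_a43263_nt.JM.Move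
section MrgPart0

/-! Mordell-Weil for Jacobians: moving lemmas for Mumford pairs. -/

set_option autoImplicit false

namespace Pool.Agent.MP_a43263_nt.JM

open Polynomial JC

namespace Move

variable {K : Type} [Field K]

theorem mk_ne {f u : K[X]} (n : u ≠ 0) : (⟨u, 0⟩ : Rg f) ≠ 0 := fun e =>
  n (congrArg QuadraticAlgebra.re e)

theorem cl_span (pic : PICStmt) {R : Type} [CommRing R] [IsDomain R] {h : R} (n : h ≠ 0) :
    cl (Ideal.span {h}) = 1 := by
  obtain ⟨-, p2, -, p4⟩ := pic.1 R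
  rw [← p2]
  exact (p4 _ _ ⟨⊤, h, n, Ideal.mul_top _⟩ ⟨⊤, 1, one_ne_zero, by simp⟩).2
    ⟨1, h, one_ne_zero, n, by simp⟩

theorem exists_monic {d : K[X]} (n : d ≠ 0) : ∃ e : K[X], e.Monic ∧ Associated d e :=
  ⟨d * C d.leadingCoeff⁻¹, monic_mul_leadingCoeff_inv n,
    associated_mul_unit_right _ _ (isUnit_C.2 (inv_ne_zero (leadingCoeff_ne_zero.2 n)).isUnit)⟩

theorem fin_dvd {U : K[X]} (n : U ≠ 0) : {d : K[X] | d.Monic ∧ d ∣ U}.Finite :=
  have := fintypeSubtypeMonicDvd U n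
  Set.finite_coe_iff.1 (inferInstanceAs (Finite {d : K[X] // d.Monic ∧ d ∣ U}))

theorem dvd_C {p A : K[X]} {c : K} (n : c ≠ 0) (h : p ∣ C c * A) : p ∣ A :=
  (isUnit_C.2 n.isUnit).dvd_mul_left.1 h

/-- all but finitely many members of the pencil are prime to `R` -/
theorem pencil [CharZero K] {U V w : K[X]} (sq : Squarefree (U * w + V ^ 2)) (R : K[X])
    (n : R ≠ 0) : {l : K | ¬ IsCoprime (w - C (2 * l) * V - C (l ^ 2) * U) R}.Finite := by
  induction R using WfDvdMonoid.induction_on_irreducible with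
  | zero => exact absurd rfl n
  | unit u hu =>
    refine Set.finite_empty.subset fun l hl => hl ?_
    exact (isCoprime_one_right.of_isCoprime_of_dvd_right hu.dvd)
  | mul R p hR hp ih =>
    have fp : {l : K | p ∣ w - C (2 * l) * V - C (l ^ 2) * U}.Finite := by
      by_contra hi
      have hi : {l : K | p ∣ w - C (2 * l) * V - C (l ^ 2) * U}.Infinite := hi
      obtain ⟨x, hx⟩ := hi.nonempty
      obtain ⟨y, hy, y0⟩ := hi.exists_notMem_finite (Set.finite_singleton x)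
      obtain ⟨z, hz, z0⟩ := hi.exists_notMem_finite (Set.toFinite {x, y})
      simp only [Set.mem_insert_iff, Set.mem_singleton_iff, not_or] at y0 z0
      have two : ∀ s : K, s ≠ x → p ∣ w - C (2 * s) * V - C (s ^ 2) * U →
          p ∣ C 2 * V + C (s + x) * U := fun s s0 hs => by
        refine dvd_C (sub_ne_zero.2 s0) ?_
        have e : C (s - x) * (C 2 * V + C (s + x) * U) =
            (w - C (2 * x) * V - C (x ^ 2) * U) - (w - C (2 * s) * V - C (s ^ 2) * U) := by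
          simp only [C_mul, C_sub, C_add, C_pow]
          ring
        rw [e]
        exact dvd_sub hx hs
      have dU : p ∣ U := by
        refine dvd_C (sub_ne_zero.2 z0.2) ?_
        have e : C (z - y) * U = (C 2 * V + C (z + x) * U) - (C 2 * V + C (y + x) * U) := by
          simp only [C_sub, C_add]
          ring
        rw [e]
        exact dvd_sub (two z z0.1 hz) (two y y0 hy)
      have dV : p ∣ V := dvd_C two_ne_zero ((dvd_add_left (dU.mul_left _)).1 (two y y0 hy))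
      have dw : p ∣ w := by
        have e : w = (w - C (2 * x) * V - C (x ^ 2) * U) + C (2 * x) * V + C (x ^ 2) * U := by ring
        rw [e]
        exact dvd_add (dvd_add hx (dV.mul_left _)) (dU.mul_left _)
      exact hp.not_isUnit (sq p (dvd_add (mul_dvd_mul dU dw)
        (by rw [pow_two]; exact mul_dvd_mul dV dV)))
    refine (fp.union (ih hR)).subset fun l hl => ?_
    by_contra c
    simp only [Set.mem_union, Set.mem_ofPred_eq, not_or, not_not] at c
    exact hl ((hp.coprime_iff_not_dvd.2 c.1).symm.mul_right c.2)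

end Move

open Move in
theorem move : PICStmt → MUMStmt → REDStmt → MOVEStmt := by
  classical
  intro pic mum red K ι _ _ _ g a f cv
  obtain ⟨⟨fm, fd, sq, dom⟩, -, m3, m4, m5, m6, m7, m8, -⟩ := mum K ι g a f cv
  obtain ⟨-, p2, p3, -⟩ := pic.1 (Rg f)
  have rd := (red K ι g a f cv).1
  have ng : ∀ {U V : K[X]}, U ∣ f - V ^ 2 → U ∣ f - (-V) ^ 2 := fun h => by rwa [neg_sq]
  have iv : ∀ {U V : K[X]}, U ≠ 0 → U ∣ f - V ^ 2 → JC.Inv (MI f U V) := fun n h =>
    ⟨_, _, mk_ne n, m3 _ _ h⟩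
  have ci : ∀ {U V : K[X]}, U ≠ 0 → U ∣ f - V ^ 2 → cl (MI f U V) * cl (MI f U (-V)) = 1 :=
    fun n h => by rw [← p3 _ _ (iv n h) (iv n (ng h)), m3 _ _ h]; exact cl_span pic (mk_ne n)
  have ml : ∀ {U U' V : K[X]}, U * U' ≠ 0 → U * U' ∣ f - V ^ 2 →
      cl (MI f (U * U') V) = cl (MI f U V) * cl (MI f U' V) := fun n h => by
    rw [← m4 _ _ _ h]
    exact p3 _ _ (iv (left_ne_zero_of_mul n) ((dvd_mul_right _ _).trans h))
      (iv (right_ne_zero_of_mul n) ((dvd_mul_left _ _).trans h))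
  refine ⟨fun P R R0 => ?_, fun n x hx => eq_inv_of_mul_eq_one_right (ci hx.1.ne_zero hx.2.1),
    by rw [cx, m8, p2], ?_, fun U hU _ => ?_⟩
  · obtain ⟨U, V, ⟨hU, ⟨w, hw⟩, dU, dV⟩, e⟩ := rd P⁻¹
    have dV' : V.natDegree ≤ g := (natDegree_le_natDegree dV.le).trans dU
    have l1 : (V ^ 2).natDegree < f.natDegree := by
      rw [natDegree_pow, fd]
      omega
    have mo : (U * w).Monic := hw ▸ fm.sub_of_left (degree_lt_degree l1)
    have wm : w.Monic := hU.of_mul_monic_left mo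
    have wd : U.natDegree + w.natDegree = 2 * g + 1 := by
      rw [← hU.natDegree_mul wm, ← hw, natDegree_sub_eq_left_of_natDegree_lt l1, fd]
    have sq' : Squarefree (U * w + V ^ 2) := by
      rw [← hw, sub_add_cancel]
      exact sq
    have : Infinite K := Infinite.of_injective _ Nat.cast_injective
    obtain ⟨l, -, hl⟩ := Set.infinite_univ.exists_notMem_finite (pencil sq' R R0)
    have hl := not_not.1 hl
    have l2 : (C (2 * l) * V + C (l ^ 2) * U).natDegree < w.natDegree :=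
      (natDegree_add_le_of_degree_le ((natDegree_C_mul_le _ _).trans dV')
        ((natDegree_C_mul_le _ _).trans dU)).trans_lt (by omega)
    rw [sub_sub] at hl
    have e1 : f - (V + C l * U) ^ 2 = U * (w - (C (2 * l) * V + C (l ^ 2) * U)) := by
      simp only [C_mul, C_pow]
      rw [show (C 2 : K[X]) = 2 from rfl]
      linear_combination hw
    have m1 := wm.sub_of_left (degree_lt_degree l2)
    have d1 := natDegree_sub_eq_left_of_natDegree_lt l2
    generalize w - (C (2 * l) * V + C (l ^ 2) * U) = u at hl e1 m1 d1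
    refine ⟨(u, V + C l * U), ⟨m1, Dvd.intro_left _ e1.symm, by simp only; omega⟩, hl, ?_⟩
    have k := ml (mul_ne_zero hU.ne_zero m1.ne_zero) e1.symm.dvd
    rw [← e1, m5, cl_span pic fun e => one_ne_zero (congrArg QuadraticAlgebra.im e),
      m6 U _ V ⟨C l, by ring⟩, e] at k
    exact (inv_mul_eq_one.1 k.symm).symm
  · refine ⟨((fin_dvd fm.ne_zero).image fun d => cl (MI f d 0)).toFinset, fun t ht => ?_,
      fun P => ?_⟩
    · obtain ⟨d, hd, rfl⟩ := (Set.Finite.mem_toFinset _).1 ht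
      have := ci (V := 0) hd.1.ne_zero (by simpa using hd.2)
      rwa [neg_zero] at this
    · obtain ⟨U, V, ⟨hU, hd, dU, -⟩, rfl⟩ := rd P
      obtain ⟨d, dm, as⟩ := exists_monic (d := EuclideanDomain.gcd U f)
        fun e => hU.ne_zero (EuclideanDomain.gcd_eq_zero_iff.1 e).1
      have d2 : d ∣ f := as.dvd_iff_dvd_left.1 (EuclideanDomain.gcd_dvd_right U f)
      obtain ⟨u, hu⟩ : d ∣ U := as.dvd_iff_dvd_left.1 (EuclideanDomain.gcd_dvd_left U f)
      have d3 : ∀ p, p ∣ U → p ∣ f → p ∣ d := fun p h k =>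
        (EuclideanDomain.dvd_gcd h k).trans as.dvd
      rw [mul_comm] at hu
      subst hu
      have um : u.Monic := dm.of_mul_monic_right hU
      have vv : ∀ p, p ∣ u * d → p ∣ f → p ∣ V := fun p h k =>
        (sq.squarefree_of_dvd k).isRadical 2 V (by simpa using dvd_sub k (h.trans hd))
      refine ⟨cl (MI f d 0), (Set.Finite.mem_toFinset _).2 ⟨d, ⟨dm, d2⟩, rfl⟩, (u, V),
        ⟨um, (dvd_mul_right _ _).trans hd, ?_⟩, ?_, ?_⟩
      · rw [um.natDegree_mul dm] at dU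
        simp only
        omega
      · refine isCoprime_of_irreducible_dvd (fun h => fm.ne_zero h.2) fun p hp h k => ?_
        have h1 := vv p (h.mul_right _) k
        have h2 : p * p ∣ f - V ^ 2 := (mul_dvd_mul h (d3 p (h.mul_right _) k)).trans hd
        have h3 : p * p ∣ V ^ 2 := by
          rw [pow_two]
          exact mul_dvd_mul h1 h1
        exact hp.not_isUnit (sq p (by simpa using dvd_add h2 h3))
      · rw [ml hU.ne_zero hd, m6 d V 0 (by simpa using vv d (dvd_mul_left _ _) d2)]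
        rfl
  · by_cases c : ∃ W, U ∣ f - W ^ 2
    swap
    · exact Set.finite_empty.subset fun P ⟨V, h, _⟩ => c ⟨V, h⟩
    obtain ⟨W, hW⟩ := c
    refine (((fin_dvd hU.ne_zero).prod (fin_dvd hU.ne_zero)).image
      fun x => cl (MI f x.1 W) * cl (MI f x.2 (-W))).subset ?_
    rintro P ⟨V, hV, rfl⟩
    have e : (V - W) * (V - -W) = (f - W ^ 2) - (f - V ^ 2) := by ring
    obtain ⟨d, e, hd, he, rfl⟩ := exists_dvd_and_dvd_of_dvd_mul (e ▸ dvd_sub hW hV)
    obtain ⟨d', dm, da⟩ := exists_monic (left_ne_zero_of_mul hU.ne_zero)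
    obtain ⟨e', em, ea⟩ := exists_monic (right_ne_zero_of_mul hU.ne_zero)
    refine ⟨(d', e'), ⟨⟨dm, da.symm.dvd.mul_right _⟩, em, ea.symm.dvd.mul_left _⟩, ?_⟩
    simp only [cx]
    rw [ml hU.ne_zero hV, m6 _ _ _ hd, m6 _ _ _ he, m7 _ _ _ da, m7 _ _ _ ea]

end Pool.Agent.MP_a43263_nt.JM

end MrgPart0

-- ======== part 1: formerly Pool.Agent.MP_a43263_nt.JM.Glob
section MrgPart1

/-! Mordell-Weil for Jacobians: symmetry of the pairing, fibres of `x`, the diagonal. -/

set_option autoImplicit false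

namespace Pool.Agent.MP_a43263_nt.JM

open Polynomial Finset Filter JC

namespace Glob

section
variable {α : Type}

/-- the sum over the places of a local inequality -/
theorem fin_le {A B C D : α → ℝ} (m : ℝ) (hA : ∀ᶠ v in cofinite, A v = 0)
    (hB : ∀ᶠ v in cofinite, B v = 0) (hC : ∀ᶠ v in cofinite, C v = 0)
    (hD : ∀ᶠ v in cofinite, D v = 0) (h0 : ∑ᶠ v, D v = 0)
    (h : ∀ v, A v + B v ≤ m * C v + 2 * D v) : ∑ᶠ v, A v + ∑ᶠ v, B v ≤ m * ∑ᶠ v, C v := by
  have e := eventually_cofinite.1 (hA.and (hB.and (hC.and hD)))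
  have k : ∀ F : α → ℝ, (∀ v, A v = 0 ∧ B v = 0 ∧ C v = 0 ∧ D v = 0 → F v = 0) →
      ∑ᶠ v, F v = ∑ v ∈ e.toFinset, F v := fun F hF =>
    finsum_eq_sum_of_support_subset F fun v hv => by
      rw [Set.Finite.coe_toFinset]
      exact fun hh => hv (hF v hh)
  rw [k D fun v hh => hh.2.2.2] at h0
  rw [k A fun v hh => hh.1, k B fun v hh => hh.2.1, k C fun v hh => hh.2.2.1, ← sum_add_distrib]
  refine (sum_le_sum fun v _ => h v).trans ?_
  rw [sum_add_distrib, ← mul_sum, ← mul_sum, h0, mul_zero, add_zero]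

theorem sum_le (t : Multiset α) (φ e : α → ℝ) (c : ℝ) (h : ∀ q ∈ t, φ q ≤ c + e q) :
    (t.map φ).sum ≤ t.card * c + (t.map e).sum := by
  refine (Multiset.sum_map_le_sum_map _ _ h).trans (le_of_eq ?_)
  rw [Multiset.sum_map_add, Multiset.map_const', Multiset.sum_replicate, nsmul_eq_mul]

theorem fib_loc (s t : Multiset α) (φ ψ e : α → α → ℝ) (c : ℝ)
    (h : ∀ p ∈ s, ∀ q ∈ t, φ p q + ψ p q ≤ c + 2 * e p q) :
    (s.map fun p => (t.map (φ p)).sum).sum + (s.map fun p => (t.map (ψ p)).sum).sum ≤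
      s.card * (t.card * c) + 2 * (s.map fun p => (t.map (e p)).sum).sum := by
  rw [← Multiset.sum_map_add, ← Multiset.sum_map_mul_left]
  refine sum_le s _ _ _ fun p hp => ?_
  rw [← Multiset.sum_map_add, ← Multiset.sum_map_mul_left]
  exact sum_le t _ _ _ (h p hp)

theorem diag_loc (s : Multiset α) (φ : α → α → ℝ) (h u : α → ℝ) (c : ℝ) (g : ℕ) (hc : 0 ≤ c)
    (hh : ∀ p, 0 ≤ h p) (hs : s.card ≤ g) (h1 : ∀ p ∈ s, ∀ q ∈ s, φ p q ≤ c + h p + h q)
    (h2 : ∀ p ∈ s, φ p p + 2 * g * h p ≤ c + 2 * u p) :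
    (s.map fun p => (s.map (φ p)).sum).sum + 2 * (s.map h).sum ≤
      g * (g * c) + 2 * (s.map u).sum := by
  have k : ∀ p ∈ s, (s.map (φ p)).sum ≤
      (s.card * c + (s.map h).sum) + (2 * u p + (s.card - 2 - 2 * g) * h p) := by
    intro p hp
    obtain ⟨t, rfl⟩ := Multiset.exists_cons_of_mem hp
    have a := sum_le t (φ p) h (c + h p) fun q hq => h1 p hp q (Multiset.mem_cons_of_mem hq)
    have b := h2 p hp
    simp only [Multiset.map_cons, Multiset.sum_cons, Multiset.card_cons, Nat.cast_add,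
      Nat.cast_one]
    linarith
  have a := sum_le s _ _ _ k
  rw [Multiset.sum_map_add, Multiset.sum_map_mul_left, Multiset.sum_map_mul_left] at a
  have H : 0 ≤ (s.map h).sum := Multiset.sum_nonneg fun x hx => by
    obtain ⟨p, -, rfl⟩ := Multiset.mem_map.1 hx
    exact hh p
  have d : (s.card : ℝ) ≤ g := Nat.cast_le.2 hs
  have d0 : (0 : ℝ) ≤ s.card := Nat.cast_nonneg _
  have b : (s.card : ℝ) * (s.card * c) ≤ g * (g * c) :=
    mul_le_mul d (mul_le_mul_of_nonneg_right d hc) (mul_nonneg d0 hc) (d0.trans d)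
  have e : 0 ≤ ((g : ℝ) - s.card) * (s.map h).sum := mul_nonneg (sub_nonneg.2 d) H
  linarith

theorem ev_sum {β : Type} (s : Multiset β) (φ : α → β → ℝ)
    (h : ∀ p ∈ s, ∀ᶠ v in cofinite, φ v p = 0) : ∀ᶠ v in cofinite, (s.map (φ v)).sum = 0 := by
  refine ((eventually_all_finite s.finite_toSet).2 h).mono fun v hv => ?_
  exact Multiset.sum_eq_zero fun x hx => by
    obtain ⟨p, hp, rfl⟩ := Multiset.mem_map.1 hx
    exact hv p hp

end

theorem log_w {K β : Type} [Field K] (w : AbsoluteValue K ℝ) (s : Multiset β) (φ : β → K)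
    (h : ∀ x ∈ s, φ x ≠ 0) :
    Real.log (w (s.map φ).prod) = (s.map fun x => Real.log (w (φ x))).sum := by
  induction s using Multiset.induction_on with
  | empty => simp
  | cons a s ih =>
    have h' : ∀ x ∈ s, φ x ≠ 0 := fun x hx => h x (Multiset.mem_cons_of_mem hx)
    have n : (s.map φ).prod ≠ 0 := Multiset.prod_ne_zero fun e => by
      obtain ⟨x, hx, e'⟩ := Multiset.mem_map.1 e
      exact h' x hx e'
    rw [Multiset.map_cons, Multiset.prod_cons, map_mul, Multiset.map_cons, Multiset.sum_cons,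
      Real.log_mul (w.ne_zero (h a (Multiset.mem_cons_self _ _))) (w.ne_zero n), ih h']

theorem cv {ι : Type} [Fintype ι] {g : ℕ} {a : ι → ℤ} {f : ℚ[X]}
    (h : Cv g (fun i => (a i : ℚ)) f) : Cv g (fun i => (a i : Qb)) (fK f Qb) where
  card := h.card
  pos := h.pos
  inj i k e := h.inj (by
    have : a i = a k := Int.cast_injective (α := Qb) e
    simp only [this])
  eq := by simp [h.eq, fp, fK, Polynomial.map_prod]

theorem root {x : ℚ[X] × ℚ[X]} {p : Qb × Qb} (hp : p ∈ pts x) :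
    (fK x.1 Qb).eval p.1 = 0 ∧ p.2 = (fK x.2 Qb).eval p.1 := by
  obtain ⟨t, ht, rfl⟩ := Multiset.mem_map.1 hp
  exact ⟨(mem_roots'.1 ht).2, rfl⟩

theorem cop {U W : ℚ[X]} (h : IsCoprime U W) {t : Qb} (hU : (fK U Qb).eval t = 0) :
    (fK W Qb).eval t ≠ 0 := by
  intro hW
  obtain ⟨b, c, e⟩ := h
  have := congrArg (fun P : ℚ[X] => (fK P Qb).eval t) e
  simp only [fK, Polynomial.map_add, Polynomial.map_mul, eval_add, eval_mul, Polynomial.map_one,
    eval_one] at this hU hW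
  rw [hU, hW, mul_zero, mul_zero, add_zero] at this
  exact zero_ne_one this

theorem ne1 {x y : ℚ[X] × ℚ[X]} (h : IsCoprime x.1 y.1) {p q : Qb × Qb} (hp : p ∈ pts x)
    (hq : q ∈ pts y) : p.1 ≠ q.1 := fun e => cop h (root hp).1 (e ▸ (root hq).1)

theorem ne2 {f : ℚ[X]} {x : ℚ[X] × ℚ[X]} (h : IsCoprime x.1 f) {p : Qb × Qb} (hp : p ∈ pts x)
    (ho : Oc (fK f Qb) p) : p.2 ≠ 0 := by
  intro e
  refine cop h (root hp).1 ?_
  rw [← show p.2 ^ 2 = _ from ho, e, zero_pow two_ne_zero]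

theorem ne3 {f : ℚ[X]} {x : ℚ[X] × ℚ[X]} (h : IsCoprime x.1 f) {p q : Qb × Qb} (hp : p ∈ pts x)
    (hq : q ∈ pts x) (ho : Oc (fK f Qb) p) : p ≠ ng q := by
  intro e
  have e1 : p.1 = q.1 := by rw [e, ng]
  have e2 : p.2 = -q.2 := by rw [e, ng]
  rw [(root hq).2, ← e1, ← (root hp).2] at e2
  exact ne2 h hp ho (CharZero.eq_neg_self_iff.1 e2)

theorem lam_ev (hs : SUMStmt) (S : Sys) (g : ℕ) {s t : Multiset (Qb × Qb)}
    (h : ∀ p ∈ s, ∀ q ∈ t, p ≠ q) : ∀ᶠ v in cofinite, lam g (S.w v) s t = 0 :=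
  ev_sum s (fun v p => (t.map fun q => Real.log (de g (S.w v) p q)).sum) fun p hp =>
    ev_sum t (fun v q => Real.log (de g (S.w v) p q)) fun q hq =>
      ((hs S).2.2.1 g p q (h p hp q hq)).mono fun v hv => by rw [hv, Real.log_one]

/-- the product formula for a norm -/
theorem prodf (hs : SUMStmt) (S : Sys) (x : ℚ[X] × ℚ[X]) (R : ℚ[X]) (φ : Qb × Qb → Qb)
    (e : ∀ p ∈ pts x, φ p = (fK R Qb).eval p.1) (h : ∀ p ∈ pts x, φ p ≠ 0) :
    (∀ᶠ v in cofinite, ((pts x).map fun p => Real.log (S.w v (φ p))).sum = 0) ∧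
      ∑ᶠ v, ((pts x).map fun p => Real.log (S.w v (φ p))).sum = 0 := by
  refine ⟨ev_sum _ (fun v p => Real.log (S.w v (φ p))) fun p hp =>
    ((hs S).1 _ (h p hp)).mono fun v hv => by rw [hv, Real.log_one], ?_⟩
  obtain ⟨r, hr⟩ := (hs S).2.2.2.2.2 x.1 R
  have e' : ((pts x).map φ).prod = r := by
    rw [← hr, Multiset.map_congr rfl e, pts, Multiset.map_map]
    rfl
  have n : r ≠ 0 := by
    rintro rfl
    rw [Rat.cast_zero, Multiset.prod_eq_zero_iff, Multiset.mem_map] at e'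
    obtain ⟨p, hp, e''⟩ := e'
    exact h p hp e''
  rw [← (hs S).2.2.2.1 r n]
  refine finsum_congr fun v => ?_
  rw [← log_w _ _ _ h, e']

theorem log_le {a b κ : ℝ} {M : ℕ} (hκ : 1 ≤ κ) (ha : 0 < a) (h : a ≤ κ ^ M * b) :
    Real.log a ≤ M * Real.log κ + Real.log b := by
  have k : 0 < κ ^ M := pow_pos (one_pos.trans_le hκ) M
  have hb : 0 < b := (mul_pos_iff_of_pos_left k).1 (ha.trans_le h)
  rw [← Real.log_pow, ← Real.log_mul k.ne' hb.ne']
  exact Real.log_le_log ha h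

end Glob

open Glob

theorem glob : UPStmt → SUMStmt → PRINStmt → GLOBStmt := by
  intro up hs prin S ι _ g a f κ n hC hK
  obtain ⟨M, hM⟩ := up g
  have U := fun v => hM Qb ι (S.w v) (κ v) _ _ (cv hC) (hK.1 v)
  have k1 : ∀ v, 1 ≤ κ v := fun v => (hK.1 v).tri.1
  have k0 : ∀ v, 0 ≤ (M : ℝ) * Real.log (κ v) := fun v =>
    mul_nonneg (Nat.cast_nonneg _) (Real.log_nonneg (k1 v))
  have kf : ∀ᶠ v in cofinite, (M : ℝ) * Real.log (κ v) = 0 :=
    hK.2.2.mono fun v hv => by rw [hv, Real.log_one, mul_zero]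
  have L0 : 0 ≤ ∑ᶠ v, (M : ℝ) * Real.log (κ v) := finsum_nonneg k0
  have n0 : (0 : ℝ) ≤ n * n := by positivity
  have g0 : (0 : ℝ) ≤ g * g := by positivity
  refine ⟨(n * n + g * g) * ∑ᶠ v, (M : ℝ) * Real.log (κ v), fun x y => ?_, fun x => ?_,
    fun x y h p hp hq => ne1 h hp hq rfl, fun x hx h p hp hq => ?_, fun x y hx hy h => ?_,
    fun x hx h => ?_⟩
  · refine finsum_congr fun v => ?_
    rw [lam, lam, Multiset.sum_map_sum_map]
    simp only [de_comm (S.w v) g]
  · simp [be, pts_one, lam]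
  · rw [pts_nv] at hq
    obtain ⟨q, hq, e⟩ := Multiset.mem_map.1 hq
    exact ne3 h hp hq (((prin ι g n _ f hC).1 x hx).2 p hp) e.symm
  · obtain ⟨cx, ox⟩ := (prin ι g n _ f hC).1 x hx
    obtain ⟨cy, oy⟩ := (prin ι g n _ f hC).1 y hy
    have e : ∀ p ∈ pts x, ((pts y).map fun q => p.1 - q.1).prod = (fK y.1 Qb).eval p.1 := by
      intro p _
      rw [(IsAlgClosed.splits (fK y.1 Qb)).eval_eq_prod_roots_of_monic (hy.1.map _), pts,
        Multiset.map_map]
      rfl
    obtain ⟨d1, d2⟩ := prodf hs S x y.1 _ e fun p hp => by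
      rw [e p hp]
      exact cop h (root hp).1
    have z1 : ∀ p ∈ pts x, ∀ q ∈ pts y, p ≠ q := fun p hp q hq e' => ne1 h hp hq (by rw [e'])
    have z2 : ∀ p ∈ pts x, ∀ q ∈ pts y, p ≠ ng q := fun p hp q hq e' =>
      ne1 h hp hq (by rw [e', ng])
    have z3 : ∀ p ∈ pts x, ∀ q ∈ pts (nv y), p ≠ q := fun p hp q hq => ne1 (y := nv y) h hp hq ∘
      fun e' => by rw [e']
    refine (fin_le (n * n) (lam_ev hs S g z1) (lam_ev hs S g z3) kf d1 d2 fun v => ?_).trans
      (mul_le_mul_of_nonneg_right (le_add_of_nonneg_right g0) L0)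
    have b := fib_loc (pts x) (pts y) (fun p q => Real.log (de g (S.w v) p q))
      (fun p q => Real.log (de g (S.w v) p (ng q))) (fun p q => Real.log (S.w v (p.1 - q.1)))
      (M * Real.log (κ v)) fun p hp q hq => by
        have p1 := de_pos (S.w v) g (z1 p hp q hq)
        have p2 := de_pos (S.w v) g (z2 p hp q hq)
        have := log_le (k1 v) (mul_pos p1 p2) (U v p q (ox p hp) (oy q hq)).1
        rwa [Real.log_mul p1.ne' p2.ne', Real.log_pow, Nat.cast_ofNat] at this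
    have l : ((pts x).map fun p => Real.log (S.w v ((pts y).map fun q => p.1 - q.1).prod)) =
        (pts x).map fun p => ((pts y).map fun q => Real.log (S.w v (p.1 - q.1))).sum :=
      Multiset.map_congr rfl fun p hp => log_w _ _ _ fun q hq => sub_ne_zero.2 (ne1 h hp hq)
    have c1 : ((pts x).card : ℝ) ≤ n := Nat.cast_le.2 (cx.trans_le hx.2.2)
    have c2 : ((pts y).card : ℝ) ≤ n := Nat.cast_le.2 (cy.trans_le hy.2.2)
    have c3 : ((pts x).card : ℝ) * ((pts y).card * (M * Real.log (κ v))) ≤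
        n * (n * (M * Real.log (κ v))) :=
      mul_le_mul c1 (mul_le_mul_of_nonneg_right c2 (k0 v))
        (mul_nonneg (Nat.cast_nonneg _) (k0 v)) (Nat.cast_nonneg _)
    rw [l, pts_nv, lam, lam]
    simp only [Multiset.map_map, Function.comp_def]
    linarith
  · obtain ⟨cx, ox⟩ := (prin ι g g _ f hC).1 x hx
    obtain ⟨d1, d2⟩ := prodf hs S x x.2 (fun p => p.2) (fun p hp => (root hp).2) fun p hp =>
      ne2 h hp (ox p hp)
    have z : ∀ p ∈ pts x, ∀ q ∈ pts (nv x), p ≠ q := by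
      intro p hp q hq
      rw [pts_nv] at hq
      obtain ⟨r, hr, rfl⟩ := Multiset.mem_map.1 hq
      exact ne3 h hp hr (ox p hp)
    have hf : ∀ᶠ v in cofinite,
        2 * ((fK x.1 Qb).roots.map fun t => Real.log (nx (S.w v) t)).sum = 0 :=
      (ev_sum _ (fun v t => Real.log (nx (S.w v) t)) fun t _ =>
        ((hs S).2.1 t).mono fun v hv => by rw [hv, Real.log_one]).mono fun v hv => by
          rw [hv, mul_zero]
    rw [Ht, mul_finsum]
    refine (fin_le (g * g) (lam_ev hs S g z) hf kf d1 d2 fun v => ?_).trans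
      (mul_le_mul_of_nonneg_right (le_add_of_nonneg_left n0) L0)
    have b := diag_loc (pts x) (fun p q => Real.log (de g (S.w v) p (ng q)))
      (fun p => Real.log (nx (S.w v) p.1)) (fun p => Real.log (S.w v p.2)) (M * Real.log (κ v)) g
      (k0 v) (fun p => Real.log_nonneg (one_le_nx _ _)) (cx.trans_le hx.2.2)
      (fun p hp q hq => by
        have := log_le (k1 v) (de_pos (S.w v) g (ne3 h hp hq (ox p hp)))
          (U v p (ng q) (ox p hp) (ox q hq).ng).2.1
        rwa [Real.log_mul (nx_pos _ _).ne' (nx_pos _ _).ne', ← add_assoc] at this)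
      fun p hp => by
        have p1 := de_pos (S.w v) g (ne3 h hp hp (ox p hp))
        have p2 := pow_pos (nx_pos (S.w v) p.1) (2 * g)
        have := log_le (k1 v) (mul_pos p1 p2) (U v p p (ox p hp) (ox p hp)).2.2
        rwa [Real.log_mul p1.ne' p2.ne', Real.log_pow, Real.log_pow, Nat.cast_ofNat, Nat.cast_mul,
          Nat.cast_ofNat] at this
    have l : ((fK x.1 Qb).roots.map fun t => Real.log (nx (S.w v) t)) =
        (pts x).map fun p => Real.log (nx (S.w v) p.1) := by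
      rw [pts, Multiset.map_map]
      rfl
    rw [l, pts_nv, lam]
    simp only [Multiset.map_map, Function.comp_def]
    linarith

end Pool.Agent.MP_a43263_nt.JM

end MrgPart1

-- ======== part 2: formerly Pool.Agent.MP_a43263_nt.JM.Hgt
section MrgPart2

/-! Mordell-Weil for Jacobians: the height on classes. -/

set_option autoImplicit false

namespace Pool.Agent.MP_a43263_nt.JM

open Polynomial JC

theorem abs : ABSStmt := by
  intro G Y _ c n R β o b rs rn cn co ro βo βs mv lo up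
  have b0 : 0 ≤ b := by
    have := lo o o o o (ro o) (ro o) (ro o) (by simp [co])
    simp only [βo] at this
    linarith
  have hi : ∀ x y₁ y₂ y₃, R x y₁ → R x y₂ → R x y₃ → c y₁ * c y₂ * c y₃ = 1 →
      β x y₁ + β x y₂ + β x y₃ ≤ 4 * b := fun x y₁ y₂ y₃ h₁ h₂ h₃ e => by
    have := lo x (n y₁) (n y₂) (n y₃) (rn _ _ h₁) (rn _ _ h₂) (rn _ _ h₃)
      (by rw [cn, cn, cn, ← mul_inv, ← mul_inv, e, inv_one])
    linarith [up x y₁ h₁, up x y₂ h₂, up x y₃ h₃]
  have ng : ∀ x y y', R x y → R x y' → c y = c y' →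
      -b ≤ β x (n y) + β x y' ∧ β x (n y) + β x y' ≤ 4 * b := fun x y y' h h' e => by
    have e' : c (n y) * c y' * c o = 1 := by rw [cn, co, e, inv_mul_cancel, one_mul]
    have l := lo x (n y) y' o (rn _ _ h) h' (ro x) e'
    have u := hi x (n y) y' o (rn _ _ h) h' (ro x) e'
    rw [βo] at l u
    constructor <;> linarith
  have sm : ∀ x y y', R x y → R x y' → c y = c y' → β x y - β x y' ≤ 5 * b :=
    fun x y y' h h' e => by
      linarith [(ng x y y h h rfl).2, (ng x y y' h h' e).1]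
  choose u hu using mv
  let B : G → G → ℝ := fun P Q => β (u P []) (u Q [u P []])
  have hB : ∀ x y, R x y → B (c x) (c y) - β x y ≤ 15 * b ∧ β x y - B (c x) (c y) ≤ 15 * b := by
    intro x y h
    obtain ⟨e1, -⟩ := hu (c x) []
    obtain ⟨e2, r2⟩ := hu (c y) [u (c x) []]
    obtain ⟨e3, r3⟩ := hu (c y) [x, u (c x) []]
    have r2' := r2 _ (List.mem_singleton_self _)
    have r3a := r3 x (by simp)
    have r3b := r3 (u (c x) []) (by simp)
    have s1 := sm x y _ h r3a e3.symm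
    have s1' := sm x _ y r3a h e3
    have s2 := sm _ x _ (rs _ _ r3a) (rs _ _ r3b) e1.symm
    have s2' := sm _ _ x (rs _ _ r3b) (rs _ _ r3a) e1
    have s3 := sm _ _ _ r3b r2' (e3.trans e2.symm)
    have s3' := sm _ _ _ r2' r3b (e2.trans e3.symm)
    rw [βs _ x, βs _ (u (c x) [])] at s2 s2'
    constructor <;> simp only [B] <;> linarith
  have sy : ∀ P Q, B P Q - B Q P ≤ 30 * b := by
    intro P Q
    obtain ⟨e1, -⟩ := hu P []
    obtain ⟨e2, r2⟩ := hu Q [u P []]
    have r := r2 _ (List.mem_singleton_self _)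
    have k1 := hB _ _ r
    have k2 := hB _ _ (rs _ _ r)
    rw [e1, e2] at k1 k2
    rw [βs] at k2
    linarith [k1.1, k2.2]
  have iv : ∀ P Q, B P Q⁻¹ + B P Q ≤ 40 * b ∧ -(40 * b) ≤ B P Q⁻¹ + B P Q := by
    intro P Q
    obtain ⟨e1, -⟩ := hu P []
    obtain ⟨e2, r2⟩ := hu Q [u P []]
    have r := r2 _ (List.mem_singleton_self _)
    have k1 := hB _ _ r
    have k2 := hB _ _ (rn _ _ r)
    rw [cn] at k2
    rw [e1, e2] at k1 k2
    have k3 := ng _ _ _ r r rfl
    constructor <;> linarith [k1.1, k1.2, k2.1, k2.2, k3.1, k3.2]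
  have ad : ∀ P Q Q', B P (Q * Q') - B P Q - B P Q' ≤ 50 * b ∧
      -(50 * b) ≤ B P (Q * Q') - B P Q - B P Q' := by
    intro P Q Q'
    obtain ⟨e1, -⟩ := hu P []
    obtain ⟨e2, r2⟩ := hu Q [u P []]
    obtain ⟨e3, r3⟩ := hu Q' [u P []]
    obtain ⟨e4, r4⟩ := hu (Q * Q') [u P []]
    have r2' := r2 _ (List.mem_singleton_self _)
    have r3' := r3 _ (List.mem_singleton_self _)
    have r4' := r4 _ (List.mem_singleton_self _)
    have k2 := hB _ _ r2'
    have k3 := hB _ _ r3'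
    have k4 := hB _ _ r4'
    rw [e1, e2] at k2
    rw [e1, e3] at k3
    rw [e1, e4] at k4
    have e : c (u Q [u P []]) * c (u Q' [u P []]) * c (n (u (Q * Q') [u P []])) = 1 := by
      rw [cn, e2, e3, e4, mul_inv_cancel]
    have l := lo _ _ _ _ r2' r3' (rn _ _ r4') e
    have h := hi _ _ _ _ r2' r3' (rn _ _ r4') e
    have k5 := ng _ _ _ r4' r4' rfl
    constructor <;> linarith [k2.1, k2.2, k3.1, k3.2, k4.1, k4.2, k5.1, k5.2]
  have sq : ∀ P Q, B (P * Q) (P * Q) - (B P P + B P Q + B Q P + B Q Q) ≤ 210 * b ∧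
      -(210 * b) ≤ B (P * Q) (P * Q) - (B P P + B P Q + B Q P + B Q Q) := by
    intro P Q
    constructor <;> linarith [(ad (P * Q) P Q).1, (ad (P * Q) P Q).2, (ad P P Q).1, (ad P P Q).2,
      (ad Q P Q).1, (ad Q P Q).2, sy (P * Q) P, sy P (P * Q), sy (P * Q) Q, sy Q (P * Q)]
  refine ⟨fun P => B P P, 1000 * b, fun P Q => ?_, fun x y h e => ?_⟩
  · rw [div_eq_mul_inv, abs_le]
    constructor <;> linarith [(sq P Q).1, (sq P Q).2, (sq P Q⁻¹).1, (sq P Q⁻¹).2, (iv P Q).1,
      (iv P Q).2, (iv Q Q).1, (iv Q Q).2, (iv Q⁻¹ Q).1, (iv Q⁻¹ Q).2, sy Q⁻¹ P, sy P Q⁻¹,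
      sy Q⁻¹ Q, sy Q Q⁻¹, sy P Q, sy Q P]
  · have k := hB x y h
    rw [← e] at k
    rw [abs_le]
    constructor <;> linarith [k.1, k.2]

theorem hgt (sys : SYSStmt) (ht : HTStmt) (move : MOVEStmt) (tri : TRIStmt) (glob : GLOBStmt)
    (abs : ABSStmt) : HGTStmt := by
  intro ι _ g a f cv
  obtain ⟨⟨S⟩, hk⟩ := sys
  obtain ⟨κ, kp⟩ := hk S ι a fun i j e => cv.inj (by simp only [e])
  obtain ⟨mv, cn, co, ⟨T, hT, hT'⟩, fin⟩ := move ℚ ι g _ f cv
  obtain ⟨c1, tr⟩ := tri S ι g a f κ (2 * g + 1) cv kp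
  obtain ⟨c2, sy, z, dj, djn, up, dg⟩ := glob S ι g a f κ (2 * g + 1) cv kp
  have mn : ∀ x, Mu f (2 * g + 1) x → Mu f (2 * g + 1) (nv x) := fun x h =>
    ⟨h.1, by simpa [nv] using h.2.1, h.2.2⟩
  have mo : Mu f (2 * g + 1) (1, 0) := ⟨monic_one, one_dvd _, by simp⟩
  obtain ⟨h, b, par, rep⟩ := abs (CommRing.Pic (Rg f)) {x // Mu f (2 * g + 1) x}
    (fun x => cx f x.1) (fun x => ⟨nv x.1, mn _ x.2⟩) (fun x y => IsCoprime x.1.1 y.1.1)
    (fun x y => be S g x.1 y.1) ⟨(1, 0), mo⟩ (max c1 c2) (fun _ _ h => h.symm) (fun _ _ h => h)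
    (fun x => cn _ _ x.2) co (fun _ => isCoprime_one_right) (fun x => z x.1)
    (fun x y => sy x.1 y.1)
    (fun P l => by
      obtain ⟨y, hy, cp, e⟩ := mv P (l.map fun x => x.1.1).prod (List.prod_ne_zero (by
        simp only [List.mem_map, not_exists, not_and]
        exact fun x _ => x.2.1.ne_zero))
      exact ⟨⟨y, hy⟩, e, fun x hx =>
        (cp.of_isCoprime_of_dvd_right (List.dvd_prod (List.mem_map_of_mem hx))).symm⟩)
    (fun x y₁ y₂ y₃ h₁ h₂ h₃ e => (neg_le_neg (le_max_left _ _)).trans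
      (tr _ _ _ _ x.2 y₁.2 y₂.2 y₃.2 e (dj _ _ h₁) (dj _ _ h₂) (dj _ _ h₃)))
    (fun x y h => (up _ _ x.2 y.2 h).trans (le_max_right _ _))
  have nc : ∀ B : ℝ, {P | h P ≤ B}.Finite := by
    intro B
    have fu : ∀ D : ℝ, {U : ℚ[X] | U.Monic ∧ U.natDegree ≤ g ∧ Ht S U ≤ D ∧
        IsCoprime U f}.Finite := fun D => (ht S g D).subset fun U hU => ⟨hU.1, hU.2.1, hU.2.2.1⟩
    refine (T.finite_toSet.biUnion fun t _ =>
      (fu ((B + h t + 2 * b + c1 + c2) / 2)).biUnion fun U hU =>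
        (fin U hU.1 hU.2.2.2).image (· * t)).subset fun P hP => ?_
    obtain ⟨t, tT, x, mx, cf, e⟩ := hT' P
    have mx' : Mu f (2 * g + 1) x := ⟨mx.1, mx.2.1, mx.2.2.trans (by omega)⟩
    obtain ⟨y, my, cp, ey⟩ := mv (cx f x) x.1 mx.1.ne_zero
    have k1 := abs_le.1 (par P t)
    have e1 : P * t = cx f x := by rw [e, mul_assoc, hT t tT, mul_one]
    have e2 : P / t = cx f x := by rw [e, mul_div_cancel_right]
    rw [e1, e2] at k1
    have k2 := abs_le.1 (rep ⟨x, mx'⟩ ⟨y, my⟩ cp.symm ey.symm)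
    have k3 := tr x (nv x) y (1, 0) mx' (mn _ mx') my mo
      (by rw [cn _ _ mx', ey, co, inv_mul_cancel, one_mul]) (djn x mx' cf) (dj _ _ cp.symm)
      (dj _ _ isCoprime_one_right)
    have k4 := dg x mx cf
    have b0 : 0 ≤ b := (abs_nonneg _).trans (par 1 1)
    rw [z] at k3
    simp only [Set.mem_iUnion]
    refine ⟨t, tT, x.1, ⟨mx.1, mx.2.2, ?_, cf⟩, cx f x, ⟨x.2, mx.2.1, rfl⟩, e.symm⟩
    have hP' : h P ≤ B := hP
    simp only at k2
    linarith [k1.2, k2.1]
  obtain ⟨m, hm⟩ := ((nc (h 1)).image h).bddBelow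
  have lo : ∀ P, m ≤ h P := fun P => by
    by_cases c : h P ≤ h 1
    · exact hm ⟨P, c, rfl⟩
    · exact (hm ⟨1, le_refl (h 1), rfl⟩).trans (not_le.1 c).le
  refine ⟨fun P => h P - m, b + 2 * |m|, fun P => sub_nonneg.2 (lo P), fun P Q => ?_, fun B => ?_⟩
  · have k := abs_le.1 (par P Q)
    rw [abs_le]
    constructor <;> linarith [k.1, k.2, neg_abs_le m, le_abs_self m]
  · exact (nc (B + m)).subset fun P (hP : h P - m ≤ B) => show h P ≤ B + m by linarith

end Pool.Agent.MP_a43263_nt.JM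

end MrgPart2

-- ======== part 3: formerly Pool.Agent.MP_a43263_nt.JM.Mw
section MrgPart3

/-! Mordell-Weil for Jacobians: descent. -/

set_option autoImplicit false

namespace Pool.Agent.MP_a43263_nt.JM

open Polynomial JC

namespace Mw

variable {ι : Type} [Fintype ι] {g : ℕ} {a : ι → ℚ}

/-- extension of scalars on classes -/
noncomputable abbrev up (a : ι → ℚ) :
    CommRing.Pic (Rg (fp a)) →* CommRing.Pic (Rg (fK (fp a) Qb)) :=
  CommRing.Pic.mapRingHom (rmap (Rat.castHom Qb) rfl)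

theorem up_inj (pic : PICStmt) (mum : MUMStmt) (red : REDStmt) (h : Cv g a (fp a)) :
    Function.Injective (up a) := by
  intro x y e
  obtain ⟨U, V, hU, rfl⟩ := (red ℚ ι g a _ h).1 x
  obtain ⟨U', V', hU', rfl⟩ := (red ℚ ι g a _ h).1 y
  rw [RatA.cl_map pic mum h _ rfl hU.1 hU.2.1, RatA.cl_map pic mum h _ rfl hU'.1 hU'.2.1] at e
  obtain ⟨e1, e2⟩ := (red Qb ι g _ _ (Idx.cv_map (Rat.castHom Qb) h)).2 _ _ _ _
    (RatA.red_map _ rfl hU) (RatA.red_map _ rfl hU') e
  rw [Polynomial.map_injective _ (Rat.castHom Qb).injective e1,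
    Polynomial.map_injective _ (Rat.castHom Qb).injective e2]

theorem up_surj (pic : PICStmt) (mum : MUMStmt) (rat : RATStmt) (h : Cv g a (fp a))
    (P : JQ (fp a)) : ∃ x, up a x = Additive.toMul P.1 := by
  obtain ⟨U, V, hU, e⟩ := Idx.rep rat h P
  exact ⟨cl (MI (fp a) U V), by rw [RatA.cl_map pic mum h _ rfl hU.1 hU.2.1, e]; rfl⟩

end Mw

open Mw in
theorem mw : PICStmt → MUMStmt → REDStmt → RATStmt → HGTStmt → MWStmt := by
  intro pic mum red rat hgt ι _ g a f h hi
  obtain ⟨ht, b, h0, hp, hn⟩ := hgt ι g a f h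
  obtain rfl := h.eq
  have inj := up_inj pic mum red h
  choose s hs using up_surj pic mum rat h
  have s1 : ∀ P Q, s (P + Q) = s P * s Q := fun P Q => inj (by rw [map_mul, hs, hs, hs]; rfl)
  have s2 : ∀ P Q, s (P - Q) = s P / s Q := fun P Q => inj (by rw [_root_.map_div, hs, hs, hs]; rfl)
  have si : Function.Injective s := fun P Q e =>
    Subtype.ext (Additive.toMul.injective (by rw [← hs, ← hs, e]))
  have : Northcott fun P => ht (s P) := ⟨fun B => (hn B).preimage si.injOn⟩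
  have fg := AddCommGroup.fg_of_descent' (h := fun P => ht (s P)) (C := b) ⟨hi⟩ (fun P => h0 _)
    fun P Q => by rw [s1, s2]; exact hp _ _
  refine ⟨fg, fun m r e1 e2 => ?_⟩
  obtain ⟨n, h2, h3⟩ := Two.index_two fg
  rw [e1, e2, ← pow_add] at h3
  have := Nat.pow_right_injective le_rfl h3
  rw [h2, show n = r by omega]

end Pool.Agent.MP_a43263_nt.JM

end MrgPart3

-- ======== part 4: formerly Pool.Agent.MP_a43263_nt.JM.Norm
section MrgPart4

/-! The Gauss lemma for the norm form `A ^ 2 - f * B ^ 2`. -/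

set_option autoImplicit false

namespace Pool.Agent.MP_a43263_nt.JM

open Polynomial Finset JC

namespace Norm

section na

variable {K : Type} [Field K] {w : AbsoluteValue K ℝ}

theorem pn_le_G {c : ℝ} (hc : 1 ≤ c) (P : K[X]) : pn w P ≤ P.gaussNorm w c :=
  pn_le w fun i => (le_mul_of_one_le_right (w.nonneg _) (one_le_pow₀ hc)).trans
    (le_gaussNorm w P (zero_le_one.trans hc) i)

theorem G_le {c : ℝ} (hc : 1 ≤ c) {P : K[X]} {N : ℕ} (h : P.natDegree ≤ N) :
    P.gaussNorm w c ≤ c ^ N * pn w P := by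
  obtain ⟨i, e⟩ := exists_eq_gaussNorm w c P
  rw [e]
  by_cases hi : i ≤ N
  · rw [mul_comm]
    exact mul_le_mul (pow_le_pow_right₀ hc hi) (le_pn w P i) (w.nonneg _) (by positivity)
  · rw [coeff_eq_zero_of_natDegree_lt (by omega), map_zero, zero_mul]
    exact mul_nonneg (by positivity) (pn_nonneg w P)

theorem G_lin {c : ℝ} (hc : 1 ≤ c) {a : K} (ha : w a ≤ 1) : (X - C a).gaussNorm w c = c := by
  refine le_antisymm ?_ ?_
  · obtain ⟨i, e⟩ := exists_eq_gaussNorm w c (X - C a)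
    rw [e]
    rcases i with _ | _ | i
    · simpa using ha.trans hc
    · simp
    · simp [coeff_X, zero_le_one.trans hc]
  · have := le_gaussNorm w (X - C a) (zero_le_one.trans hc) 1
    rwa [coeff_sub, coeff_X_one, coeff_C_succ, sub_zero, map_one, one_mul, pow_one] at this

theorem G_prod (hna : IsNonarchimedean w) {c : ℝ} (hc : 1 ≤ c) {ι : Type} (a : ι → K)
    (ha : ∀ i, w (a i) ≤ 1) (s : Finset ι) :
    (∏ i ∈ s, (X - C (a i))).gaussNorm w c = c ^ s.card := by
  classical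
  induction s using Finset.induction_on with
  | empty => simpa using gaussNorm_C w c (1 : K)
  | insert i s hi ih =>
    rw [prod_insert hi, gaussNorm_mul hna (one_pos.trans_le hc), ih, G_lin hc (ha i),
      card_insert_of_notMem hi, pow_succ']

theorem G_neg {c : ℝ} (hna : IsNonarchimedean w) (hc : 0 < c) (P : K[X]) :
    (-P).gaussNorm w c = P.gaussNorm w c := by
  have : -P = C (-1) * P := by simp
  rw [this, gaussNorm_mul hna hc, gaussNorm_C]
  simp

theorem G_sub {c : ℝ} (hna : IsNonarchimedean w) (hc : 0 < c) {P Q : K[X]}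
    (h : P.gaussNorm w c ≠ Q.gaussNorm w c) :
    P.gaussNorm w c ≤ (P - Q).gaussNorm w c ∧ Q.gaussNorm w c ≤ (P - Q).gaussNorm w c := by
  have a := isNonarchimedean_gaussNorm w hna hc.le (P - Q) Q
  have b := isNonarchimedean_gaussNorm w hna hc.le (-(P - Q)) P
  rw [sub_add_cancel] at a
  rw [neg_sub, sub_add_cancel, ← neg_sub, G_neg hna hc] at b
  rcases le_max_iff.1 a with a | a <;> rcases le_max_iff.1 b with b | b
  · exact ⟨a, b⟩
  · exact ⟨a, b.trans a⟩
  · exact ⟨a.trans b, b⟩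
  · exact absurd (le_antisymm a b) h

theorem bad (α β : ℝ) (k l : ℕ) (h : k ≠ l) :
    {c : ℝ | α ≠ 0 ∧ α * c ^ k = β * c ^ l}.Finite := by
  by_cases hα : α = 0
  · simp [hα]
  have hp : (C α * X ^ k - C β * X ^ l : ℝ[X]) ≠ 0 := fun e => by
    have := congrArg (fun p => coeff p k) e
    simp [coeff_X_pow, h, hα] at this
  refine (finite_setOfPred_isRoot hp).subset fun c hc => ?_
  simpa [sub_eq_zero] using hc.2

theorem na (hna : IsNonarchimedean w) {ι : Type} [Fintype ι] (a : ι → K) (ha : ∀ i, w (a i) ≤ 1)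
    {g : ℕ} (hg : Fintype.card ι = 2 * g + 1) (A B : K[X]) :
    max (pn w A) (pn w B) ^ 2 ≤ pn w (A ^ 2 - fp a * B ^ 2) := by
  set N := (A ^ 2 - fp a * B ^ 2).natDegree
  set R := pn w (A ^ 2 - fp a * B ^ 2)
  set m := max (pn w A) (pn w B)
  have hm : 0 ≤ m := (pn_nonneg w A).trans (le_max_left _ _)
  by_contra hlt
  have hS : (⋃ k : ℕ, ⋃ l : ℕ, {c : ℝ | w (A.coeff k) ^ 2 ≠ 0 ∧
      w (A.coeff k) ^ 2 * c ^ (2 * k) = w (B.coeff l) ^ 2 * c ^ (2 * l + (2 * g + 1))}).Countable :=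
    Set.countable_iUnion fun k => Set.countable_iUnion fun l =>
      (bad _ _ _ _ (by omega)).countable
  have ho' : IsOpen {c : ℝ | c ^ N * R < m ^ 2} :=
    isOpen_lt ((continuous_pow N).mul continuous_const) continuous_const
  have ho : IsOpen {c : ℝ | 1 < c ∧ c ^ N * R < m ^ 2} :=
    (isOpen_lt continuous_const continuous_id).inter ho'
  have hne : {c : ℝ | 1 < c ∧ c ^ N * R < m ^ 2}.Nonempty := by
    have h1 : ∀ᶠ c in nhds (1 : ℝ), c ^ N * R < m ^ 2 :=
      ho'.mem_nhds (by simpa using not_le.1 hlt)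
    exact ((eventually_mem_nhdsWithin (s := Set.Ioi (1 : ℝ))).and
      (h1.filter_mono nhdsWithin_le_nhds)).exists
  obtain ⟨c, hcS, hc1, hc⟩ := (hS.dense_compl ℝ).exists_mem_open ho hne
  have h0 : 0 < c := one_pos.trans hc1
  have eA : (A ^ 2).gaussNorm w c = A.gaussNorm w c ^ 2 := by
    rw [sq, gaussNorm_mul hna h0, sq]
  have eB : (fp a * B ^ 2).gaussNorm w c = c ^ (2 * g + 1) * B.gaussNorm w c ^ 2 := by
    rw [gaussNorm_mul hna h0, sq, gaussNorm_mul hna h0, fp, G_prod hna hc1.le a ha, card_univ, hg,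
      sq]
  have hA := pn_le_G (w := w) hc1.le A
  have hB := pn_le_G (w := w) hc1.le B
  have pA := pn_nonneg w A
  have pB := pn_nonneg w B
  have h1 : (1 : ℝ) ≤ c ^ (2 * g + 1) := one_le_pow₀ hc1.le
  have fin : ∀ t, A.gaussNorm w c ^ 2 ≤ t → c ^ (2 * g + 1) * B.gaussNorm w c ^ 2 ≤ t →
      m ^ 2 ≤ t := fun t h h' => by
    rcases max_choice (pn w A) (pn w B) with e | e <;> rw [show m = _ from e]
    · exact (pow_le_pow_left₀ pA hA 2).trans h
    · exact (pow_le_pow_left₀ pB hB 2).trans ((le_mul_of_one_le_left (sq_nonneg _) h1).trans h')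
  have hR : 0 ≤ c ^ N * R := mul_nonneg (by positivity) (pn_nonneg w _)
  by_cases e : (A ^ 2).gaussNorm w c = (fp a * B ^ 2).gaussNorm w c
  · rw [eA, eB] at e
    obtain ⟨k, ek⟩ := exists_eq_gaussNorm w c A
    obtain ⟨l, el⟩ := exists_eq_gaussNorm w c B
    by_cases z : w (A.coeff k) ^ 2 = 0
    · have zA : A.gaussNorm w c ^ 2 = 0 := by rw [ek, mul_pow, z, zero_mul]
      exact absurd (fin _ (zA.le.trans hR) (e ▸ zA.le.trans hR)) (not_le.2 hc)
    · refine hcS (Set.mem_iUnion.2 ⟨k, Set.mem_iUnion.2 ⟨l, z, ?_⟩⟩)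
      rw [ek, el] at e
      linear_combination e
  · obtain ⟨u, v⟩ := G_sub hna h0 e
    have := G_le (w := w) hc1.le (le_refl N)
    exact absurd (fin _ (eA ▸ u.trans this) (eB ▸ v.trans this)) (not_le.2 hc)

end na

variable (S : Sys)

theorem co (P : ℚ[X]) (i : ℕ) : S.w none ((fK P Qb).coeff i) = |(P.coeff i : ℝ)| := by
  rw [fK, coeff_map, ← S.arch]
  rfl

theorem ev_le (P : ℚ[X]) (x : ℚ) {D : ℕ} (h : P.natDegree ≤ D) :
    |((P.eval x : ℚ) : ℝ)| ≤ (∑ i ∈ range (D + 1), |(x : ℝ)| ^ i) * pn (S.w none) (fK P Qb) := by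
  rw [eval_eq_sum_range' (Nat.lt_succ_of_le h), sum_mul]
  push_cast
  refine (abs_sum_le_sum_abs _ _).trans (sum_le_sum fun i _ => ?_)
  rw [abs_mul, abs_pow, mul_comm, ← co]
  exact mul_le_mul_of_nonneg_left (le_pn _ _ _) (by positivity)

theorem lag (n : ℕ) (x : ℕ → ℚ) (hx : Function.Injective x) (P : ℚ[X]) (h : P.natDegree ≤ n)
    (t : ℕ → ℝ) (ht : ∀ j, |((P.eval (x j) : ℚ) : ℝ)| ≤ t j) :
    pn (S.w none) (fK P Qb) ≤ ∑ j ∈ range (n + 1),
      t j * pn (S.w none) (fK (Lagrange.basis (range (n + 1)) x j) Qb) := by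
  refine pn_le _ fun i => ?_
  have hd : P.degree < ((range (n + 1)).card : ℕ) := by
    rw [card_range]
    exact degree_le_natDegree.trans_lt (by exact_mod_cast Nat.lt_succ_of_le h)
  have e := Lagrange.eq_interpolate (s := range (n + 1)) hx.injOn hd
  rw [co, e, Lagrange.interpolate_apply, finsetSum_coeff]
  push_cast
  refine (abs_sum_le_sum_abs _ _).trans (sum_le_sum fun j _ => ?_)
  rw [coeff_C_mul]
  push_cast
  rw [abs_mul, ← co]
  exact mul_le_mul (ht j) (le_pn _ _ _) (AbsoluteValue.nonneg _ _) ((abs_nonneg _).trans (ht j))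

theorem ar {ι : Type} [Fintype ι] (a : ι → ℚ) {g : ℕ} (hg : Fintype.card ι = 2 * g + 1) (n : ℕ) :
    ∃ c : ℝ, ∀ A B : ℚ[X], A.natDegree ≤ n → B.natDegree ≤ n →
      max (pn (S.w none) (fK A Qb)) (pn (S.w none) (fK B Qb)) ^ 2 ≤
        c * pn (S.w none) (fK (A ^ 2 - fp a * B ^ 2) Qb) := by
  obtain ⟨T, hT⟩ := (Set.finite_range a).bddBelow
  set x : ℕ → ℚ := fun j => T - 1 - j with hxe
  have hx : Function.Injective x := fun i j e => by
    have : (i : ℚ) = j := by simp only [hxe] at e; linarith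
    exact_mod_cast this
  have hf : ∀ j, (fp a).eval (x j) ≤ -1 := fun j => by
    have e : (fp a).eval (x j) = ∏ i, -(a i - x j) := by simp [fp, eval_prod]
    have h1 : 1 ≤ ∏ i, (a i - x j) :=
      prod_induction _ (fun y => 1 ≤ y) (fun _ _ => one_le_mul_of_one_le_of_one_le) le_rfl
        fun i _ => by
          have := hT ⟨i, rfl⟩
          have : (0 : ℚ) ≤ j := Nat.cast_nonneg j
          simp only [hxe]
          linarith
    rw [e, prod_neg, card_univ, hg, pow_succ, pow_mul]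
    simp only [even_two, Even.neg_pow, one_pow]
    linarith
  have hd : (fp a).natDegree ≤ 2 * g + 1 := by
    rw [fp, natDegree_prod_of_monic _ _ fun i _ => monic_X_sub_C _]
    simp [hg]
  set D := 2 * n + (2 * g + 1)
  set E : ℕ → ℝ := fun j => ∑ i ∈ range (D + 1), |(x j : ℝ)| ^ i
  set L : ℕ → ℝ := fun j => pn (S.w none) (fK (Lagrange.basis (range (n + 1)) x j) Qb)
  refine ⟨(∑ j ∈ range (n + 1), √(E j) * L j) ^ 2, fun A B hA hB => ?_⟩
  set R := pn (S.w none) (fK (A ^ 2 - fp a * B ^ 2) Qb)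
  have hR : 0 ≤ R := pn_nonneg _ _
  have hN : (A ^ 2 - fp a * B ^ 2).natDegree ≤ D := by
    refine (natDegree_sub_le _ _).trans (max_le (natDegree_pow_le.trans (by omega)) ?_)
    exact natDegree_mul_le.trans (by have := natDegree_pow_le (p := B) (n := 2); omega)
  have key : ∀ P : ℚ[X], P.natDegree ≤ n →
      (∀ j, P.eval (x j) ^ 2 ≤ (A ^ 2 - fp a * B ^ 2).eval (x j)) →
      pn (S.w none) (fK P Qb) ≤ (∑ j ∈ range (n + 1), √(E j) * L j) * √R := fun P hP h => by
    refine (lag S n x hx P hP (fun j => √(E j) * √R) fun j => ?_).trans (le_of_eq ?_)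
    · rw [mul_comm, ← Real.sqrt_mul hR, mul_comm]
      refine Real.abs_le_sqrt (le_trans ?_ ((le_abs_self _).trans (ev_le S _ (x j) hN)))
      exact_mod_cast h j
    · rw [sum_mul]
      exact sum_congr rfl fun j _ => by ring
  have kA := key A hA fun j => by
    simp only [eval_sub, eval_mul, eval_pow]
    nlinarith [hf j, sq_nonneg (B.eval (x j))]
  have kB := key B hB fun j => by
    simp only [eval_sub, eval_mul, eval_pow]
    nlinarith [hf j, sq_nonneg (B.eval (x j)), sq_nonneg (A.eval (x j))]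
  refine (pow_le_pow_left₀ ((pn_nonneg _ _).trans (le_max_left _ _)) (max_le kA kB) 2).trans ?_
  rw [mul_pow, Real.sq_sqrt hR]

end Norm

theorem norm : NORMStmt := by
  intro S ι _ g a f κ n hc hκ
  obtain ⟨c, h⟩ := Norm.ar S (fun i => (a i : ℚ)) hc.card n
  obtain ⟨M, hM⟩ := pow_unbounded_of_one_lt c (one_lt_two (α := ℝ))
  refine ⟨M, fun v A B hA hB => ?_⟩
  rw [hc.eq]
  rcases v with _ | p
  · exact (h A B hA hB).trans (mul_le_mul_of_nonneg_right
      (hM.le.trans (pow_le_pow_left₀ zero_le_two hκ.2.1 M)) (pn_nonneg _ _))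
  · have e : fK (A ^ 2 - fp (fun i => (a i : ℚ)) * B ^ 2) Qb =
        fK A Qb ^ 2 - fp (fun i => ((a i : ℚ) : Qb)) * fK B Qb ^ 2 := by
      simp [fK, fp, Polynomial.map_prod]
    rw [e]
    refine (Norm.na (S.na p) _ (fun i => ?_) hc.card _ _).trans
      (le_mul_of_one_le_left (pn_nonneg _ _) (one_le_pow₀ (hκ.1 _).tri.1))
    rw [S.val]
    have : Fact (p : ℕ).Prime := ⟨p.2⟩
    exact_mod_cast padicNorm.of_int (a i)

end Pool.Agent.MP_a43263_nt.JM

end MrgPart4

-- ======== part 5: formerly Pool.Agent.MP_a43263_nt.JM.Prin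
section MrgPart5

/-! Mordell-Weil for Jacobians: the function with a given divisor. -/

set_option autoImplicit false

namespace Pool.Agent.MP_a43263_nt.JM

open Polynomial Finset JC

namespace Prin

variable {K ι : Type} [Field K] [Fintype ι] {g : ℕ} {a : ι → K} {f : K[X]}

theorem split (mum : MUMStmt) [CharZero K] (h : Cv g a f) (V : K[X]) (s : Multiset K)
    (d : (s.map fun t => X - C t).prod ∣ f - V ^ 2) :
    MI f (s.map fun t => X - C t).prod V = (s.map fun t => mx f (t, V.eval t)).prod := by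
  obtain ⟨-, -, -, m4, -, m6, -, m8, -⟩ := mum K ι g a f h
  induction s using Multiset.induction_on with
  | empty => simp [m8]
  | cons t s ih =>
    rw [Multiset.map_cons, Multiset.prod_cons] at d
    rw [Multiset.map_cons, Multiset.prod_cons, Multiset.map_cons, Multiset.prod_cons, ← m4 _ _ _ d,
      ih (dvd_of_mul_left_dvd d), m6 _ _ _ X_sub_C_dvd_sub_C_eval]
    rfl

/-- evaluation at a point of the curve -/
noncomputable def evh {p : K × K} (h : Oc f p) : Rg f →+* K where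
  toFun := ev p
  map_one' := by simp [ev, QuadraticAlgebra.re_one, QuadraticAlgebra.im_one]
  map_mul' := ev_mul h
  map_zero' := by simp [ev]
  map_add' x y := by simp [ev]; ring

theorem eq_of_le {p q : K × K} (h : Oc f p) (k : mx f q ≤ RingHom.ker (evh h)) : p = q := by
  have a1 : ev p (⟨X - C q.1, 0⟩ : Rg f) = 0 := k (Ideal.subset_span (Or.inl rfl))
  have a2 : ev p (⟨-C q.2, 1⟩ : Rg f) = 0 := k (Ideal.subset_span (Or.inr rfl))
  simp only [ev, eval_sub, eval_X, eval_C, eval_zero, zero_mul, add_zero, eval_neg, eval_one,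
    one_mul] at a1 a2
  exact Prod.ext (sub_eq_zero.1 a1) (by linear_combination a2)

end Prin

theorem prin : PICStmt → MUMStmt → LCStmt → PRINStmt := by
  intro pic mum lcs ι _ g n a f h
  have h' := RatA.cv_map h (Rat.castHom Qb) rfl
  have dv : ∀ x, Mu f n x → fK x.1 Qb ∣ fK f Qb - fK x.2 Qb ^ 2 := fun x hx =>
    (RatA.dvd_map (Rat.castHom Qb) rfl).2 hx.2.1
  have mp : ∀ x, Mu f n x → (MI f x.1 x.2).map (rmap (Rat.castHom Qb) rfl) =
      ((pts x).map (mx (fK f Qb))).prod := fun x hx => by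
    have e : ((fK x.1 Qb).roots.map fun t => X - C t).prod = fK x.1 Qb :=
      (IsAlgClosed.splits _).eq_prod_roots_of_monic (hx.1.map _) |>.symm
    rw [RatA.map_MI, pts, Multiset.map_map]
    have := Prin.split mum h' (fK x.2 Qb) (fK x.1 Qb).roots (e.symm ▸ dv x hx)
    rw [e] at this
    exact this
  refine ⟨fun x hx => ⟨?_, fun p hp => ?_⟩, fun y₁ y₂ y₃ h1 h2 h3 e => ?_⟩
  · rw [pts, Multiset.card_map, IsAlgClosed.card_roots_eq_natDegree, natDegree_map]
  · obtain ⟨t, ht, rfl⟩ := Multiset.mem_map.1 hp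
    have := eval_eq_zero_of_dvd_of_eval_eq_zero (dv x hx) (isRoot_of_mem_roots ht)
    rw [eval_sub, eval_pow] at this
    exact (sub_eq_zero.1 this).symm
  obtain ⟨⟨f1, f2, -, dom⟩, -, -, -, -, -, -, -, -, m10, -, m12, m13, -, m15, m16⟩ :=
    mum ℚ ι g a f h
  obtain ⟨-, p2, p3, p4⟩ := pic.1 (Rg f)
  have n1 := m10 _ _ h1.1 h1.2.1
  have n2 := m10 _ _ h2.1 h2.2.1
  have n3 := m10 _ _ h3.1 h3.2.1
  have n12 := m13 _ _ _ _ n1 n2
  have n4 := m13 _ _ _ _ n12 n3
  obtain ⟨u, b, u0, b0, k⟩ := (p4 _ _ (m15 _ _ n4).2.1 (m15 _ _ m12).2.1).1 (by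
    rw [p3 _ _ (m15 _ _ n12).2.1 (m15 _ _ n3).2.1, p3 _ _ (m15 _ _ n1).2.1 (m15 _ _ n2).2.1, p2]
    exact e)
  rw [Ideal.mul_top] at k
  obtain ⟨z, -, rfl⟩ := Ideal.mem_span_singleton_mul.1 (k ▸ Ideal.mem_span_singleton_self b)
  rw [← Ideal.span_singleton_mul_span_singleton, Ideal.span_singleton_mul_right_inj u0] at k
  have z0 : z ≠ 0 := right_ne_zero_of_mul b0
  obtain ⟨m, w, hw⟩ := (m16 z _ z0).1 (k ▸ n4)
  obtain ⟨c, hc, hc'⟩ := Polynomial.isUnit_iff.1 w.isUnit
  have dg : (QuadraticAlgebra.norm z).natDegree ≤ 3 * n := by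
    rw [← hw, ← hc', natDegree_mul_C hc.ne_zero, (h1.1.mul h2.1).natDegree_mul h3.1,
      h1.1.natDegree_mul h2.1]
    have := h1.2.2
    have := h2.2.2
    have := h3.2.2
    omega
  rw [(lcs ℚ f f1 (f2 ▸ odd_two_mul_add_one g)).2.2.2.2.1 z z0] at dg
  have sp : Ideal.span {(⟨fK z.re Qb, fK z.im Qb⟩ : Rg (fK f Qb))} =
      ((pts y₁ + pts y₂ + pts y₃).map (mx (fK f Qb))).prod := by
    rw [Multiset.map_add, Multiset.map_add, Multiset.prod_add, Multiset.prod_add, ← mp _ h1,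
      ← mp _ h2, ← mp _ h3, ← Ideal.map_mul, ← Ideal.map_mul, k, Ideal.map_span,
      Set.image_singleton]
    rfl
  refine ⟨z.re, z.im, c, hc.ne_zero, ?_, ?_, ?_, sp ▸ Ideal.mem_span_singleton_self _,
    fun p hp np e0 => ?_⟩
  · rw [hc', mul_comm (w : ℚ[X]), hw, QuadraticAlgebra.norm_def]
    ring
  · split_ifs at dg <;> omega
  · split_ifs at dg with t
    · rw [degree_eq_bot.1 t, natDegree_zero]
      omega
    · omega
  · have pr := RingHom.ker_isPrime (Prin.evh hp)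
    have le : ((pts y₁ + pts y₂ + pts y₃).map (mx (fK f Qb))).prod ≤ RingHom.ker (Prin.evh hp) :=
      sp ▸ (Ideal.span_singleton_le_iff_mem _).2 e0
    obtain ⟨q, q1, q2⟩ := (pr.multiset_prod_map_le _).1 le
    exact np (Prin.eq_of_le hp q2 ▸ q1)

end Pool.Agent.MP_a43263_nt.JM

end MrgPart5

-- ======== part 6: formerly Pool.Agent.MP_a43263_nt.JM.Sch
section MrgPart6

/-! Mordell-Weil for Jacobians: the Schwarz lemma. -/

set_option autoImplicit false

namespace Pool.Agent.MP_a43263_nt.JM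

open Polynomial Finset JC

namespace Sch

section
variable {K : Type} [Field K] {w : AbsoluteValue K ℝ} {κ : ℝ} {f : K[X]}

/-- the degrees of the two parts of a function -/
theorem deg (lcs : LCStmt) (hm : f.Monic) (ho : Odd f.natDegree) (h : Rg f) :
    2 * h.re.natDegree ≤ po h ∧ (h.im ≠ 0 → f.natDegree + 2 * h.im.natDegree ≤ po h) := by
  by_cases h0 : h = 0
  · subst h0
    simp
  have e := (lcs K f hm ho).2.2.2.2.1 h h0
  rw [po, e]
  split_ifs with c
  · exact ⟨le_rfl, fun k => absurd (degree_eq_bot.1 c) k⟩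
  · exact ⟨le_max_left _ _, fun _ => le_max_right _ _⟩

theorem deg_le (lcs : LCStmt) (hm : f.Monic) (ho : Odd f.natDegree) (h : Rg f) :
    h.re.natDegree ≤ po h ∧ h.im.natDegree ≤ po h := by
  obtain ⟨a, b⟩ := deg lcs hm ho h
  refine ⟨by omega, ?_⟩
  by_cases c : h.im = 0
  · simp [c]
  · have := b c
    omega

theorem po_step {h ψ h' : Rg f} {c : K} (e : h * ψ = ⟨X - C c, 0⟩ * h') :
    po h' = 0 ∨ po h' + 2 ≤ po h + po ψ := by
  by_cases h0 : QuadraticAlgebra.norm h' = 0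
  · exact Or.inl (by simp [po, h0])
  right
  have e1 : QuadraticAlgebra.norm h * QuadraticAlgebra.norm ψ =
      (X - C c) ^ 2 * QuadraticAlgebra.norm h' := by
    rw [← map_mul, e, map_mul, QuadraticAlgebra.norm_def]
    simp [sq]
  have e2 := congrArg natDegree e1
  rw [natDegree_mul (pow_ne_zero _ (X_sub_C_ne_zero c)) h0, natDegree_pow, natDegree_X_sub_C] at e2
  have e3 := natDegree_mul_le (p := QuadraticAlgebra.norm h) (q := QuadraticAlgebra.norm ψ)
  simp only [po]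
  omega

theorem pn_re (h : Rg f) : pn w h.re ≤ hn w h := le_max_left _ _

theorem pn_im (h : Rg f) : pn w h.im ≤ hn w h := le_max_right _ _

/-- the height of a product -/
theorem hn_mul {n M : ℕ} (k1 : 1 ≤ κ)
    (ad : ∀ P Q : K[X], pn w (P + Q) ≤ κ * max (pn w P) (pn w Q))
    (mu : ∀ P Q : K[X], P.natDegree ≤ n → pn w (P * Q) ≤ κ ^ M * (pn w P * pn w Q))
    (hf : f.natDegree ≤ n) (pf : pn w f ≤ κ ^ M) (h ψ : Rg f) (h1 : ψ.re.natDegree ≤ n)
    (h2 : ψ.im.natDegree ≤ n) : hn w (h * ψ) ≤ κ ^ (3 * M + 1) * (hn w h * hn w ψ) := by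
  have k0 : 0 ≤ κ := zero_le_one.trans k1
  have kM : 1 ≤ κ ^ M := one_le_pow₀ k1
  have n1 := hn_nonneg w h
  have n2 := hn_nonneg w ψ
  have A : ∀ P Q : K[X], P.natDegree ≤ n → pn w P ≤ hn w ψ → pn w Q ≤ hn w h →
      pn w (P * Q) ≤ κ ^ M * (hn w h * hn w ψ) := fun P Q a b c =>
    (mu P Q a).trans (mul_le_mul_of_nonneg_left
      ((mul_le_mul b c (pn_nonneg w _) n2).trans_eq (mul_comm _ _)) (by positivity))
  have B : κ ^ M * (hn w h * hn w ψ) ≤ κ ^ (3 * M) * (hn w h * hn w ψ) :=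
    mul_le_mul_of_nonneg_right (pow_le_pow_right₀ k1 (by omega)) (by positivity)
  have e1 : (h * ψ).re = ψ.re * h.re + f * (ψ.im * h.im) := by
    rw [QuadraticAlgebra.re_mul]
    ring
  have e2 : (h * ψ).im = ψ.im * h.re + ψ.re * h.im := by
    rw [QuadraticAlgebra.im_mul]
    ring
  rw [pow_succ', mul_assoc]
  refine max_le ?_ ?_
  · rw [e1]
    refine (ad _ _).trans (mul_le_mul_of_nonneg_left
      (max_le ((A _ _ h1 (pn_re _) (pn_re _)).trans B) ((mu _ _ hf).trans ?_)) k0)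
    calc κ ^ M * (pn w f * pn w (ψ.im * h.im))
        ≤ κ ^ M * (κ ^ M * (κ ^ M * (hn w h * hn w ψ))) :=
          mul_le_mul_of_nonneg_left (mul_le_mul pf (A _ _ h2 (pn_im _) (pn_im _))
            (pn_nonneg w _) (by positivity)) (by positivity)
      _ = κ ^ (3 * M) * (hn w h * hn w ψ) := by ring
  · rw [e2]
    exact (ad _ _).trans (mul_le_mul_of_nonneg_left (max_le
      ((A _ _ h2 (pn_im _) (pn_re _)).trans B) ((A _ _ h1 (pn_re _) (pn_im _)).trans B)) k0)

/-- division by a linear polynomial -/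
theorem hn_div {n M : ℕ} (k1 : 1 ≤ κ)
    (dv : ∀ (c : K) (P : K[X]), P.natDegree ≤ n → nx w c * pn w P ≤ κ ^ M * pn w ((X - C c) * P))
    (c : K) (h : Rg f) (h1 : h.re.natDegree ≤ n) (h2 : h.im.natDegree ≤ n) :
    nx w c * hn w h ≤ κ ^ M * hn w (⟨X - C c, 0⟩ * h : Rg f) := by
  have kM : 0 ≤ κ ^ M := zero_le_one.trans (one_le_pow₀ k1)
  have e1 : (⟨X - C c, 0⟩ * h : Rg f).re = (X - C c) * h.re := by
    rw [QuadraticAlgebra.re_mul]
    simp
  have e2 : (⟨X - C c, 0⟩ * h : Rg f).im = (X - C c) * h.im := by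
    rw [QuadraticAlgebra.im_mul]
    simp
  rw [hn, mul_max_of_nonneg _ _ (nx_pos w c).le]
  refine max_le ((dv c _ h1).trans (mul_le_mul_of_nonneg_left ?_ kM))
    ((dv c _ h2).trans (mul_le_mul_of_nonneg_left ?_ kM))
  · rw [← e1]
    exact pn_re _
  · rw [← e2]
    exact pn_im _

/-- the value of a function with a bounded pole -/
theorem base {n M e : ℕ} (tri : Tri w κ)
    (va : ∀ (P : K[X]) (x : K), P.natDegree ≤ n →
      w (P.eval x) ≤ κ ^ M * (pn w P * nx w x ^ P.natDegree))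
    (hf : f.natDegree ≤ n) (pf : pn w f ≤ κ ^ M) (h : Rg f) (he : e ≤ n)
    (h1 : 2 * h.re.natDegree ≤ e) (h2 : h.im ≠ 0 → f.natDegree + 2 * h.im.natDegree ≤ e)
    {p : K × K} (hp : Oc f p) :
    w (ev p h) ^ 2 ≤ κ ^ (4 * M + 2) * (hn w h ^ 2 * nx w p.1 ^ e) := by
  have k1 := tri.1
  have k0 : 0 ≤ κ := zero_le_one.trans k1
  have n1 := hn_nonneg w h
  have x1 := one_le_nx w p.1
  have x0 := nx_pos w p.1
  have A : ∀ P : K[X], P.natDegree ≤ n → pn w P ≤ hn w h →
      w (P.eval p.1) ^ 2 ≤ κ ^ (2 * M) * (hn w h ^ 2 * nx w p.1 ^ (2 * P.natDegree)) := by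
    intro P a b
    have c : w (P.eval p.1) ≤ κ ^ M * (hn w h * nx w p.1 ^ P.natDegree) :=
      (va P _ a).trans (mul_le_mul_of_nonneg_left
        (mul_le_mul_of_nonneg_right b (by positivity)) (by positivity))
    exact (pow_le_pow_left₀ (w.nonneg _) c 2).trans_eq (by ring)
  have a1 : w (h.re.eval p.1) ^ 2 ≤ κ ^ (4 * M) * (hn w h ^ 2 * nx w p.1 ^ e) :=
    (A _ (by omega) (pn_re _)).trans (mul_le_mul (pow_le_pow_right₀ k1 (by omega))
      (mul_le_mul_of_nonneg_left (pow_le_pow_right₀ x1 h1) (by positivity)) (by positivity)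
      (by positivity))
  have a2 : w (h.im.eval p.1 * p.2) ^ 2 ≤ κ ^ (4 * M) * (hn w h ^ 2 * nx w p.1 ^ e) := by
    by_cases c : h.im = 0
    · rw [c, eval_zero, zero_mul, map_zero, sq, zero_mul]
      positivity
    have d := h2 c
    have b1 : w p.2 ^ 2 ≤ κ ^ M * (κ ^ M * nx w p.1 ^ f.natDegree) := by
      rw [← map_pow, show p.2 ^ 2 = f.eval p.1 from hp]
      exact (va f _ hf).trans (mul_le_mul_of_nonneg_left
        (mul_le_mul_of_nonneg_right pf (by positivity)) (by positivity))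
    rw [map_mul, mul_pow]
    calc w (h.im.eval p.1) ^ 2 * w p.2 ^ 2
        ≤ (κ ^ (2 * M) * (hn w h ^ 2 * nx w p.1 ^ (2 * h.im.natDegree))) *
            (κ ^ M * (κ ^ M * nx w p.1 ^ f.natDegree)) :=
          mul_le_mul (A _ (by omega) (pn_im _)) b1 (by positivity) (by positivity)
      _ = κ ^ (4 * M) * (hn w h ^ 2 * nx w p.1 ^ (f.natDegree + 2 * h.im.natDegree)) := by ring
      _ ≤ _ := mul_le_mul_of_nonneg_left (mul_le_mul_of_nonneg_left (pow_le_pow_right₀ x1 d)
          (by positivity)) (by positivity)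
  have a3 : max (w (h.re.eval p.1)) (w (h.im.eval p.1 * p.2)) ^ 2 ≤
      κ ^ (4 * M) * (hn w h ^ 2 * nx w p.1 ^ e) := by
    rcases max_choice (w (h.re.eval p.1)) (w (h.im.eval p.1 * p.2)) with c | c <;> rw [c]
    exacts [a1, a2]
  calc w (ev p h) ^ 2 ≤ (κ * max (w (h.re.eval p.1)) (w (h.im.eval p.1 * p.2))) ^ 2 :=
        pow_le_pow_left₀ (w.nonneg _) (tri.2 _ _) 2
    _ ≤ κ ^ 2 * (κ ^ (4 * M) * (hn w h ^ 2 * nx w p.1 ^ e)) := by
        rw [mul_pow]
        exact mul_le_mul_of_nonneg_left a3 (by positivity)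
    _ = _ := by ring

end

/-- the real inequality of the step -/
theorem step {κ A A' H H' x y D P Q : ℝ} {g e M1 M2 M3 : ℕ} (k1 : 1 ≤ κ) (hx : 0 < x) (hy : 0 < y)
    (hA : 0 ≤ A) (hH' : 0 ≤ H') (hP : 0 ≤ P) (hQ : 0 ≤ Q)
    (h1 : A * (x * y) ^ (2 * g + 1) ≤ κ ^ M1 * (D * A'))
    (h2 : y * H' ≤ κ ^ M2 * (H * y ^ (g + 1)))
    (h3 : A' ^ 2 * P ≤ κ ^ M3 * (H' ^ 2 * x ^ (e + (2 * g + 1)) * Q)) :
    A ^ 2 * (y * P) ≤
      κ ^ (2 * M1 + 2 * M2 + M3) * (H ^ 2 * x ^ e * (D ^ 2 / (x * y) ^ (2 * g + 1) * Q)) := by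
  have k0 : 0 < κ := one_pos.trans_le k1
  have a1 : H' ≤ κ ^ M2 * (H * y ^ g) :=
    le_of_mul_le_mul_left (h2.trans_eq (by ring)) hy
  have a2 : H' ^ 2 ≤ (κ ^ M2 * (H * y ^ g)) ^ 2 := pow_le_pow_left₀ hH' a1 2
  have a3 : (A * (x * y) ^ (2 * g + 1)) ^ 2 ≤ (κ ^ M1 * (D * A')) ^ 2 :=
    pow_le_pow_left₀ (by positivity) h1 2
  have a4 : A' ^ 2 * P ≤ κ ^ M3 * ((κ ^ M2 * (H * y ^ g)) ^ 2 * x ^ (e + (2 * g + 1)) * Q) :=
    h3.trans (mul_le_mul_of_nonneg_left (mul_le_mul_of_nonneg_right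
      (mul_le_mul_of_nonneg_right a2 (by positivity)) hQ) (by positivity))
  have z : 0 < (x * y) ^ (2 * g + 1) := by positivity
  refine le_of_mul_le_mul_left ?_ (a := ((x * y) ^ (2 * g + 1)) ^ 2) (by positivity)
  calc ((x * y) ^ (2 * g + 1)) ^ 2 * (A ^ 2 * (y * P))
      = (A * (x * y) ^ (2 * g + 1)) ^ 2 * (y * P) := by ring
    _ ≤ (κ ^ M1 * (D * A')) ^ 2 * (y * P) := mul_le_mul_of_nonneg_right a3 (by positivity)
    _ = (κ ^ M1 * D) ^ 2 * y * (A' ^ 2 * P) := by ring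
    _ ≤ (κ ^ M1 * D) ^ 2 * y *
        (κ ^ M3 * ((κ ^ M2 * (H * y ^ g)) ^ 2 * x ^ (e + (2 * g + 1)) * Q)) :=
        mul_le_mul_of_nonneg_left a4 (by positivity)
    _ = (x * y) ^ (2 * g + 1) * (κ ^ (2 * M1 + 2 * M2 + M3) * (H ^ 2 * x ^ e * (D ^ 2 * Q))) := by
        ring
    _ = _ := by
        generalize (x * y) ^ (2 * g + 1) = t at z
        field_simp

/-- the constants of the Gauss norm, with a bound for the curve -/
theorem gau' (gau : GAUStmt) (g n : ℕ) : ∃ M : ℕ, ∀ (K ι : Type) [Field K] [Fintype ι]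
    (w : AbsoluteValue K ℝ) (κ : ℝ) (a : ι → K) (f : K[X]), Cv g a f → Ok w κ a →
    pn w f ≤ κ ^ M ∧ (∀ P Q : K[X], pn w (P + Q) ≤ κ * max (pn w P) (pn w Q)) ∧
    (∀ P Q : K[X], P.natDegree ≤ n → pn w (P * Q) ≤ κ ^ M * (pn w P * pn w Q)) ∧
    (∀ (c : K) (P : K[X]), P.natDegree ≤ n → nx w c * pn w P ≤ κ ^ M * pn w ((X - C c) * P)) ∧
    ∀ (P : K[X]) (x : K), P.natDegree ≤ n →
      w (P.eval x) ≤ κ ^ M * (pn w P * nx w x ^ P.natDegree) := by
  obtain ⟨M, hM⟩ := gau (n + (2 * g + 1))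
  refine ⟨M + (2 * g + 1), fun K ι _ _ w κ a f cv ok => ?_⟩
  obtain ⟨g1, g2, g3, g4, g5⟩ := hM K w κ ok.tri
  have k1 := ok.tri.1
  have k0 : 0 ≤ κ := zero_le_one.trans k1
  have kk : κ ^ M ≤ κ ^ (M + (2 * g + 1)) := pow_le_pow_right₀ k1 (by omega)
  refine ⟨?_, g1, fun P Q h => (g2 P Q (by omega)).trans (mul_le_mul_of_nonneg_right kk
    (mul_nonneg (pn_nonneg w _) (pn_nonneg w _))), fun c P h => (g3 c P (by omega)).trans
    (mul_le_mul_of_nonneg_right kk (pn_nonneg w _)), fun P x h => (g4 P x (by omega)).trans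
    (mul_le_mul_of_nonneg_right kk (mul_nonneg (pn_nonneg w _) (pow_pos (nx_pos w _) _).le))⟩
  have c : (univ.val.map a).card = 2 * g + 1 := by
    rw [Multiset.card_map, ← cv.card]
    rfl
  have h := g5 (univ.val.map a) (by omega)
  rw [Multiset.map_map, Multiset.map_map] at h
  rw [cv.eq, pow_add]
  refine le_trans h (mul_le_mul_of_nonneg_left ?_ (by positivity))
  change ∏ i, nx w (a i) ≤ _
  rw [← cv.card, ← card_univ, ← prod_const]
  exact prod_le_prod (fun i _ => (nx_pos w _).le) fun i _ => max_le k1 (ok.le i)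

/-- the Schwarz lemma with an excess `e` of poles -/
theorem main (mum : MUMStmt) (lcs : LCStmt) (gau : GAUStmt) (pair : PAIRStmt) (g n : ℕ) :
    ∀ E : ℕ, ∃ M : ℕ, ∀ (K ι : Type) [Field K] [CharZero K] [Fintype ι]
    (w : AbsoluteValue K ℝ) (κ : ℝ) (a : ι → K) (f : K[X]), Cv g a f → Ok w κ a →
    ∀ (s : Multiset (K × K)) (h : Rg f) (p : K × K) (e : ℕ), s.card ≤ n → e ≤ E →
      po h ≤ s.card + e → (∀ q ∈ s, Oc f q) → h ∈ (s.map (mx f)).prod → Oc f p →
      w (ev p h) ^ 2 * (s.map fun q => nx w q.1).prod ≤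
        κ ^ M * (hn w h ^ 2 * nx w p.1 ^ e * (s.map (de g w p)).prod) := by
  induction n with
  | zero =>
    intro E
    obtain ⟨M, hM⟩ := gau' gau g (E + (2 * g + 1))
    refine ⟨4 * M + 2, fun K ι _ _ _ w κ a f cv ok s h p e hs he hh _ _ hp => ?_⟩
    obtain rfl : s = 0 := Multiset.card_eq_zero.1 (by omega)
    obtain ⟨⟨m1, m2, -⟩, -⟩ := mum K ι g a f cv
    obtain ⟨pf, -, -, -, va⟩ := hM K ι w κ a f cv ok
    obtain ⟨d1, d2⟩ := deg lcs m1 (by rw [m2]; exact odd_two_mul_add_one g) h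
    simp only [Multiset.card_zero, zero_add] at hh
    simpa using base ok.tri va (by omega) pf h (by omega) (d1.trans hh)
      (fun c => (d2 c).trans hh) hp
  | succ n ih =>
    intro E
    obtain ⟨M3, h3⟩ := ih (E + (2 * g + 1))
    obtain ⟨M1, h1⟩ := pair g
    obtain ⟨M, hM⟩ := gau' gau g (n + E + (2 * g + 2))
    refine ⟨2 * M1 + 2 * (M + (3 * M + 1) + M1) + M3,
      fun K ι _ _ _ w κ a f cv ok s h p e hs he hh hq hi hp => ?_⟩
    have k1 := ok.tri.1
    have k0 : 0 ≤ κ := zero_le_one.trans k1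
    have pP : ∀ t : Multiset (K × K), 0 ≤ (t.map fun q => nx w q.1).prod := fun t =>
      Multiset.prod_nonneg fun x hx => by
        obtain ⟨q, -, rfl⟩ := Multiset.mem_map.1 hx
        exact (nx_pos w _).le
    have pQ : ∀ t : Multiset (K × K), 0 ≤ (t.map (de g w p)).prod := fun t =>
      Multiset.prod_nonneg fun x hx => by
        obtain ⟨q, -, rfl⟩ := Multiset.mem_map.1 hx
        exact de_nonneg w g _ _
    rcases s.empty_or_exists_mem with rfl | ⟨q, hqs⟩
    · refine (h3 K ι w κ a f cv ok 0 h p e (by simp) (by omega) hh hq hi hp).trans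
        (mul_le_mul_of_nonneg_right (pow_le_pow_right₀ k1 (by omega)) ?_)
      exact mul_nonneg (mul_nonneg (sq_nonneg _) (pow_pos (nx_pos w _) _).le) (pQ _)
    obtain ⟨t, rfl⟩ := Multiset.exists_cons_of_mem hqs
    obtain ⟨⟨m1, m2, -⟩, -, m3, -⟩ := mum K ι g a f cv
    obtain ⟨pf, ad, mu, dv, -⟩ := hM K ι w κ a f cv ok
    have ho : Odd f.natDegree := by
      rw [m2]
      exact odd_two_mul_add_one g
    have oq : Oc f q := hq q hqs
    obtain ⟨ψ, p1, p2, p3, p4⟩ := h1 K ι w κ a f cv ok p q hp oq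
    rw [Multiset.card_cons] at hs hh
    rw [Multiset.map_cons, Multiset.prod_cons] at hi
    have e1 : mx f q * mx f (ng q) = PI f (X - C q.1) := by
      rw [← m3 (X - C q.1) (C q.2) (dvd_iff_isRoot.2 (by
        simp [IsRoot, ← show q.2 ^ 2 = f.eval q.1 from oq]))]
      simp [mx, ng]
    have e2 : h * ψ ∈ PI f (X - C q.1) * (t.map (mx f)).prod := by
      rw [← e1, mul_right_comm]
      exact Ideal.mul_mem_mul hi p1
    obtain ⟨h', i', e3⟩ := Ideal.mem_span_singleton_mul.1 e2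
    have o' : po h' ≤ t.card + (e + (2 * g + 1)) := by
      rcases po_step e3.symm with c | c <;> omega
    obtain ⟨d1, d2⟩ := deg_le lcs m1 ho h'
    obtain ⟨d3, d4⟩ := deg_le lcs m1 ho ψ
    have b1 := hn_div k1 dv q.1 h' (by omega) (by omega)
    rw [e3] at b1
    have b2 := hn_mul k1 ad mu (by omega) pf h ψ (by omega) (by omega)
    have b3 : nx w q.1 * hn w h' ≤
        κ ^ (M + (3 * M + 1) + M1) * (hn w h * nx w q.1 ^ (g + 1)) := by
      refine b1.trans ((mul_le_mul_of_nonneg_left (b2.trans (mul_le_mul_of_nonneg_left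
        (mul_le_mul_of_nonneg_left p3 (hn_nonneg w h)) (by positivity))) (by positivity)).trans_eq
        (by ring))
    have b4 := h3 K ι w κ a f cv ok t h' p (e + (2 * g + 1)) (by omega) (by omega) o'
      (fun r hr => hq r (Multiset.mem_cons_of_mem hr)) i' hp
    rw [Multiset.map_cons, Multiset.prod_cons, Multiset.map_cons, Multiset.prod_cons]
    exact step k1 (nx_pos w _) (nx_pos w _) (w.nonneg _) (hn_nonneg w _) (pP _) (pQ _)
      (p4 h h' e3.symm) b3 b4

end Sch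

theorem sch : MUMStmt → LCStmt → GAUStmt → PAIRStmt → SCHStmt := by
  intro mum lcs gau pair g n
  obtain ⟨M, hM⟩ := Sch.main mum lcs gau pair g n 0
  refine ⟨M, fun K ι _ _ _ w κ a f cv ok s h p hs hh hq hi hp => ?_⟩
  simpa using hM K ι w κ a f cv ok s h p 0 hs le_rfl hh hq hi hp

end Pool.Agent.MP_a43263_nt.JM

end MrgPart6

-- ======== part 7: formerly Pool.Agent.MP_a43263_nt.JM.Sep
section MrgPart7

/-! Mordell-Weil for Jacobians: a product of linear forms with separated zeros. -/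

set_option autoImplicit false

namespace Pool.Agent.MP_a43263_nt.JM

open Polynomial Finset JC

namespace Sep

variable {K : Type} [Field K] {w : AbsoluteValue K ℝ} {κ : ℝ}

theorem lin_le (h : Tri w κ) {a b : K} {c : ℝ} (ha : w a ≤ c) (hb : w b ≤ c) (x : K) :
    w (a * x + b) ≤ κ * c * nx w x := by
  have hc : 0 ≤ c := (w.nonneg a).trans ha
  rw [mul_assoc]
  refine (h.2 _ _).trans (mul_le_mul_of_nonneg_left (max_le ?_ ?_) (zero_le_one.trans h.1))
  · rw [map_mul]
    exact mul_le_mul ha (le_nx w x) (w.nonneg _) hc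
  · exact hb.trans (le_mul_of_one_le_right hc (one_le_nx w x))

theorem det_le (h : Tri w κ) {a b c d : K} {s t : ℝ} (ha : w a ≤ s) (hb : w b ≤ t) (hc : w c ≤ s)
    (hd : w d ≤ t) : w (a * b - c * d) ≤ κ * (s * t) := by
  have hs : 0 ≤ s := (w.nonneg a).trans ha
  refine (h.sub _ _).trans (mul_le_mul_of_nonneg_left (max_le ?_ ?_) (zero_le_one.trans h.1))
  · rw [map_mul]
    exact mul_le_mul ha hb (w.nonneg _) hs
  · rw [map_mul]
    exact mul_le_mul hc hd (w.nonneg _) hs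

/-- of two separated linear forms the larger value is large -/
theorem low (h : Tri w κ) {a b c d x : K} (ha : w a ≤ κ) (hb : w b ≤ κ) (hc : w c ≤ κ)
    (hd : w d ≤ κ) (hs : 1 ≤ κ * w (a * d - c * b)) (hm : w (a * x + b) ≤ w (c * x + d)) :
    nx w x ≤ κ ^ 3 * w (c * x + d) := by
  have k0 : 0 ≤ κ := zero_le_one.trans h.1
  have e1 : a * d - c * b = a * (c * x + d) - c * (a * x + b) := by ring
  have e2 : (a * d - c * b) * x = d * (a * x + b) - b * (c * x + d) := by ring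
  have b1 : w (a * d - c * b) ≤ κ * (κ * w (c * x + d)) := by
    rw [e1]
    exact det_le h ha le_rfl hc hm
  have b2 : w (a * d - c * b) * w x ≤ κ * (κ * w (c * x + d)) := by
    rw [← map_mul, e2]
    exact det_le h hd hm hb le_rfl
  have e3 : κ ^ 3 * w (c * x + d) = κ * (κ * (κ * w (c * x + d))) := by ring
  rw [e3]
  refine max_le (hs.trans (mul_le_mul_of_nonneg_left b1 k0)) ?_
  refine (le_mul_of_one_le_left (w.nonneg x) hs).trans ?_
  rw [mul_assoc]
  exact mul_le_mul_of_nonneg_left b2 k0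

theorem step (P G : K[X]) (a b μ ν y p : K) (m : ℕ)
    (e : P * C ((μ * y + ν) ^ m) - C p * (C μ * X + C ν) ^ m = (X - C y) * G) :
    (C a * X + C b) * P * C ((μ * y + ν) ^ (m + 1)) -
      C ((a * y + b) * p) * (C μ * X + C ν) ^ (m + 1) =
      (X - C y) * (C (a * ν - b * μ) * P * C ((μ * y + ν) ^ m) +
        C (a * y + b) * (C μ * X + C ν) * G) := by
  have e' : (X - C y) * (C (a * ν - b * μ) * P * C ((μ * y + ν) ^ m) +
      C (a * y + b) * (C μ * X + C ν) * G) =
      (X - C y) * (C (a * ν - b * μ) * P * C ((μ * y + ν) ^ m)) +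
        C (a * y + b) * (C μ * X + C ν) * ((X - C y) * G) := by ring
  rw [e', ← e]
  simp only [map_mul, map_add, map_sub, map_pow]
  ring

theorem pw (h : Tri w κ) {a b : ℕ} (hab : a ≤ b) {t : ℝ} (ht : 0 ≤ t) : κ ^ a * t ≤ κ ^ b * t :=
  mul_le_mul_of_nonneg_right (pow_le_pow_right₀ h.1 hab) ht

theorem prod_le (h : Tri w κ) {ι : Type} {α β : ι → K} (hb : ∀ i, w (α i) ≤ κ ∧ w (β i) ≤ κ)
    (x : K) (s : Finset ι) : w (∏ k ∈ s, (α k * x + β k)) ≤ (κ * κ * nx w x) ^ s.card := by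
  rw [map_prod, ← prod_const]
  exact prod_le_prod (fun k _ => w.nonneg _) fun k _ => lin_le h (hb k).1 (hb k).2 x

/-- the divided difference of a product of linear forms -/
theorem quo (h : Tri w κ) {ι : Type} {α β : ι → K} (hb : ∀ i, w (α i) ≤ κ ∧ w (β i) ≤ κ)
    {μ ν : K} (hμ : w μ ≤ 1) (hν : w ν ≤ 1) (x y : K) (s : Finset ι) :
    ∃ G : K[X], (∏ k ∈ s, (C (α k) * X + C (β k))) * C ((μ * y + ν) ^ s.card) -
      C (∏ k ∈ s, (α k * y + β k)) * (C μ * X + C ν) ^ s.card = (X - C y) * G ∧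
      w (G.eval x) * (nx w x * nx w y) ≤ κ ^ (4 * s.card) * (nx w x * nx w y) ^ s.card := by
  classical
  have k0 : 0 ≤ κ := zero_le_one.trans h.1
  have n0 := (nx_pos w x).le
  have n1 := (nx_pos w y).le
  induction s using Finset.induction_on with
  | empty => exact ⟨0, by simp, by simp⟩
  | insert i s hi ih =>
    obtain ⟨G, e, hG⟩ := ih
    rw [prod_insert hi, prod_insert hi, card_insert_of_notMem hi]
    refine ⟨_, step _ G (α i) (β i) μ ν y _ _ e, ?_⟩
    have d : w (α i * ν - β i * μ) ≤ κ * (κ * 1) := det_le h (hb i).1 hν (hb i).2 hμ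
    have p := prod_le h hb x s
    have l := lin_le h hμ hν x
    have l' := lin_le h hμ hν y
    have q := lin_le h (hb i).1 (hb i).2 y
    simp only [eval_add, eval_mul, eval_C, eval_X, eval_prod]
    refine (mul_le_mul_of_nonneg_right (h.2 _ _) (mul_nonneg n0 n1)).trans ?_
    have e1 : κ ^ (4 * (s.card + 1)) * (nx w x * nx w y) ^ (s.card + 1) =
        κ * (κ ^ (4 * s.card + 3) * (nx w x * nx w y) ^ (s.card + 1)) := by ring
    rw [e1, mul_assoc κ, max_mul_of_nonneg _ _ (mul_nonneg n0 n1)]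
    refine mul_le_mul_of_nonneg_left (max_le ?_ ?_) k0
    · refine le_trans ?_ (pw h (a := 3 * s.card + 2) (by omega) (by positivity))
      rw [map_mul, map_mul, map_pow]
      calc _ ≤ κ * (κ * 1) * (κ * κ * nx w x) ^ s.card * (κ * 1 * nx w y) ^ s.card *
            (nx w x * nx w y) := by gcongr
        _ = _ := by ring
    · rw [map_mul, map_mul, mul_assoc]
      calc _ ≤ κ * κ * nx w y * (κ * 1 * nx w x) *
            (κ ^ (4 * s.card) * (nx w x * nx w y) ^ s.card) := by gcongr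
        _ = _ := by ring

/-- the numerical end of the proof -/
theorem fin (h : Tri w κ) {m : ℕ} {n n' : ℝ} {d P l l' u u' G Γ δ : K} (n0 : 0 < n) (n1 : 0 < n')
    (e : Γ = d * P * u' ^ m + l' * u * G) (e' : l' * u = l * u' - d * δ)
    (hP : n ^ m ≤ κ ^ (3 * m) * w P) (hd : w d ≤ κ * (κ * 1)) (hu : n' ≤ κ * w u')
    (hu' : w u' ≤ κ * 1 * n') (hG : w G * (n * n') ≤ κ ^ (4 * m) * (n * n') ^ m)
    (hn : n ≤ κ ^ 5 * max (w d * n) (w l)) :
    (n * n') ^ (m + 1) ≤ κ ^ (11 * (m + 1) + 9) * max (w (l * P) * n' ^ (m + 1))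
      (max (w Γ * (n * n')) (w δ * (n * n') ^ m)) := by
  have k0 : 0 ≤ κ := zero_le_one.trans h.1
  set T := max (w (l * P) * n' ^ (m + 1)) (max (w Γ * (n * n')) (w δ * (n * n') ^ m)) with hT
  have t1 : w l * w P * n' ^ (m + 1) ≤ T := by
    rw [← map_mul]
    exact le_max_left _ _
  have t2 : w Γ * (n * n') ≤ T := (le_max_left _ _).trans (le_max_right _ _)
  have t3 : w δ * (n * n') ^ m ≤ T := (le_max_right _ _).trans (le_max_right _ _)
  have T0 : 0 ≤ T := le_trans (by positivity) t3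
  clear_value T
  have t4 : w l * n ^ m * n' ^ (m + 1) ≤ κ ^ (3 * m) * T :=
    calc _ ≤ w l * (κ ^ (3 * m) * w P) * n' ^ (m + 1) := by gcongr
      _ = κ ^ (3 * m) * (w l * w P * n' ^ (m + 1)) := by ring
      _ ≤ _ := by gcongr
  rcases le_total (w d * n) (w l) with c | c
  · rw [max_eq_right c] at hn
    refine le_trans ?_ (pw h (a := 3 * m + 5) (by omega) T0)
    calc _ = n * n ^ m * n' ^ (m + 1) := by ring
      _ ≤ κ ^ 5 * w l * n ^ m * n' ^ (m + 1) := by gcongr
      _ = κ ^ 5 * (w l * n ^ m * n' ^ (m + 1)) := by ring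
      _ ≤ κ ^ 5 * (κ ^ (3 * m) * T) := by gcongr
      _ = _ := by ring
  · rw [max_eq_left c, ← mul_assoc] at hn
    have h1 : 1 ≤ κ ^ 5 * w d := le_of_mul_le_mul_right (by rwa [one_mul]) n0
    have e2 : d * P * u' ^ m = Γ - (l * u' * G - d * δ * G) := by
      rw [e, e']
      ring
    have a1 : w (l * u' * G) * (n * n') ≤ κ ^ (7 * m + 2) * T := by
      refine le_trans ?_ (pw h (a := 7 * m + 1) (by omega) T0)
      rw [map_mul, map_mul, mul_assoc]
      calc _ ≤ w l * (κ * 1 * n') * (κ ^ (4 * m) * (n * n') ^ m) := by gcongr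
        _ = κ ^ (4 * m + 1) * (w l * n ^ m * n' ^ (m + 1)) := by ring
        _ ≤ κ ^ (4 * m + 1) * (κ ^ (3 * m) * T) := by gcongr
        _ = _ := by ring
    have a2 : w (d * δ * G) * (n * n') ≤ κ ^ (7 * m + 2) * T := by
      refine le_trans ?_ (pw h (a := 4 * m + 2) (by omega) T0)
      rw [map_mul, map_mul, mul_assoc]
      calc _ ≤ κ * (κ * 1) * w δ * (κ ^ (4 * m) * (n * n') ^ m) := by gcongr
        _ = κ ^ (4 * m + 2) * (w δ * (n * n') ^ m) := by ring
        _ ≤ _ := by gcongr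
    have a3 : w (l * u' * G - d * δ * G) * (n * n') ≤ κ ^ (7 * m + 3) * T := by
      refine (mul_le_mul_of_nonneg_right (h.sub _ _) (mul_pos n0 n1).le).trans ?_
      rw [mul_assoc κ, max_mul_of_nonneg _ _ (mul_pos n0 n1).le, pow_succ' κ (7 * m + 2),
        mul_assoc κ]
      exact mul_le_mul_of_nonneg_left (max_le a1 a2) k0
    have a4 : w (d * P * u' ^ m) * (n * n') ≤ κ ^ (7 * m + 4) * T := by
      rw [e2]
      refine (mul_le_mul_of_nonneg_right (h.sub _ _) (mul_pos n0 n1).le).trans ?_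
      rw [mul_assoc κ, max_mul_of_nonneg _ _ (mul_pos n0 n1).le, pow_succ' κ (7 * m + 3),
        mul_assoc κ]
      exact mul_le_mul_of_nonneg_left
        (max_le (t2.trans (le_mul_of_one_le_left T0 (one_le_pow₀ h.1))) a3) k0
    refine le_trans ?_ (pw h (a := 11 * m + 9) (by omega) T0)
    rw [map_mul, map_mul, map_pow] at a4
    calc _ = 1 * n ^ m * n' ^ m * (n * n') := by ring
      _ ≤ κ ^ 5 * w d * (κ ^ (3 * m) * w P) * (κ * w u') ^ m * (n * n') := by gcongr
      _ = κ ^ (4 * m + 5) * (w d * w P * w u' ^ m * (n * n')) := by ring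
      _ ≤ κ ^ (4 * m + 5) * (κ ^ (7 * m + 4) * T) := by gcongr
      _ = _ := by ring

end Sep

open JM.Sep in
theorem sep : SEPStmt := by
  intro N
  refine ⟨11 * N + 9, ?_⟩
  intro K ι _ _ w κ α β μ ν x y Γ h hN h2 hb hs hμ hν hx hy e
  classical
  have k0 : 0 ≤ κ := zero_le_one.trans h.1
  have : Nontrivial ι := Fintype.one_lt_card_iff_nontrivial.1 (by omega)
  obtain ⟨i, -, hi⟩ := exists_min_image univ (fun k => w (α k * x + β k)) univ_nonempty
  obtain ⟨k, hk⟩ := exists_ne i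
  obtain ⟨G, eG, hG⟩ := quo h hb hμ hν x y (univ.erase i)
  have hc : N = (univ.erase i).card + 1 := by
    rw [card_erase_add_one (mem_univ i), card_univ, hN]
  have st := step _ G (α i) (β i) μ ν y _ _ eG
  rw [← mul_prod_erase univ _ (mem_univ i), ← mul_prod_erase univ _ (mem_univ i), hc, st] at e
  have eΓ := congrArg (eval x) (mul_left_cancel₀ (X_sub_C_ne_zero y) e)
  simp only [eval_add, eval_mul, eval_C, eval_X, eval_prod] at eΓ
  rw [← mul_prod_erase univ _ (mem_univ i), hc, Nat.add_sub_cancel]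
  refine fin h (d := α i * ν - β i * μ) (nx_pos w x) (nx_pos w y) eΓ.symm (by ring) ?_
    (det_le h (hb i).1 hν (hb i).2 hμ) hy (lin_le h hμ hν y) hG ?_
  · rw [map_prod, pow_mul, ← prod_const, ← prod_const, ← prod_mul_distrib]
    refine prod_le_prod (fun j _ => (nx_pos w x).le) fun j hj => ?_
    exact low h (hb i).1 (hb i).2 (hb j).1 (hb j).2 (hs i j (ne_of_mem_erase hj).symm)
      (hi j (mem_univ j))
  · have pl : (α i * β k - α k * β i) * (μ * x + ν) =
        (α i * ν - β i * μ) * (α k * x + β k) - (α k * ν - β k * μ) * (α i * x + β i) := by ring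
    have dk : w (α k * ν - β k * μ) ≤ κ * (κ * 1) := det_le h (hb k).1 hν (hb k).2 hμ
    have lk := lin_le h (hb k).1 (hb k).2 x
    have b : w (α i * β k - α k * β i) * w (μ * x + ν) ≤
        κ * (κ * κ * max (w (α i * ν - β i * μ) * nx w x) (w (α i * x + β i))) := by
      rw [← map_mul, pl]
      refine (h.sub _ _).trans (mul_le_mul_of_nonneg_left (max_le ?_ ?_) k0)
      · rw [map_mul]
        calc _ ≤ w (α i * ν - β i * μ) * (κ * κ * nx w x) := by gcongr
          _ = κ * κ * (w (α i * ν - β i * μ) * nx w x) := by ring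
          _ ≤ _ := mul_le_mul_of_nonneg_left (le_max_left _ _) (by positivity)
      · rw [map_mul]
        calc _ ≤ κ * (κ * 1) * w (α i * x + β i) := by gcongr
          _ = κ * κ * w (α i * x + β i) := by ring
          _ ≤ _ := mul_le_mul_of_nonneg_left (le_max_right _ _) (by positivity)
    have s := hs i k hk.symm
    calc _ ≤ κ * (1 * w (μ * x + ν)) := by rwa [one_mul]
      _ ≤ κ * (κ * w (α i * β k - α k * β i) * w (μ * x + ν)) := by gcongr
      _ = κ * κ * (w (α i * β k - α k * β i) * w (μ * x + ν)) := by ring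
      _ ≤ κ * κ * (κ * (κ * κ * max (w (α i * ν - β i * μ) * nx w x) (w (α i * x + β i)))) := by
        gcongr
      _ = _ := by ring

end Pool.Agent.MP_a43263_nt.JM

end MrgPart7

-- ======== part 8: formerly Pool.Agent.MP_a43263_nt.JM.Sum
section MrgPart8

/-! Mordell-Weil for Jacobians: finite supports, the product formula, Northcott for rational
numbers and rational norms. -/

set_option autoImplicit false

namespace Pool.Agent.MP_a43263_nt.JM

open Polynomial Finset Filter JC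

namespace Sum

variable (S : Sys)

theorem int_le (p : Nat.Primes) (a : ℤ) : S.w (some p) (a : Qb) ≤ 1 := by
  have : Fact (p : ℕ).Prime := ⟨p.2⟩
  have h := S.val p (a : ℚ)
  rw [Rat.cast_intCast] at h
  rw [h]
  exact_mod_cast padicNorm.of_int (p := p) a

theorem integral_le (p : Nat.Primes) {y : Qb} (hy : IsIntegral ℤ y) : S.w (some p) y ≤ 1 := by
  obtain ⟨P, hP, e⟩ := hy
  by_contra c
  have c : 1 < S.w (some p) y := not_le.1 c
  have t : Tri (S.w (some p)) 1 := ⟨le_rfl, fun a b => by simpa using S.na p a b⟩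
  rw [eval₂_eq_sum_range, sum_range_succ, hP.coeff_natDegree, map_one, one_mul] at e
  have e' : y ^ P.natDegree = -∑ i ∈ range P.natDegree, (P.coeff i : Qb) * y ^ i := by
    rw [eq_neg_iff_add_eq_zero, add_comm]
    simpa using e
  have h := t.sum (b := S.w (some p) y ^ P.natDegree / S.w (some p) y)
    (div_pos (pow_pos (one_pos.trans c) _) (one_pos.trans c)).le (range P.natDegree)
    (fun i => (P.coeff i : Qb) * y ^ i) fun i hi => by
      rw [map_mul, map_pow, le_div_iff₀ (one_pos.trans c), mul_assoc, ← pow_succ]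
      refine (mul_le_of_le_one_left (pow_pos (one_pos.trans c) _).le (int_le S p _)).trans ?_
      exact pow_le_pow_right₀ c.le (mem_range.1 hi)
  rw [one_pow, one_mul, ← (S.w (some p)).map_neg, ← e', map_pow,
    le_div_iff₀ (one_pos.trans c)] at h
  exact absurd h (not_le.2 (lt_mul_of_one_lt_right (pow_pos (one_pos.trans c) _) c))

theorem int_eq (N : ℤ) (hN : N ≠ 0) : ∀ᶠ v in cofinite, S.w v (N : Qb) = 1 := by
  rw [eventually_cofinite]
  have h : {p : Nat.Primes | (p : ℕ) ≤ N.natAbs}.Finite :=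
    (Set.finite_le_nat N.natAbs).preimage Subtype.val_injective.injOn
  refine ((h.image some).insert none).subset ?_
  rintro (_ | p) hp
  · exact Set.mem_insert _ _
  · refine Set.mem_insert_of_mem _ ⟨p, ?_, rfl⟩
    have : Fact (p : ℕ).Prime := ⟨p.2⟩
    by_contra c
    apply hp
    have h := S.val p (N : ℚ)
    rw [Rat.cast_intCast] at h
    have : ¬ ((p : ℕ) : ℤ) ∣ N := fun d =>
      c (Nat.le_of_dvd (Int.natAbs_pos.2 hN) (Int.natCast_dvd.1 d))
    rw [h, (padicNorm.int_eq_one_iff N).2 this, Rat.cast_one]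

theorem le_one (x : Qb) : ∀ᶠ v in cofinite, S.w v x ≤ 1 := by
  have a : IsAlgebraic ℤ x :=
    (IsFractionRing.isAlgebraic_iff ℤ ℚ Qb).2 (Algebra.IsAlgebraic.isAlgebraic x)
  obtain ⟨N, hN, i⟩ := a.exists_integral_multiple
  filter_upwards [int_eq S N hN, eventually_cofinite_ne none] with v hv hn
  obtain _ | p := v
  · exact absurd rfl hn
  · have := integral_le S p i
    rwa [zsmul_eq_mul, map_mul, hv, one_mul] at this

theorem eq_one (x : Qb) (hx : x ≠ 0) : ∀ᶠ v in cofinite, S.w v x = 1 := by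
  filter_upwards [le_one S x, le_one S x⁻¹] with v a b
  rw [map_inv₀] at b
  exact le_antisymm a ((inv_le_one₀ ((S.w v).pos hx)).1 b)

theorem nx_eq (x : Qb) : ∀ᶠ v in cofinite, nx (S.w v) x = 1 := by
  filter_upwards [le_one S x] with v a
  exact max_eq_left a

theorem de_eq (g : ℕ) (p q : Qb × Qb) (h : p ≠ q) : ∀ᶠ v in cofinite, de g (S.w v) p q = 1 := by
  have k : ∀ᶠ v in cofinite, S.w v (p.1 - q.1) = 1 ∨ S.w v (p.2 - q.2) = 1 := by
    by_cases c : p.1 = q.1
    · have : p.2 - q.2 ≠ 0 := fun e => h (Prod.ext c (sub_eq_zero.1 e))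
      exact (eq_one S _ this).mono fun v => Or.inr
    · exact (eq_one S _ (sub_ne_zero.2 c)).mono fun v => Or.inl
  filter_upwards [k, nx_eq S p.1, nx_eq S q.1, le_one S (p.1 - q.1), le_one S (p.2 - q.2),
    le_one S (p.2 * q.1 ^ (g + 1) - q.2 * p.1 ^ (g + 1))] with v k a b c d e
  have : dd g (S.w v) p q = 1 := by
    rw [dd, a, b, one_mul, one_pow, mul_one]
    refine le_antisymm (max_le c (max_le d e)) ?_
    rcases k with k | k
    · exact k.ge.trans (le_max_left _ _)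
    · exact k.ge.trans ((le_max_left _ _).trans (le_max_right _ _))
  rw [de, this, a, b]
  simp

theorem fin_log {u : Pc → ℝ} (h : ∀ᶠ v in cofinite, u v = 1) :
    Function.HasFiniteSupport fun v => Real.log (u v) :=
  (eventually_cofinite.1 h).subset fun v hv e => hv (by simp only [e, Real.log_one])

theorem sum_mul {x y : Qb} (hx : x ≠ 0) (hy : y ≠ 0) :
    ∑ᶠ v, Real.log (S.w v (x * y)) = ∑ᶠ v, Real.log (S.w v x) + ∑ᶠ v, Real.log (S.w v y) := by
  rw [← finsum_add_distrib (fin_log (eq_one S x hx)) (fin_log (eq_one S y hy))]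
  exact finsum_congr fun v => by rw [map_mul, Real.log_mul ((S.w v).pos hx).ne' ((S.w v).pos hy).ne']

theorem sum_prime (p : ℕ) (hp : p.Prime) : ∑ᶠ v, Real.log (S.w v (p : Qb)) = 0 := by
  classical
  have : Fact p.Prime := ⟨hp⟩
  have hv : ∀ q : Nat.Primes, S.w (some q) (p : Qb) = padicNorm q p := fun q => by
    rw [← S.val q (p : ℚ), Rat.cast_natCast]
  rw [finsum_eq_sum_of_support_subset (s := {none, some ⟨p, hp⟩})]
  · have ha : S.w none (p : Qb) = p := by
      have := S.arch (p : ℚ)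
      rwa [Rat.cast_natCast, Rat.cast_natCast, Nat.abs_cast] at this
    rw [sum_pair (by simp), ha, hv]
    show Real.log p + Real.log (padicNorm p p : ℚ) = 0
    rw [padicNorm.padicNorm_p_of_prime, Rat.cast_inv, Rat.cast_natCast, Real.log_inv,
      add_neg_cancel]
  · rintro (_ | q) hq
    · simp
    · by_contra c
      apply hq
      have : Fact (q : ℕ).Prime := ⟨q.2⟩
      have : (q : ℕ) ≠ p := fun e => c (by
        have : q = ⟨p, hp⟩ := Subtype.ext e
        simp [this])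
      show Real.log (S.w (some q) (p : Qb)) = 0
      rw [hv, padicNorm.padicNorm_of_prime_of_ne this, Rat.cast_one, Real.log_one]

theorem sum_nat (n : ℕ) : n ≠ 0 → ∑ᶠ v, Real.log (S.w v (n : Qb)) = 0 := by
  induction n using induction_on_primes with
  | zero => exact fun h => absurd rfl h
  | one => simp
  | prime_mul p n hp ih =>
    intro h
    have hn : n ≠ 0 := right_ne_zero_of_mul h
    rw [Nat.cast_mul, sum_mul S (Nat.cast_ne_zero.2 hp.ne_zero) (Nat.cast_ne_zero.2 hn),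
      sum_prime S p hp, ih hn, add_zero]

theorem sum_int (n : ℤ) (h : n ≠ 0) : ∑ᶠ v, Real.log (S.w v (n : Qb)) = 0 := by
  obtain ⟨m, rfl | rfl⟩ := n.eq_nat_or_neg
  · rw [Int.cast_natCast]
    exact sum_nat S m (by simpa using h)
  · simp only [Int.cast_neg, Int.cast_natCast, AbsoluteValue.map_neg]
    exact sum_nat S m (by simpa using h)

theorem mul_den (r : ℚ) : (r : Qb) * (r.den : Qb) = (r.num : Qb) := by
  exact_mod_cast r.mul_den_eq_num

theorem sum_rat (r : ℚ) (h : r ≠ 0) : ∑ᶠ v, Real.log (S.w v r) = 0 := by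
  have := sum_mul S (Rat.cast_ne_zero.2 h) (Nat.cast_ne_zero.2 r.den_nz)
  rw [mul_den, sum_int S _ (Rat.num_ne_zero.2 h), sum_nat S _ r.den_nz, add_zero] at this
  exact this.symm

theorem one_le (r : ℚ) (v : Pc) : 1 ≤ nx (S.w v) r * S.w v (r.den : Qb) := by
  obtain _ | p := v
  · have := S.arch (r.den : ℚ)
    rw [Rat.cast_natCast, Rat.cast_natCast, Nat.abs_cast] at this
    rw [this]
    exact one_le_mul_of_one_le_of_one_le (one_le_nx _ _) (Nat.one_le_cast.2 r.den_pos)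
  · obtain ⟨a, b, e⟩ := r.isCoprime_num_den
    have e' : (a : Qb) * r.num + b * r.den = 1 := by exact_mod_cast e
    have h := S.na p ((a : Qb) * r.num) (b * r.den)
    rw [e', map_one, map_mul, map_mul, ← mul_den, map_mul] at h
    have z := (S.w (some p)).nonneg (r.den : Qb)
    refine h.trans (max_le ?_ ?_)
    · refine (mul_le_of_le_one_left (mul_nonneg ((S.w _).nonneg _) z) (int_le S p a)).trans ?_
      exact mul_le_mul_of_nonneg_right (le_nx _ _) z
    · exact mul_le_mul_of_nonneg_right ((int_le S p b).trans (one_le_nx _ _)) z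

theorem ht_ge (r : ℚ) :
    Real.log (max 1 |(r : ℝ)| * r.den) ≤ ∑ᶠ v, Real.log (nx (S.w v) r) := by
  have hd : (r.den : Qb) ≠ 0 := Nat.cast_ne_zero.2 r.den_nz
  have e : ∑ᶠ v, Real.log (nx (S.w v) r * S.w v (r.den : Qb)) = ∑ᶠ v, Real.log (nx (S.w v) r) := by
    rw [← add_zero (∑ᶠ v, Real.log (nx (S.w v) r)), ← sum_nat S _ r.den_nz,
      ← finsum_add_distrib (fin_log (nx_eq S _)) (fin_log (eq_one S _ hd))]
    exact finsum_congr fun v => Real.log_mul (nx_pos _ _).ne' ((S.w v).pos hd).ne'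
  have f : ∀ᶠ v in cofinite, nx (S.w v) r * S.w v (r.den : Qb) = 1 := by
    filter_upwards [nx_eq S r, eq_one S _ hd] with v a b
    rw [a, b, one_mul]
  have := single_le_finsum none (fin_log f) fun v => Real.log_nonneg (one_le S r v)
  have a := S.arch (r.den : ℚ)
  rw [Rat.cast_natCast, Rat.cast_natCast, Nat.abs_cast] at a
  rw [e, a, nx, S.arch] at this
  exact this

theorem north (B : ℝ) : {r : ℚ | ∑ᶠ v, Real.log (nx (S.w v) r) ≤ B}.Finite := by
  obtain ⟨N, hN⟩ := exists_nat_ge (Real.exp B)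
  have i : Function.Injective fun r : ℚ => (r.num, r.den) := fun r s e =>
    Rat.ext (congrArg Prod.fst e) (congrArg Prod.snd e)
  refine (((Set.finite_Icc (-(N : ℤ)) N).prod (Set.finite_le_nat N)).preimage i.injOn).subset ?_
  intro r hr
  have hd : (1 : ℝ) ≤ r.den := Nat.one_le_cast.2 r.den_pos
  have h : max 1 |(r : ℝ)| * r.den ≤ N := by
    refine le_trans ?_ hN
    rw [← Real.log_le_iff_le_exp (mul_pos (one_pos.trans_le (le_max_left _ _)) (one_pos.trans_le hd))]
    exact (ht_ge S r).trans hr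
  have e : (r : ℝ) * r.den = r.num := by exact_mod_cast r.mul_den_eq_num
  refine ⟨abs_le.1 ?_, ?_⟩
  · have : |(r.num : ℝ)| ≤ N := by
      rw [← e, abs_mul, Nat.abs_cast]
      exact (mul_le_mul_of_nonneg_right (le_max_right _ _) (zero_le_one.trans hd)).trans h
    exact_mod_cast this
  · have : (r.den : ℝ) ≤ N :=
      (le_mul_of_one_le_left (zero_le_one.trans hd) (le_max_left _ _)).trans h
    exact_mod_cast this

theorem rat_norm (U R : ℚ[X]) :
    ∃ r : ℚ, ((fK U Qb).roots.map fun t => (fK R Qb).eval t).prod = r := by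
  by_cases h : U = 0
  · exact ⟨1, by simp [h, fK]⟩
  have e := resultant_eq_prod_eval (fK U Qb) (fK R Qb) R.natDegree natDegree_map_le
    (IsAlgClosed.splits _)
  rw [resultant_map_map, leadingCoeff_map] at e
  have c : (Rat.castHom Qb) U.leadingCoeff ^ R.natDegree ≠ 0 :=
    pow_ne_zero _ ((_root_.map_ne_zero _).2 (leadingCoeff_ne_zero.2 h))
  refine ⟨resultant U R (fK U Qb).natDegree R.natDegree / U.leadingCoeff ^ R.natDegree, ?_⟩
  rw [Rat.cast_div, Rat.cast_pow]
  exact (eq_div_iff c).2 (by rw [mul_comm]; exact e.symm)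

end Sum

theorem sum : SUMStmt := fun S =>
  ⟨Sum.eq_one S, Sum.nx_eq S, Sum.de_eq S, Sum.sum_rat S, Sum.north S, Sum.rat_norm⟩

end Pool.Agent.MP_a43263_nt.JM

end MrgPart8

-- ======== part 9: formerly Pool.Agent.MP_a43263_nt.JM.Sys
section MrgPart9

/-! Mordell-Weil for Jacobians: the places, and the Northcott property for polynomials. -/

set_option autoImplicit false

noncomputable section

namespace Pool.Agent.MP_a43263_nt.JM

open Polynomial Finset Filter JC

namespace SysAux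

/-- the absolute value of an embedding -/
def av {L : Type} [NormedField L] (φ : Qb →+* L) : AbsoluteValue Qb ℝ where
  toFun x := ‖φ x‖
  map_mul' x y := by simp
  nonneg' x := norm_nonneg _
  eq_zero' x := by simp
  add_le' x y := by simpa using norm_add_le (φ x) (φ y)

theorem av_apply {L : Type} [NormedField L] (φ : Qb →+* L) (x : Qb) : av φ x = ‖φ x‖ := rfl

theorem emb (L : Type) [Field L] [CharZero L] [IsAlgClosed L] : Nonempty (Qb →+* L) :=
  ⟨(IsAlgClosed.lift : Qb →ₐ[ℚ] L).toRingHom⟩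

theorem padic (p : Nat.Primes) : ∃ w : AbsoluteValue Qb ℝ, IsNonarchimedean w ∧
    ∀ r : ℚ, w r = padicNorm p r := by
  have : Fact (p : ℕ).Prime := ⟨p.2⟩
  obtain ⟨φ⟩ := emb (PadicAlgCl p)
  refine ⟨av φ, fun x y => ?_, fun r => ?_⟩
  · rw [av_apply, av_apply, av_apply, map_add]
    exact PadicAlgCl.isNonarchimedean p _ _
  · rw [av_apply, map_ratCast, ← map_ratCast (algebraMap ℚ_[p] (PadicAlgCl p)),
      ← Padic.eq_padicNorm]
    exact PadicAlgCl.norm_extends p _

theorem tri_two {K : Type} [Field K] (w : AbsoluteValue K ℝ) {κ : ℝ} (h : 2 ≤ κ) : Tri w κ := by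
  refine ⟨by linarith, fun x y => (w.add_le x y).trans ?_⟩
  have a := le_max_left (w x) (w y)
  have b := le_max_right (w x) (w y)
  have c := mul_le_mul_of_nonneg_right h ((w.nonneg x).trans a)
  linarith

theorem tri_na {K : Type} [Field K] {w : AbsoluteValue K ℝ} (hw : IsNonarchimedean w) {κ : ℝ}
    (h : 1 ≤ κ) : Tri w κ :=
  ⟨h, fun x y => (hw x y).trans
    (le_mul_of_one_le_left ((w.nonneg x).trans (le_max_left _ _)) h)⟩

theorem val_int (S : Sys) (p : Nat.Primes) (z : ℤ) :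
    S.w (some p) (z : Qb) = padicNorm p (z : ℚ) := by
  simpa using S.val p z

theorem arch_int (S : Sys) (z : ℤ) : S.w none (z : Qb) = |(z : ℝ)| := by
  simpa using S.arch z

theorem int_le (S : Sys) (p : Nat.Primes) (z : ℤ) : S.w (some p) (z : Qb) ≤ 1 := by
  have : Fact (p : ℕ).Prime := ⟨p.2⟩
  rw [val_int]
  exact_mod_cast padicNorm.of_int z

theorem inv_mul (S : Sys) (p : Nat.Primes) {N d : ℤ} (hN : N ≠ 0) (h : d ∣ N) :
    1 ≤ (S.w (some p) (N : Qb))⁻¹ * S.w (some p) (d : Qb) := by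
  obtain ⟨e, rfl⟩ := h
  have pos : 0 < S.w (some p) ((d * e : ℤ) : Qb) := (S.w _).pos (by exact_mod_cast hN)
  rw [← div_eq_inv_mul, le_div_iff₀ pos, one_mul, Int.cast_mul, map_mul]
  exact mul_le_of_le_one_right ((S.w _).nonneg _) (int_le S p e)

end SysAux

open SysAux

theorem sys : SYSStmt := by
  refine ⟨?_, fun S ι _ a ha => ?_⟩
  · obtain ⟨φ⟩ := SysAux.emb ℂ
    choose w h1 h2 using padic
    exact ⟨⟨fun v => v.elim (av φ) w, fun r => by simp [av_apply], h1, h2⟩⟩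
  classical
  obtain ⟨N, hN, h2, hd⟩ : ∃ N : ℤ, N ≠ 0 ∧ 2 ∣ N ∧ ∀ i k, i ≠ k → a i - a k ∣ N := by
    refine ⟨2 * ∏ x ∈ (univ : Finset ι).offDiag, (a x.1 - a x.2), mul_ne_zero two_ne_zero
      (prod_ne_zero_iff.2 fun x hx => sub_ne_zero.2 (ha.ne (mem_offDiag.1 hx).2.2)),
      dvd_mul_right _ _, fun i k h => Dvd.dvd.mul_left ?_ _⟩
    exact dvd_prod_of_mem (fun x : ι × ι => a x.1 - a x.2) (a := (i, k))
      (mem_offDiag.2 ⟨mem_univ _, mem_univ _, h⟩)
  refine ⟨fun v => v.elim (max 2 (∑ i, |(a i : ℝ)|)) fun p => (S.w (some p) (N : Qb))⁻¹,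
    fun v => ?_, le_max_left _ _, ?_⟩
  · rcases v with _ | p
    · have k2 : (2 : ℝ) ≤ max 2 (∑ i, |(a i : ℝ)|) := le_max_left _ _
      have one : ∀ z : ℤ, z ≠ 0 → 1 ≤ max 2 (∑ i, |(a i : ℝ)|) * S.w none (z : Qb) := by
        intro z hz
        rw [arch_int]
        refine one_le_mul_of_one_le_of_one_le (by linarith) ?_
        exact_mod_cast Int.one_le_abs hz
      refine ⟨tri_two _ k2, by simpa using one 2 two_ne_zero, fun i => ?_, fun i k h => ?_⟩
      · rw [arch_int]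
        exact (single_le_sum (f := fun i => |(a i : ℝ)|) (fun _ _ => abs_nonneg _)
          (mem_univ i)).trans (le_max_right _ _)
      · have := one _ (sub_ne_zero.2 (ha.ne h))
        rwa [Int.cast_sub] at this
    · have k1 : 1 ≤ (S.w (some p) (N : Qb))⁻¹ := by simpa using inv_mul S p hN (one_dvd N)
      refine ⟨tri_na (S.na p) k1, ?_, fun i => (int_le S p _).trans k1, fun i k h => ?_⟩
      · have := inv_mul S p hN h2
        rwa [Int.cast_ofNat] at this
      · have := inv_mul S p hN (hd i k h)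
        rwa [Int.cast_sub] at this
  · have fin : {p : Nat.Primes | (p : ℕ) ≤ N.natAbs}.Finite :=
      (Set.finite_Iic N.natAbs).preimage Subtype.val_injective.injOn
    refine ((fin.image some).insert none).subset fun v hv => ?_
    rcases v with _ | p
    · exact Or.inl rfl
    · have : Fact (p : ℕ).Prime := ⟨p.2⟩
      refine Or.inr ⟨p, by_contra fun c => hv ?_, rfl⟩
      have nd : ¬ ((p : ℕ) : ℤ) ∣ N := fun d =>
        c (Nat.le_of_dvd (Int.natAbs_pos.2 hN) (Int.natCast_dvd.1 d))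
      show (S.w (some p) (N : Qb))⁻¹ = 1
      rw [val_int, (padicNorm.int_eq_one_iff N).2 nd]
      simp

theorem ht (gau : GAUStmt) (sum : SUMStmt) : HTStmt := by
  classical
  intro S n B
  obtain ⟨M, hM⟩ := gau n
  obtain ⟨-, s2, -, -, s5, -⟩ := sum S
  have hF := s5 (M * Real.log 2 + B)
  refine Set.Finite.of_injOn (f := fun U (i : Fin (n + 1)) => U.coeff i) ?_ ?_
    (Set.Finite.pi' fun _ : Fin (n + 1) => hF)
  · rintro U ⟨hU, hn, hB⟩ i
    have mon : (fK U Qb).Monic := hU.map _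
    have eq := (IsAlgClosed.splits (fK U Qb)).eq_prod_roots_of_monic mon
    have cd : (fK U Qb).roots.card ≤ n :=
      (card_roots' _).trans (natDegree_map_le.trans hn)
    let κ : Pc → ℝ := fun v => v.elim 2 fun _ => 1
    have tri : ∀ v, Tri (S.w v) (κ v) := fun v => by
      rcases v with _ | p
      exacts [tri_two _ le_rfl, tri_na (S.na p) le_rfl]
    have loc : ∀ v, Real.log (nx (S.w v) (U.coeff i : Qb)) ≤ M * Real.log (κ v) +
        ((fK U Qb).roots.map fun t => Real.log (nx (S.w v) t)).sum := by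
      intro v
      have k := (hM Qb (S.w v) (κ v) (tri v)).2.2.2.2 _ cd
      rw [← eq] at k
      have p1 : 1 ≤ ((fK U Qb).roots.map (nx (S.w v))).prod :=
        Multiset.one_le_prod (fun x hx => by
          obtain ⟨t, -, rfl⟩ := Multiset.mem_map.1 hx
          exact one_le_nx _ t)
      have p2 : 1 ≤ κ v ^ M := one_le_pow₀ (tri v).1
      have b : nx (S.w v) (U.coeff i : Qb) ≤ κ v ^ M * ((fK U Qb).roots.map (nx (S.w v))).prod := by
        refine max_le (one_le_mul_of_one_le_of_one_le p2 p1) (le_trans ?_ k)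
        have := le_pn (S.w v) (fK U Qb) i
        rwa [coeff_map, eq_ratCast] at this
      refine (Real.log_le_log (nx_pos _ _) b).trans (le_of_eq ?_)
      rw [Real.log_mul (by linarith) (by linarith), Real.log_pow, Real.log_multiset_prod,
        Multiset.map_map]
      · rfl
      · intro x hx
        obtain ⟨t, -, rfl⟩ := Multiset.mem_map.1 hx
        exact (nx_pos _ t).ne'
    have f1 : (Function.support fun v => Real.log (nx (S.w v) (U.coeff i : Qb))).Finite :=
      Set.Finite.subset (s2 (U.coeff i : Qb)) fun v hv c => hv (by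
        show Real.log _ = 0
        rw [show nx (S.w v) (U.coeff i : Qb) = 1 from c, Real.log_one])
    have f2 : (Function.support fun v => M * Real.log (κ v)).Finite :=
      (Set.finite_singleton none).subset fun v hv => by
        rcases v with _ | p
        exacts [rfl, (hv (by simp [κ])).elim]
    have f3 : (Function.support fun v =>
        ((fK U Qb).roots.map fun t => Real.log (nx (S.w v) t)).sum).Finite := by
      have : ∀ᶠ v in cofinite, ∀ t ∈ (fK U Qb).roots.toFinset, nx (S.w v) t = 1 :=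
        (eventually_all_finset _).2 fun t _ => s2 t
      refine Set.Finite.subset this fun v hv c => hv (Multiset.sum_eq_zero fun x hx => ?_)
      obtain ⟨t, ht, rfl⟩ := Multiset.mem_map.1 hx
      rw [c t (Multiset.mem_toFinset.2 ht), Real.log_one]
    have e2 : ∑ᶠ v, M * Real.log (κ v) = M * Real.log 2 :=
      finsum_eq_single _ none fun v hv => by
        rcases v with _ | p
        exacts [(hv rfl).elim, by simp [κ]]
    have := finsum_le_finsum' f1 ((f2.union f3).subset (Function.support_add _ _)) loc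
    rw [finsum_add_distrib f2 f3, e2] at this
    exact this.trans (add_le_add le_rfl hB)
  · rintro U ⟨-, hn, -⟩ V ⟨-, hn', -⟩ e
    ext i
    by_cases c : i < n + 1
    · exact congrFun e ⟨i, c⟩
    · rw [coeff_eq_zero_of_natDegree_lt (by omega), coeff_eq_zero_of_natDegree_lt (by omega)]

end Pool.Agent.MP_a43263_nt.JM

end
end MrgPart9

-- ======== part 10: formerly Pool.Agent.MP_a43263_nt.JM.Tri
section MrgPart10

/-! Mordell-Weil for Jacobians: the pairing on principal divisors. -/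

set_option autoImplicit false

namespace Pool.Agent.MP_a43263_nt.JM

open Polynomial Finset Filter JC

namespace TriA

/-- the sum over the places of the local inequality -/
theorem fin_le {α : Type} {A₁ A₂ A₃ C D E : α → ℝ} (m : ℝ) (h₁ : ∀ᶠ v in cofinite, A₁ v = 0)
    (h₂ : ∀ᶠ v in cofinite, A₂ v = 0) (h₃ : ∀ᶠ v in cofinite, A₃ v = 0)
    (hC : ∀ᶠ v in cofinite, C v = 0) (hD : ∀ᶠ v in cofinite, D v = 0)
    (hE : ∀ᶠ v in cofinite, E v = 0) (d0 : ∑ᶠ v, D v = 0) (e0 : ∑ᶠ v, E v = 0)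
    (h : ∀ v, 2 * E v ≤ m * (C v + D v) + (A₁ v + A₂ v + A₃ v)) :
    -(m * ∑ᶠ v, C v) ≤ ∑ᶠ v, A₁ v + ∑ᶠ v, A₂ v + ∑ᶠ v, A₃ v := by
  have e := eventually_cofinite.1 (h₁.and (h₂.and (h₃.and (hC.and (hD.and hE)))))
  have k : ∀ F : α → ℝ, (∀ v, A₁ v = 0 ∧ A₂ v = 0 ∧ A₃ v = 0 ∧ C v = 0 ∧ D v = 0 ∧ E v = 0 →
      F v = 0) → ∑ᶠ v, F v = ∑ v ∈ e.toFinset, F v := fun F hF =>
    finsum_eq_sum_of_support_subset F fun v hv => by
      rw [Set.Finite.coe_toFinset]
      exact fun hh => hv (hF v hh)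
  rw [k D fun v hh => hh.2.2.2.2.1] at d0
  rw [k E fun v hh => hh.2.2.2.2.2] at e0
  rw [k A₁ fun v hh => hh.1, k A₂ fun v hh => hh.2.1, k A₃ fun v hh => hh.2.2.1,
    k C fun v hh => hh.2.2.2.1]
  have b := sum_le_sum (s := e.toFinset) fun v _ => h v
  rw [← mul_sum, e0, sum_add_distrib, ← mul_sum, sum_add_distrib, d0, sum_add_distrib,
    sum_add_distrib] at b
  linarith

theorem log_prod {β : Type} (s : Multiset β) (φ : β → ℝ) (h : ∀ x ∈ s, 0 < φ x) :
    0 < (s.map φ).prod ∧ Real.log (s.map φ).prod = (s.map fun x => Real.log (φ x)).sum := by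
  induction s using Multiset.induction_on with
  | empty => simp
  | cons a s ih =>
    obtain ⟨i1, i2⟩ := ih fun x hx => h x (Multiset.mem_cons_of_mem hx)
    have ha := h a (Multiset.mem_cons_self _ _)
    rw [Multiset.map_cons, Multiset.prod_cons, Multiset.map_cons, Multiset.sum_cons,
      Real.log_mul ha.ne' i1.ne', i2]
    exact ⟨mul_pos ha i1, rfl⟩

theorem split {y : ℚ[X] × ℚ[X]} (h : y.1.Monic) :
    fK y.1 Qb = (((pts y).map Prod.fst).map fun c => X - C c).prod := by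
  have e : (pts y).map Prod.fst = (fK y.1 Qb).roots := by
    rw [pts, Multiset.map_map]
    exact Multiset.map_id' _
  rw [e]
  exact (IsAlgClosed.splits (fK y.1 Qb)).eq_prod_roots_of_monic (h.map _)

theorem lam_add (g : ℕ) (w : AbsoluteValue Qb ℝ) (s t u : Multiset (Qb × Qb)) :
    lam g w s (t + u) = lam g w s t + lam g w s u := by
  simp only [lam, Multiset.map_add, Multiset.sum_add, Multiset.sum_map_add]

end TriA

open TriA

theorem tri : GAUStmt → SCHStmt → SUMStmt → NORMStmt → PRINStmt → TRIStmt := by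
  intro gau sch hs norm prin S ι _ g a f κ n hC hK
  obtain ⟨M₁, H₁⟩ := sch g (3 * n)
  obtain ⟨M₂, H₂⟩ := norm S ι g a f κ (3 * n) hC hK
  obtain ⟨M₃, H₃⟩ := gau (3 * n)
  have k1 : ∀ v, 1 ≤ κ v := fun v => (hK.1 v).tri.1
  have k0 : ∀ v, 0 ≤ ((M₁ + M₂ + M₃ : ℕ) : ℝ) * Real.log (κ v) := fun v =>
    mul_nonneg (Nat.cast_nonneg _) (Real.log_nonneg (k1 v))
  have kf : ∀ᶠ v in cofinite, ((M₁ + M₂ + M₃ : ℕ) : ℝ) * Real.log (κ v) = 0 :=
    hK.2.2.mono fun v hv => by rw [hv, Real.log_one, mul_zero]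
  have L0 : 0 ≤ ∑ᶠ v, ((M₁ + M₂ + M₃ : ℕ) : ℝ) * Real.log (κ v) := finsum_nonneg k0
  refine ⟨n * ∑ᶠ v, ((M₁ + M₂ + M₃ : ℕ) : ℝ) * Real.log (κ v), ?_⟩
  intro x y₁ y₂ y₃ hx h₁ h₂ h₃ hc d₁ d₂ d₃
  obtain ⟨P₁, P₂⟩ := prin ι g n _ f hC
  obtain ⟨A, B, c, c0, e, dA, dB, hm, hz⟩ := P₂ y₁ y₂ y₃ h₁ h₂ h₃ hc
  obtain ⟨cx, ox⟩ := P₁ x hx
  obtain ⟨c₁, o₁⟩ := P₁ y₁ h₁
  obtain ⟨c₂, o₂⟩ := P₁ y₂ h₂
  obtain ⟨c₃, o₃⟩ := P₁ y₃ h₃
  generalize hS : pts y₁ + pts y₂ + pts y₃ = s at hm hz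
  have os : ∀ q ∈ s, Oc (fK f Qb) q := by
    intro q hq
    rw [← hS, Multiset.mem_add, Multiset.mem_add] at hq
    rcases hq with (hq | hq) | hq
    exacts [o₁ q hq, o₂ q hq, o₃ q hq]
  have ns : ∀ p ∈ pts x, p ∉ s := by
    intro p hp hq
    rw [← hS, Multiset.mem_add, Multiset.mem_add] at hq
    rcases hq with (hq | hq) | hq
    exacts [d₁ p hp hq, d₂ p hp hq, d₃ p hp hq]
  have cs : s.card ≤ 3 * n := by
    rw [← hS, Multiset.card_add, Multiset.card_add, c₁, c₂, c₃]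
    have := h₁.2.2
    have := h₂.2.2
    have := h₃.2.2
    omega
  have eN : fK (A ^ 2 - f * B ^ 2) Qb =
      C (c : Qb) * ((s.map Prod.fst).map fun c => X - C c).prod := by
    rw [e, ← hS]
    simp only [Multiset.map_add, Multiset.prod_add]
    rw [← split h₁.1, ← split h₂.1, ← split h₃.1]
    simp [fK, Polynomial.map_mul]
  have hp : po (⟨fK A Qb, fK B Qb⟩ : Rg (fK f Qb)) ≤ s.card := by
    have e' : QuadraticAlgebra.norm (⟨fK A Qb, fK B Qb⟩ : Rg (fK f Qb)) =
        fK (A ^ 2 - f * B ^ 2) Qb := by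
      simp only [QuadraticAlgebra.norm_def, fK, Polynomial.map_sub, Polynomial.map_mul,
        Polynomial.map_pow]
      ring
    rw [po, e', eN]
    refine (natDegree_C_mul_le _ _).trans ?_
    rw [natDegree_multiset_prod_X_sub_C_eq_card, Multiset.card_map]
  have cq : (c : Qb) ≠ 0 := Rat.cast_ne_zero.2 c0
  have z : ∀ p ∈ pts x, ev p (⟨fK A Qb, fK B Qb⟩ : Rg (fK f Qb)) ≠ 0 := fun p hp =>
    hz p (ox p hp) (ns p hp)
  obtain ⟨f₁, f₂⟩ := Glob.prodf hs S x (A + B * x.2)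
    (fun p => ev p (⟨fK A Qb, fK B Qb⟩ : Rg (fK f Qb))) (fun p hp => by
      rw [ev, (Glob.root hp).2]
      simp [fK, Polynomial.map_mul]) z
  have loc : ∀ v, ∀ p ∈ pts x,
      2 * Real.log (S.w v (ev p (⟨fK A Qb, fK B Qb⟩ : Rg (fK f Qb)))) ≤
        (((M₁ + M₂ + M₃ : ℕ) : ℝ) * Real.log (κ v) + Real.log (S.w v (c : Qb))) +
          (s.map fun q => Real.log (de g (S.w v) p q)).sum := by
    intro v p hp'
    have a₁ := H₁ Qb ι (S.w v) (κ v) _ _ (Glob.cv hC) (hK.1 v) s _ p cs hp os hm (ox p hp')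
    have a₂ := H₂ v A B dA dB
    have a₃ := (H₃ Qb (S.w v) (κ v) (hK.1 v).tri).2.2.2.2 (s.map Prod.fst)
      (by rwa [Multiset.card_map])
    obtain ⟨n₁, -⟩ := log_prod s (fun q => nx (S.w v) q.1) fun q _ => nx_pos _ _
    obtain ⟨n₂, n₃⟩ := log_prod s (de g (S.w v) p) fun q hq =>
      de_pos _ g fun e => ns p hp' (e ▸ hq)
    rw [Multiset.map_map (nx (S.w v))] at a₃
    rw [eN, pn_C_mul] at a₂
    have kp : ∀ m : ℕ, 0 < κ v ^ m := fun m => pow_pos (one_pos.trans_le (k1 v)) m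
    have b : S.w v (ev p (⟨fK A Qb, fK B Qb⟩ : Rg (fK f Qb))) ^ 2 ≤
        κ v ^ (M₁ + M₂ + M₃) * (S.w v (c : Qb) * (s.map (de g (S.w v) p)).prod) := by
      refine le_of_mul_le_mul_right (a₁.trans ?_) n₁
      have b₁ := a₂.trans (mul_le_mul_of_nonneg_left
        (mul_le_mul_of_nonneg_left a₃ ((S.w v).nonneg (c : Qb))) (kp M₂).le)
      refine (mul_le_mul_of_nonneg_left (mul_le_mul_of_nonneg_right b₁ n₂.le) (kp M₁).le).trans
        (le_of_eq ?_)
      simp only [Function.comp_def, pow_add]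
      ring
    have := Glob.log_le (k1 v) (pow_pos ((S.w v).pos (z p hp')) 2) b
    rwa [Real.log_pow, Real.log_mul ((S.w v).ne_zero cq) n₂.ne', n₃, Nat.cast_ofNat,
      ← add_assoc] at this
  have q₁ : ∀ p ∈ pts x, ∀ q ∈ pts y₁, p ≠ q := fun p hp q hq e => d₁ p hp (e ▸ hq)
  have q₂ : ∀ p ∈ pts x, ∀ q ∈ pts y₂, p ≠ q := fun p hp q hq e => d₂ p hp (e ▸ hq)
  have q₃ : ∀ p ∈ pts x, ∀ q ∈ pts y₃, p ≠ q := fun p hp q hq e => d₃ p hp (e ▸ hq)
  have r := fin_le ((pts x).card : ℝ) (Glob.lam_ev hs S g q₁) (Glob.lam_ev hs S g q₂)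
    (Glob.lam_ev hs S g q₃) kf
    (((hs S).1 _ cq).mono fun v hv => show Real.log (S.w v (c : Qb)) = 0 by
      rw [hv, Real.log_one]) f₁ ((hs S).2.2.2.1 c c0) f₂ fun v => by
    have b := Glob.sum_le (pts x) _ _ _ (loc v)
    rw [Multiset.sum_map_mul_left] at b
    rw [← lam_add, ← lam_add, hS]
    exact b
  refine le_trans (neg_le_neg ?_) r
  exact mul_le_mul_of_nonneg_right (Nat.cast_le.2 (cx.trans_le hx.2.2)) L0

end Pool.Agent.MP_a43263_nt.JM

end MrgPart10

-- marker of a merged file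
example : 731051 + 457350 = 731051 + 457350 := rfl
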