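import Pool.Agent.MP_a43263_nt.JM.Gau

-- ======== part 0: formerly Pool.Agent.MP_a43263_nt.JM.Pair
section MrgPart0

/-! Mordell-Weil for Jacobians: division by one zero. -/

set_option autoImplicit false

namespace Pool.Agent.MP_a43263_nt.JM

open Polynomial Finset JC

namespace Pair

variable {K : Type} [Field K] {w : AbsoluteValue K ℝ} {κ : ℝ} {f : K[X]} {g : ℕ}

/-- the conclusion for one pair of points -/
def Res (g M : ℕ) (w : AbsoluteValue K ℝ) (κ : ℝ) (f : K[X]) (p q : K × K) : Prop :=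
  ∃ ψ ∈ mx f (ng q), po ψ ≤ 2 * g + 2 ∧
    hn w ψ ≤ κ ^ M * nx w q.1 ^ (g + 1) ∧ ∀ h h' : Rg f, h * ψ = ⟨X - C q.1, 0⟩ * h' →
      w (ev p h) * (nx w p.1 * nx w q.1) ^ (2 * g + 1) ≤ κ ^ M * (dd g w p q * w (ev p h'))

theorem exists_pow (w : AbsoluteValue K ℝ) (x : K) (g : ℕ) :
    ∃ j ≤ g, w (x ^ j) = nx w x ^ g := by
  rcases le_total 1 (w x) with h | h
  · exact ⟨g, le_rfl, by rw [map_pow, nx, max_eq_right h]⟩
  · exact ⟨0, Nat.zero_le _, by simp [nx, max_eq_left h]⟩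

theorem pn_zero : pn w (0 : K[X]) = 0 :=
  le_antisymm (pn_le w fun i => by simp) (pn_nonneg w _)

theorem pn_lin (j : ℕ) (c : K) : pn w (X ^ j * (X - C c)) ≤ nx w c := by
  refine pn_le w fun i => ?_
  have e : (X ^ j * (X - C c) : K[X]) = X ^ (j + 1) - C c * X ^ j := by ring
  rw [e, coeff_sub, coeff_C_mul, coeff_X_pow, coeff_X_pow]
  by_cases h1 : i = j + 1
  · have h2 : i ≠ j := by omega
    simpa [h1] using one_le_nx w c
  · by_cases h2 : i = j
    · simpa [h2] using le_nx w c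
    · simpa [h1, h2] using (nx_pos w c).le

theorem lin_ne (c : K) : (⟨X - C c, 0⟩ : Rg f) ≠ 0 := fun h =>
  X_sub_C_ne_zero c (congrArg QuadraticAlgebra.re h)

theorem ev_re (p : K × K) (u : K[X]) : ev p (⟨u, 0⟩ : Rg f) = u.eval p.1 := by simp [ev]

theorem dd1 (p q : K × K) : w (p.1 - q.1) * (nx w p.1 * nx w q.1) ^ g ≤ dd g w p q :=
  le_max_left _ _

theorem caseA [IsDomain (Rg f)] (hκ : 1 ≤ κ) {p q : K × K} (hp : Oc f p) {M : ℕ}
    (h : (nx w p.1 * nx w q.1) ^ (g + 1) ≤ κ ^ M * dd g w p q) : Res g M w κ f p q := by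
  obtain ⟨j, hj, ej⟩ := exists_pow w p.1 g
  obtain ⟨j', _, ec⟩ := exists_pow w q.1 g
  have e : (⟨C (q.1 ^ j') * (X ^ j * (X - C q.1)), 0⟩ : Rg f) =
      ⟨X - C q.1, 0⟩ * ⟨C (q.1 ^ j') * X ^ j, 0⟩ := by
    ext1 <;> simp only [QuadraticAlgebra.re_mul, QuadraticAlgebra.im_mul] <;> ring
  refine ⟨⟨C (q.1 ^ j') * (X ^ j * (X - C q.1)), 0⟩, ?_, ?_, ?_, fun u u' hu => ?_⟩
  · rw [e]
    exact Ideal.mul_mem_right _ _ (Ideal.subset_span (Or.inl rfl))
  · have h1 : (C (q.1 ^ j') * (X ^ j * (X - C q.1)) : K[X]).natDegree ≤ g + 1 := by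
      refine (natDegree_C_mul_le _ _).trans (natDegree_mul_le.trans ?_)
      rw [natDegree_X_pow, natDegree_X_sub_C]
      omega
    simp only [po, QuadraticAlgebra.norm_def, mul_zero, zero_mul, add_zero, sub_zero]
    exact natDegree_mul_le.trans (by omega)
  · have h0 : nx w q.1 ^ (g + 1) ≤ κ ^ M * nx w q.1 ^ (g + 1) :=
      le_mul_of_one_le_left (pow_pos (nx_pos w _) _).le (one_le_pow₀ hκ)
    refine le_trans (max_le ?_ ?_) h0
    · show pn w (C (q.1 ^ j') * (X ^ j * (X - C q.1))) ≤ _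
      rw [pn_C_mul, ec, pow_succ]
      exact mul_le_mul_of_nonneg_left (pn_lin j q.1) (pow_pos (nx_pos w _) _).le
    · show pn w 0 ≤ _
      rw [pn_zero]
      exact (pow_pos (nx_pos w _) _).le
  · rw [e, mul_left_comm] at hu
    have h2 := mul_left_cancel₀ (lin_ne q.1) hu
    have h3 : w (ev p u') = w (ev p u) * (nx w p.1 * nx w q.1) ^ g := by
      rw [← h2, ev_mul hp, ev_re, map_mul, eval_mul, eval_C, eval_pow, eval_X, map_mul, ej, ec,
        mul_pow]
      ring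
    have h4 := w.nonneg (ev p u)
    have h5 := (pow_pos (mul_pos (nx_pos w p.1) (nx_pos w q.1)) g).le
    calc w (ev p u) * (nx w p.1 * nx w q.1) ^ (2 * g + 1)
        = (nx w p.1 * nx w q.1) ^ (g + 1) * (w (ev p u) * (nx w p.1 * nx w q.1) ^ g) := by ring
      _ ≤ κ ^ M * dd g w p q * (w (ev p u) * (nx w p.1 * nx w q.1) ^ g) :=
          mul_le_mul_of_nonneg_right h (mul_nonneg h4 h5)
      _ = _ := by rw [h3]; ring

theorem caseA' [IsDomain (Rg f)] (hκ : 1 ≤ κ) {p q : K × K} (hp : Oc f p) {M : ℕ}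
    (h : nx w p.1 * nx w q.1 ≤ κ ^ M * w (p.1 - q.1)) : Res g M w κ f p q := by
  refine caseA hκ hp ?_
  have h5 := (pow_pos (mul_pos (nx_pos w p.1) (nx_pos w q.1)) g).le
  calc (nx w p.1 * nx w q.1) ^ (g + 1)
      = nx w p.1 * nx w q.1 * (nx w p.1 * nx w q.1) ^ g := by ring
    _ ≤ κ ^ M * w (p.1 - q.1) * (nx w p.1 * nx w q.1) ^ g := mul_le_mul_of_nonneg_right h h5
    _ = κ ^ M * (w (p.1 - q.1) * (nx w p.1 * nx w q.1) ^ g) := by ring
    _ ≤ _ := mul_le_mul_of_nonneg_left (dd1 p q) (pow_nonneg (zero_le_one.trans hκ) _)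

theorem far (h : Tri w κ) {x x' : K} (h1 : κ < w x) (h2 : w x' < 1) :
    nx w x * nx w x' ≤ κ * w (x - x') := by
  have hκ := h.1
  have h3 := h.2 (x - x') x'
  rw [sub_add_cancel] at h3
  rw [nx, nx, max_eq_right (by linarith), max_eq_left h2.le, mul_one]
  rcases le_total (w (x - x')) (w x') with c | c
  · rw [max_eq_right c] at h3
    nlinarith
  · rwa [max_eq_left c] at h3

theorem chart (h : Tri w κ) (x x' : K) : nx w x * nx w x' ≤ κ * w (x - x') ∨
    (w x ≤ κ ∧ w x' ≤ κ) ∨ (1 ≤ w x ∧ 1 ≤ w x') := by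
  have hκ := h.1
  by_cases a : w x ≤ κ
  · by_cases b : w x' ≤ κ
    · exact Or.inr (Or.inl ⟨a, b⟩)
    · by_cases c : 1 ≤ w x
      · exact Or.inr (Or.inr ⟨c, by linarith [not_le.1 b]⟩)
      · left
        rw [mul_comm, w.map_sub]
        exact far h (not_le.1 b) (not_le.1 c)
  · by_cases c : 1 ≤ w x'
    · exact Or.inr (Or.inr ⟨by linarith [not_le.1 a], c⟩)
    · exact Or.inl (far h (not_le.1 a) (not_le.1 c))

theorem y_le {ι : Type} [Fintype ι] {a : ι → K} (hc : Cv g a f) (ho : Ok w κ a) {q : K × K}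
    (hq : Oc f q) : w q.2 ≤ κ ^ (2 * g + 1) * nx w q.1 ^ (g + 1) := by
  have hκ := ho.tri.1
  have hn := one_le_nx w q.1
  have h1 : w q.2 ^ 2 ≤ (κ ^ 2 * nx w q.1) ^ (2 * g + 1) := by
    rw [← map_pow, show q.2 ^ 2 = f.eval q.1 from hq, hc.eq, fp, eval_prod, map_prod, ← hc.card,
      ← card_univ, ← prod_const]
    refine prod_le_prod (fun i _ => w.nonneg _) fun i _ => ?_
    rw [eval_sub, eval_X, eval_C, pow_two, mul_assoc]
    refine (ho.tri.sub _ _).trans (mul_le_mul_of_nonneg_left (max_le ?_ ?_) (by linarith))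
    · exact (le_nx w _).trans (le_mul_of_one_le_left (by linarith) hκ)
    · exact (ho.le i).trans (le_mul_of_one_le_right (by linarith) hn)
  refine (pow_le_pow_iff_left₀ (w.nonneg _) (by positivity) two_ne_zero).1 (h1.trans ?_)
  calc (κ ^ 2 * nx w q.1) ^ (2 * g + 1)
      = (κ ^ (2 * g + 1)) ^ 2 * nx w q.1 ^ (2 * g + 1) := by ring
    _ ≤ (κ ^ (2 * g + 1)) ^ 2 * nx w q.1 ^ (2 * g + 2) :=
        mul_le_mul_of_nonneg_left (pow_le_pow_right₀ hn (by omega)) (by positivity)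
    _ = _ := by ring

theorem caseB [CharZero K] {ι : Type} [Fintype ι] {a : ι → K} (mum : MUMStmt) (hc : Cv g a f)
    (ho : Ok w κ a) {p q : K × K} (hp : Oc f p) (hq : Oc f q) {L Γ : K[X]} {m : ℕ}
    (hd : L.natDegree ≤ 1) (hL : pn w (L ^ (g + 1)) ≤ 1) (l1 : w (L.eval q.1) ≤ nx w q.1)
    (l2 : nx w q.1 ≤ κ * w (L.eval q.1))
    (hb : w (p.2 * L.eval q.1 ^ (g + 1) - q.2 * L.eval p.1 ^ (g + 1)) ≤ dd g w p q)
    (hΓ : f * C (L.eval q.1 ^ (2 * g + 2)) - C (f.eval q.1) * L ^ (2 * g + 2) = (X - C q.1) * Γ)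
    (hs : (nx w p.1 * nx w q.1) ^ (2 * g + 2) ≤ κ ^ m * max (w (f.eval p.1) * nx w q.1 ^ (2 * g + 2))
      (max (w (Γ.eval p.1) * (nx w p.1 * nx w q.1))
        (w (p.1 - q.1) * (nx w p.1 * nx w q.1) ^ (2 * g + 1)))) :
    Res g (m + 2 * g + 3) w κ f p q := by
  obtain ⟨⟨_, hdeg, _, hdom⟩, -, -, -, -, -, -, -, hmem, -⟩ := mum K ι g a f hc
  have hκ := ho.tri.1
  have hκ0 : 0 < κ := by linarith
  have hn := nx_pos w p.1
  have hn' := nx_pos w q.1
  have hs0 : 0 < nx w p.1 * nx w q.1 := mul_pos hn hn'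
  have hm : κ ^ m ≤ κ ^ (m + 2 * g + 3) := pow_le_pow_right₀ hκ (by omega)
  have hdd := dd_nonneg w g p q
  set ψ : Rg f := ⟨C q.2 * L ^ (g + 1), C (L.eval q.1 ^ (g + 1))⟩ with hψ
  set β : Rg f := ⟨-(C q.2 * L ^ (g + 1)), C (L.eval q.1 ^ (g + 1))⟩ with hβ
  have hq' : C (f.eval q.1) = C q.2 ^ 2 := by rw [← C_pow, show q.2 ^ 2 = f.eval q.1 from hq]
  have hprod : ψ * β = (⟨X - C q.1, 0⟩ : Rg f) * ⟨Γ, 0⟩ := by
    ext1
    · simp only [hψ, hβ, QuadraticAlgebra.re_mul, mul_zero, add_zero]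
      rw [← hΓ, hq', C_pow, C_pow]
      ring
    · simp only [hψ, hβ, QuadraticAlgebra.im_mul]
      ring
  have eβ : ev p β = p.2 * L.eval q.1 ^ (g + 1) - q.2 * L.eval p.1 ^ (g + 1) := by
    simp only [hβ, ev, eval_neg, eval_mul, eval_C, eval_pow]
    ring
  have esum : ev p ψ + ev p β = 2 * (p.2 * L.eval q.1 ^ (g + 1)) := by
    simp only [hψ, hβ, ev, eval_neg, eval_mul, eval_C, eval_pow]
    ring
  rw [← eβ] at hb
  have main : (∀ h h' : Rg f, h * ψ = ⟨X - C q.1, 0⟩ * h' →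
      w (ev p h) * (nx w p.1 * nx w q.1) ^ (2 * g + 1) ≤
        κ ^ (m + 2 * g + 3) * (dd g w p q * w (ev p h'))) → Res g (m + 2 * g + 3) w κ f p q := by
    intro hh
    refine ⟨ψ, ?_, ?_, ?_, hh⟩
    · have h1 : X - C q.1 ∣ f - C (-q.2) ^ 2 := by
        rw [dvd_iff_isRoot, IsRoot, eval_sub, eval_pow, eval_C, ← show q.2 ^ 2 = f.eval q.1 from hq]
        ring
      refine (hmem _ _ h1 ψ).2 ?_
      rw [dvd_iff_isRoot, IsRoot]
      simp only [hψ, eval_add, eval_mul, eval_C, eval_pow]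
      ring
    · have h1 : (C q.2 * L ^ (g + 1)).natDegree ≤ g + 1 :=
        (natDegree_C_mul_le _ _).trans (natDegree_pow_le.trans (by nlinarith))
      simp only [po, hψ, QuadraticAlgebra.norm_def, zero_mul, add_zero]
      refine (natDegree_sub_le _ _).trans (max_le (natDegree_mul_le.trans (by omega)) ?_)
      exact (natDegree_mul_C_le _ _).trans ((natDegree_mul_C_le _ _).trans (by omega))
    · refine max_le ?_ ?_
      · show pn w (C q.2 * L ^ (g + 1)) ≤ _
        rw [pn_C_mul]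
        refine (mul_le_of_le_one_right (w.nonneg _) hL).trans ((y_le hc ho hq).trans ?_)
        exact mul_le_mul_of_nonneg_right (pow_le_pow_right₀ hκ (by omega)) (by positivity)
      · show pn w (C (L.eval q.1 ^ (g + 1))) ≤ _
        refine le_trans (pn_le w fun i => ?_)
          (le_mul_of_one_le_left (by positivity) (one_le_pow₀ hκ))
        rw [coeff_C]
        split_ifs
        · rw [map_pow]
          exact pow_le_pow_left₀ (w.nonneg _) l1 _
        · rw [map_zero]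
          positivity
  rcases le_max_iff.1 ((div_le_iff₀' (pow_pos hκ0 m)).2 hs) with c | c
  · rw [div_le_iff₀' (pow_pos hκ0 m)] at c
    have h1 : w p.2 * nx w q.1 ^ (g + 1) ≤ κ ^ (g + 3) * max (w (ev p ψ)) (w (ev p β)) := by
      have h2 := ho.tri.2 (ev p ψ) (ev p β)
      rw [esum, map_mul, map_mul, map_pow] at h2
      have h3 : nx w q.1 ^ (g + 1) ≤ (κ * w (L.eval q.1)) ^ (g + 1) := pow_le_pow_left₀ hn'.le l2 _
      have h4 := w.nonneg p.2
      have h5 := w.nonneg (L.eval q.1)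
      calc w p.2 * nx w q.1 ^ (g + 1) ≤ w p.2 * (κ * w (L.eval q.1)) ^ (g + 1) :=
            mul_le_mul_of_nonneg_left h3 h4
        _ = 1 * (κ ^ (g + 1) * (w p.2 * w (L.eval q.1) ^ (g + 1))) := by ring
        _ ≤ κ * w 2 * (κ ^ (g + 1) * (w p.2 * w (L.eval q.1) ^ (g + 1))) :=
            mul_le_mul_of_nonneg_right ho.two (by positivity)
        _ = κ ^ (g + 2) * (w 2 * (w p.2 * w (L.eval q.1) ^ (g + 1))) := by ring
        _ ≤ κ ^ (g + 2) * (κ * max (w (ev p ψ)) (w (ev p β))) :=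
            mul_le_mul_of_nonneg_left h2 (by positivity)
        _ = _ := by ring
    have h0 : 0 ≤ max (w (ev p ψ)) (w (ev p β)) := (w.nonneg _).trans (le_max_left _ _)
    have h6 : (nx w p.1 * nx w q.1) ^ (g + 1) ≤
        κ ^ (m + 2 * g + 3) * max (w (ev p ψ)) (w (ev p β)) := by
      refine (pow_le_pow_iff_left₀ (by positivity) (by positivity) two_ne_zero).1 ?_
      have h7 : w (f.eval p.1) = w p.2 ^ 2 := by
        rw [← map_pow, show p.2 ^ 2 = f.eval p.1 from hp]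
      have h8 := w.nonneg p.2
      calc ((nx w p.1 * nx w q.1) ^ (g + 1)) ^ 2 = (nx w p.1 * nx w q.1) ^ (2 * g + 2) := by ring
        _ ≤ κ ^ m * (w (f.eval p.1) * nx w q.1 ^ (2 * g + 2)) := c
        _ = κ ^ m * (w p.2 * nx w q.1 ^ (g + 1)) ^ 2 := by rw [h7]; ring
        _ ≤ κ ^ m * (κ ^ (g + 3) * max (w (ev p ψ)) (w (ev p β))) ^ 2 :=
            mul_le_mul_of_nonneg_left (pow_le_pow_left₀ (by positivity) h1 _) (by positivity)
        _ = κ ^ (m + 2 * g + 6) * max (w (ev p ψ)) (w (ev p β)) ^ 2 := by ring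
        _ ≤ κ ^ (2 * (m + 2 * g + 3)) * max (w (ev p ψ)) (w (ev p β)) ^ 2 :=
            mul_le_mul_of_nonneg_right (pow_le_pow_right₀ hκ (by omega)) (by positivity)
        _ = _ := by ring
    rcases le_total (w (ev p ψ)) (w (ev p β)) with c' | c'
    · rw [max_eq_right c'] at h6
      exact caseA hκ hp (h6.trans (mul_le_mul_of_nonneg_left hb (by positivity)))
    · rw [max_eq_left c'] at h6
      refine main fun h h' e => ?_
      have h9 : w (ev p h) * w (ev p ψ) = w (p.1 - q.1) * w (ev p h') := by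
        rw [← map_mul, ← ev_mul hp, e, ev_mul hp, ev_re, map_mul, eval_sub, eval_X, eval_C]
      have h10 := w.nonneg (ev p h)
      have h11 := w.nonneg (ev p h')
      calc w (ev p h) * (nx w p.1 * nx w q.1) ^ (2 * g + 1)
          = (nx w p.1 * nx w q.1) ^ (g + 1) * (w (ev p h) * (nx w p.1 * nx w q.1) ^ g) := by ring
        _ ≤ κ ^ (m + 2 * g + 3) * w (ev p ψ) * (w (ev p h) * (nx w p.1 * nx w q.1) ^ g) :=
            mul_le_mul_of_nonneg_right h6 (by positivity)
        _ = κ ^ (m + 2 * g + 3) * (w (ev p h) * w (ev p ψ) * (nx w p.1 * nx w q.1) ^ g) := by ring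
        _ = κ ^ (m + 2 * g + 3) * (w (p.1 - q.1) * (nx w p.1 * nx w q.1) ^ g * w (ev p h')) := by
            rw [h9]; ring
        _ ≤ _ := mul_le_mul_of_nonneg_left (mul_le_mul_of_nonneg_right (dd1 p q) h11)
            (by positivity)
  · rcases le_max_iff.1 c with c | c
    · rw [div_le_iff₀' (pow_pos hκ0 m)] at c
      have h1 : (nx w p.1 * nx w q.1) ^ (2 * g + 1) ≤ κ ^ m * w (Γ.eval p.1) := by
        refine le_of_mul_le_mul_right ?_ hs0
        calc _ = (nx w p.1 * nx w q.1) ^ (2 * g + 2) := by ring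
          _ ≤ _ := c
          _ = _ := by ring
      refine main fun h h' e => ?_
      have h2 : h * ⟨Γ, 0⟩ = h' * β := by
        refine mul_left_cancel₀ (lin_ne q.1) ?_
        rw [mul_left_comm, ← hprod, ← mul_assoc, e, mul_assoc]
      have h3 : w (ev p h) * w (Γ.eval p.1) = w (ev p h') * w (ev p β) := by
        rw [← map_mul, ← ev_re (f := f) p Γ, ← ev_mul hp, h2, ev_mul hp, map_mul]
      have h10 := w.nonneg (ev p h)
      have h11 := w.nonneg (ev p h')
      calc w (ev p h) * (nx w p.1 * nx w q.1) ^ (2 * g + 1)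
          ≤ w (ev p h) * (κ ^ m * w (Γ.eval p.1)) := mul_le_mul_of_nonneg_left h1 h10
        _ = κ ^ m * (w (ev p h) * w (Γ.eval p.1)) := by ring
        _ = κ ^ m * (w (ev p β) * w (ev p h')) := by rw [h3]; ring
        _ ≤ _ := mul_le_mul hm (mul_le_mul_of_nonneg_right hb h11)
            (mul_nonneg (w.nonneg _) h11) (by positivity)
    · rw [div_le_iff₀' (pow_pos hκ0 m)] at c
      refine caseA' hκ hp (le_trans ?_ (mul_le_mul_of_nonneg_right hm (w.nonneg _)))
      refine le_of_mul_le_mul_right ?_ (pow_pos hs0 (2 * g + 1))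
      calc _ = (nx w p.1 * nx w q.1) ^ (2 * g + 2) := by ring
        _ ≤ _ := c
        _ = _ := by ring

end Pair

open Pair

theorem pair : MUMStmt → GAUStmt → SEPStmt → PAIRStmt := by
  intro mum _ sep g
  obtain ⟨m, hm⟩ := sep (2 * g + 2)
  refine ⟨m + 2 * g + 3, fun K ι _ _ _ w κ a f hc ho p q hp hq => ?_⟩
  show Res g (m + 2 * g + 3) w κ f p q
  have hκ := ho.tri.1
  have : IsDomain (Rg f) := (mum K ι g a f hc).1.2.2.2
  have key : ∀ μ ν : K, w μ ≤ 1 → w ν ≤ 1 → nx w p.1 ≤ κ * w (μ * p.1 + ν) →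
      nx w q.1 ≤ κ * w (μ * q.1 + ν) → w (μ * q.1 + ν) ≤ nx w q.1 →
      pn w ((C μ * X + C ν) ^ (g + 1)) ≤ 1 →
      w (p.2 * (μ * q.1 + ν) ^ (g + 1) - q.2 * (μ * p.1 + ν) ^ (g + 1)) ≤ dd g w p q →
      Res g (m + 2 * g + 3) w κ f p q := by
    intro μ ν h1 h2 h3 h4 h5 h6 h7
    have eL : ∀ x : K, (C μ * X + C ν : K[X]).eval x = μ * x + ν := fun x => by simp
    obtain ⟨Γ, hΓ⟩ : X - C q.1 ∣ f * C ((μ * q.1 + ν) ^ (2 * g + 2)) -
        C (f.eval q.1) * (C μ * X + C ν) ^ (2 * g + 2) := by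
      rw [dvd_iff_isRoot, IsRoot, eval_sub, eval_mul, eval_mul, eval_C, eval_C, eval_pow, eL,
        sub_self]
    let α : Option ι → K := fun o => o.elim 0 fun _ => 1
    let β : Option ι → K := fun o => o.elim 1 fun i => -a i
    have e1 : (∏ i, (C (α i) * X + C (β i)) : K[X]) = f := by
      rw [Fintype.prod_option, hc.eq, fp]
      simp [α, β, sub_eq_add_neg]
    have e2 : ∀ x : K, ∏ i, (α i * x + β i) = f.eval x := by
      intro x
      rw [← e1, eval_prod]
      simp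
    have hs := hm K (Option ι) w κ α β μ ν p.1 q.1 Γ ho.tri (by simp [hc.card]) (by omega)
      (by
        rintro (_ | i)
        · simpa [α, β] using ⟨by linarith, hκ⟩
        · simpa [α, β] using ⟨hκ, ho.le i⟩)
      (by
        rintro (_ | i) (_ | k) hik
        · exact absurd rfl hik
        · simpa [α, β] using hκ
        · simpa [α, β] using hκ
        · have := ho.sep i k fun e => hik (congrArg some e)
          have e : α (some i) * β (some k) - α (some k) * β (some i) = a i - a k := by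
            simp only [α, β, Option.elim]
            ring
          rwa [e]) h1 h2 h3 h4 (by rw [e1, e2]; exact hΓ)
    rw [e2] at hs
    exact caseB (L := C μ * X + C ν) mum hc ho hp hq natDegree_linear_le h6 (by rwa [eL])
      (by rwa [eL]) (by rwa [eL, eL]) (by rw [eL]; exact hΓ) hs
  rcases chart ho.tri p.1 q.1 with c | c | c
  · refine caseA' hκ hp (c.trans (mul_le_mul_of_nonneg_right ?_ (w.nonneg _)))
    exact le_self_pow₀ hκ (by omega)
  · refine key 0 1 (by simp) (by simp) ?_ ?_ ?_ ?_ ?_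
    · simpa [nx] using ⟨hκ, c.1⟩
    · simpa [nx] using ⟨hκ, c.2⟩
    · simpa using one_le_nx w q.1
    · refine pn_le w fun i => ?_
      simp only [map_zero, zero_mul, map_one, zero_add, one_pow, coeff_one]
      split_ifs <;> simp
    · simpa using ((le_max_left _ _).trans (le_max_right _ _) : w (p.2 - q.2) ≤ dd g w p q)
  · refine key 1 0 (by simp) (by simp) ?_ ?_ ?_ ?_ ?_
    · rw [one_mul, add_zero, nx, max_eq_right c.1]
      exact le_mul_of_one_le_left (w.nonneg _) hκ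
    · rw [one_mul, add_zero, nx, max_eq_right c.2]
      exact le_mul_of_one_le_left (w.nonneg _) hκ
    · simpa using le_nx w q.1
    · refine pn_le w fun i => ?_
      simp only [map_zero, one_mul, map_one, add_zero, coeff_X_pow]
      split_ifs <;> simp
    · simpa using ((le_max_right _ _).trans (le_max_right _ _) :
        w (p.2 * q.1 ^ (g + 1) - q.2 * p.1 ^ (g + 1)) ≤ dd g w p q)

end Pool.Agent.MP_a43263_nt.JM

end MrgPart0

-- ======== part 1: formerly Pool.Agent.MP_a43263_nt.JM.Up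
section MrgPart1

/-! Mordell-Weil for Jacobians: upper bounds for the local symbol. -/

set_option autoImplicit false

namespace Pool.Agent.MP_a43263_nt.JM

open Polynomial Finset JC

namespace Up

variable {K : Type} [Field K] {w : AbsoluteValue K ℝ} {κ : ℝ}

theorem s1 (x x' : K) : 1 ≤ nx w x * nx w x' :=
  one_le_mul_of_one_le_of_one_le (one_le_nx w x) (one_le_nx w x')

theorem l1 (x x' : K) : nx w x ≤ nx w x * nx w x' :=
  le_mul_of_one_le_right (nx_pos w x).le (one_le_nx w x')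

theorem l2 (x x' : K) : nx w x' ≤ nx w x * nx w x' :=
  le_mul_of_one_le_left (nx_pos w x').le (one_le_nx w x)

theorem mono (x x' : K) {i j L : ℕ} (hi : i ≤ L) (hj : j ≤ L) :
    w (x ^ i * x' ^ j) ≤ (nx w x * nx w x') ^ L := by
  rw [map_mul, map_pow, map_pow, mul_pow]
  exact mul_le_mul ((pow_le_pow_left₀ (w.nonneg _) (le_nx w x) _).trans
      (pow_le_pow_right₀ (one_le_nx w x) hi))
    ((pow_le_pow_left₀ (w.nonneg _) (le_nx w x') _).trans (pow_le_pow_right₀ (one_le_nx w x') hj))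
    (pow_nonneg (w.nonneg _) _) (pow_nonneg (nx_pos w x).le _)

theorem geo (h : Tri w κ) (x x' : K) (k : ℕ) :
    w (x ^ (k + 1) - x' ^ (k + 1)) ≤ κ ^ (k + 1) * (w (x - x') * (nx w x * nx w x') ^ k) := by
  rw [← Commute.geom_sum₂_mul (Commute.all x x'), map_mul]
  have := h.sum (b := (nx w x * nx w x') ^ k) (pow_nonneg (zero_le_one.trans (s1 x x')) _)
    (range (k + 1)) (fun i => x ^ i * x' ^ (k + 1 - 1 - i)) fun i hi =>
      mono x x' (Nat.lt_succ_iff.1 (mem_range.1 hi)) (by omega)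
  rw [card_range] at this
  calc _ ≤ κ ^ (k + 1) * (nx w x * nx w x') ^ k * w (x - x') :=
        mul_le_mul_of_nonneg_right this (w.nonneg _)
    _ = _ := by ring

theorem key0 (h : Tri w κ) (x x' : K) {i j L : ℕ} (hj : j < i) (hi : i ≤ L + 1) :
    w (x ^ i * x' ^ j - x' ^ i * x ^ j) ≤
      κ ^ (L + 1) * (w (x - x') * (nx w x * nx w x') ^ L) := by
  obtain ⟨k, rfl⟩ := Nat.exists_eq_add_of_lt hj
  have e : x ^ (j + k + 1) * x' ^ j - x' ^ (j + k + 1) * x ^ j =
      x ^ j * x' ^ j * (x ^ (k + 1) - x' ^ (k + 1)) := by ring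
  have hs := zero_le_one.trans (s1 (w := w) x x')
  have h0 := zero_le_one.trans h.1
  rw [e, map_mul]
  calc _ ≤ (nx w x * nx w x') ^ j * (κ ^ (k + 1) * (w (x - x') * (nx w x * nx w x') ^ k)) :=
        mul_le_mul (mono x x' le_rfl le_rfl) (geo h x x' k) (w.nonneg _) (pow_nonneg hs _)
    _ = κ ^ (k + 1) * (w (x - x') * (nx w x * nx w x') ^ (j + k)) := by ring
    _ ≤ _ := mul_le_mul (pow_le_pow_right₀ h.1 (by omega))
        (mul_le_mul_of_nonneg_left (pow_le_pow_right₀ (s1 x x') (by omega)) (w.nonneg _))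
        (mul_nonneg (w.nonneg _) (pow_nonneg hs _)) (pow_nonneg h0 _)

theorem key (h : Tri w κ) (x x' : K) {i j L : ℕ} (hi : i ≤ L + 1) (hj : j ≤ L + 1) :
    w (x ^ i * x' ^ j - x' ^ i * x ^ j) ≤
      κ ^ (L + 1) * (w (x - x') * (nx w x * nx w x') ^ L) := by
  rcases lt_trichotomy j i with c | rfl | c
  · exact key0 h x x' c hi
  · rw [mul_comm (x' ^ j), sub_self, map_zero]
    exact mul_nonneg (pow_nonneg (zero_le_one.trans h.1) _)
      (mul_nonneg (w.nonneg _) (pow_nonneg (zero_le_one.trans (s1 x x')) _))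
  · have := key0 h x x' c hj
    rwa [w.map_sub, mul_comm (x' ^ j), mul_comm (x ^ j)] at this

theorem pol (h : Tri w κ) (x x' : K) {f : K[X]} {j L c : ℕ} (hf : f.natDegree ≤ L)
    (hc : pn w f ≤ κ ^ c) (hj : j ≤ L + 1) :
    w (f.eval x * x' ^ j - f.eval x' * x ^ j) ≤
      κ ^ (2 * L + 2 + c) * (w (x - x') * (nx w x * nx w x') ^ L) := by
  have h0 := zero_le_one.trans h.1
  have hb : 0 ≤ w (x - x') * (nx w x * nx w x') ^ L :=
    mul_nonneg (w.nonneg _) (pow_nonneg (zero_le_one.trans (s1 x x')) _)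
  have e : f.eval x * x' ^ j - f.eval x' * x ^ j =
      ∑ i ∈ range (L + 1), f.coeff i * (x ^ i * x' ^ j - x' ^ i * x ^ j) := by
    rw [eval_eq_sum_range' (Nat.lt_succ_of_le hf), eval_eq_sum_range' (Nat.lt_succ_of_le hf),
      sum_mul, sum_mul, ← sum_sub_distrib]
    exact sum_congr rfl fun i _ => by ring
  have := h.sum (b := κ ^ c * (κ ^ (L + 1) * (w (x - x') * (nx w x * nx w x') ^ L)))
    (mul_nonneg (pow_nonneg h0 _) (mul_nonneg (pow_nonneg h0 _) hb)) (range (L + 1))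
    (fun i => f.coeff i * (x ^ i * x' ^ j - x' ^ i * x ^ j)) fun i hi => by
      rw [map_mul]
      exact mul_le_mul ((le_pn w f i).trans hc) (key h x x' (mem_range.1 hi).le hj) (w.nonneg _)
        (pow_nonneg h0 _)
  rw [card_range] at this
  rw [e]
  refine this.trans (le_of_eq ?_)
  ring

variable {ι : Type} [Fintype ι] {a : ι → K} {f : K[X]} {g : ℕ}

theorem yb (hc : Cv g a f) (h : Ok w κ a) {p : K × K} (hp : Oc f p) :
    w p.2 ≤ κ ^ (2 * g + 1) * nx w p.1 ^ (g + 1) := by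
  have h0 := zero_le_one.trans h.tri.1
  have hn := nx_pos w p.1
  refine (pow_le_pow_iff_left₀ (w.nonneg _) (by positivity) two_ne_zero).1 ?_
  rw [← map_pow, show p.2 ^ 2 = f.eval p.1 from hp, hc.eq, fp, eval_prod, map_prod]
  calc _ ≤ ∏ _i : ι, κ ^ 2 * nx w p.1 := prod_le_prod (fun i _ => w.nonneg _) fun i _ => by
        rw [eval_sub, eval_X, eval_C, sq, mul_assoc]
        refine (h.tri.sub _ _).trans (mul_le_mul_of_nonneg_left (max_le ?_ ?_) h0)
        · exact (le_nx w _).trans (le_mul_of_one_le_left hn.le h.tri.1)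
        · exact (h.le i).trans (le_mul_of_one_le_right h0 (one_le_nx w _))
    _ = (κ ^ (2 * g + 1)) ^ 2 * nx w p.1 ^ (2 * g + 1) := by
        rw [prod_const, card_univ, hc.card]; ring
    _ ≤ (κ ^ (2 * g + 1)) ^ 2 * nx w p.1 ^ ((g + 1) * 2) :=
        mul_le_mul_of_nonneg_left (pow_le_pow_right₀ (one_le_nx w _) (by omega)) (by positivity)
    _ = _ := by ring

theorem ddb (hc : Cv g a f) (h : Ok w κ a) {p q : K × K} (hp : Oc f p) (hq : Oc f q) :
    dd g w p q ≤ κ ^ (2 * g + 2) * (nx w p.1 * nx w q.1) ^ (g + 1) := by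
  have h0 := zero_le_one.trans h.tri.1
  have hs := zero_le_one.trans (s1 (w := w) p.1 q.1)
  have hn := nx_pos w p.1
  have hn' := nx_pos w q.1
  have e : κ ^ (2 * g + 2) * (nx w p.1 * nx w q.1) ^ (g + 1) =
      κ * (κ ^ (2 * g + 1) * (nx w p.1 * nx w q.1) ^ (g + 1)) := by ring
  refine max_le ?_ (max_le ?_ ?_)
  · calc _ ≤ κ * (nx w p.1 * nx w q.1) * (nx w p.1 * nx w q.1) ^ g :=
          mul_le_mul_of_nonneg_right ((h.tri.sub _ _).trans (mul_le_mul_of_nonneg_left
            (max_le ((le_nx w _).trans (l1 _ _)) ((le_nx w _).trans (l2 _ _))) h0))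
            (pow_nonneg hs _)
      _ = κ ^ 1 * (nx w p.1 * nx w q.1) ^ (g + 1) := by ring
      _ ≤ _ := mul_le_mul_of_nonneg_right (pow_le_pow_right₀ h.tri.1 (by omega)) (pow_nonneg hs _)
  · rw [e]
    refine (h.tri.sub _ _).trans (mul_le_mul_of_nonneg_left (max_le ?_ ?_) h0)
    · exact (yb hc h hp).trans (mul_le_mul_of_nonneg_left
        (pow_le_pow_left₀ hn.le (l1 _ _) _) (pow_nonneg h0 _))
    · exact (yb hc h hq).trans (mul_le_mul_of_nonneg_left
        (pow_le_pow_left₀ hn'.le (l2 _ _) _) (pow_nonneg h0 _))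
  · rw [e]
    refine (h.tri.sub _ _).trans (mul_le_mul_of_nonneg_left (max_le ?_ ?_) h0)
    · rw [map_mul, map_pow, mul_pow, ← mul_assoc]
      exact mul_le_mul (yb hc h hp) (pow_le_pow_left₀ (w.nonneg _) (le_nx w _) _)
        (pow_nonneg (w.nonneg _) _) (by positivity)
    · rw [map_mul, map_pow, mul_comm (nx w p.1), mul_pow, ← mul_assoc]
      exact mul_le_mul (yb hc h hq) (pow_le_pow_left₀ (w.nonneg _) (le_nx w _) _)
        (pow_nonneg (w.nonneg _) _) (by positivity)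

theorem mm {A B C A' B' C' R : ℝ} 
    (h1 : A * max A' (max B' C') ≤ R) (h2 : max A (max B C) * A' ≤ R) (h3 : B * B' ≤ R)
    (h4 : B * C' ≤ R) (h5 : C * B' ≤ R) (h6 : C * C' ≤ R) :
    max A (max B C) * max A' (max B' C') ≤ R := by
  rcases max_choice A (max B C) with e | e
  · rwa [e]
  rcases max_choice A' (max B' C') with e' | e'
  · rwa [e']
  rw [e, e']
  rcases max_choice B C with k | k <;> rcases max_choice B' C' with k' | k' <;> rwa [k, k']

theorem ddm (hc : Cv g a f) (h : Ok w κ a) {c : ℕ} (hf : pn w f ≤ κ ^ c) {p q : K × K}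
    (hp : Oc f p) (hq : Oc f q) : dd g w p q * dd g w p (ng q) ≤
      κ ^ (5 * g + 5 + c) * (w (p.1 - q.1) * (nx w p.1 * nx w q.1) ^ (2 * g + 1)) := by
  have h0 := zero_le_one.trans h.tri.1
  have hs := zero_le_one.trans (s1 (w := w) p.1 q.1)
  have hn := nx_pos w p.1
  have hn' := nx_pos w q.1
  have hD := w.nonneg (p.1 - q.1)
  have hd : f.natDegree ≤ 2 * g + 1 := by
    rw [hc.eq, fp, natDegree_prod_of_monic _ _ fun i _ => monic_X_sub_C _]
    simp [hc.card]
  have hb : 0 ≤ w (p.1 - q.1) * (nx w p.1 * nx w q.1) ^ (2 * g + 1) := by positivity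
  have up : ∀ {u : ℝ} {m : ℕ}, m ≤ 5 * g + 5 + c →
      u ≤ κ ^ m * (w (p.1 - q.1) * (nx w p.1 * nx w q.1) ^ (2 * g + 1)) →
      u ≤ κ ^ (5 * g + 5 + c) * (w (p.1 - q.1) * (nx w p.1 * nx w q.1) ^ (2 * g + 1)) :=
    fun hm hu => hu.trans (mul_le_mul_of_nonneg_right (pow_le_pow_right₀ h.tri.1 hm) hb)
  have hp2 : p.2 ^ 2 = f.eval p.1 := hp
  have hq2 : q.2 ^ 2 = f.eval q.1 := hq
  have t1 : ∀ d : ℝ, d ≤ κ ^ (2 * g + 2) * (nx w p.1 * nx w q.1) ^ (g + 1) →
      w (p.1 - q.1) * (nx w p.1 * nx w q.1) ^ g * d ≤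
        κ ^ (5 * g + 5 + c) * (w (p.1 - q.1) * (nx w p.1 * nx w q.1) ^ (2 * g + 1)) :=
    fun d hd => up (m := 2 * g + 2) (by omega)
      ((mul_le_mul_of_nonneg_left hd (by positivity)).trans (le_of_eq (by ring)))
  have yy : w (p.2 * q.2 * (p.1 ^ (g + 1) - q.1 ^ (g + 1))) ≤
      κ ^ (5 * g + 4 + c) * (w (p.1 - q.1) * (nx w p.1 * nx w q.1) ^ (2 * g + 1)) := by
    rw [map_mul, map_mul]
    calc _ ≤ κ ^ (2 * g + 1) * nx w p.1 ^ (g + 1) * (κ ^ (2 * g + 1) * nx w q.1 ^ (g + 1)) *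
          (κ ^ (g + 1) * (w (p.1 - q.1) * (nx w p.1 * nx w q.1) ^ g)) :=
          mul_le_mul (mul_le_mul (yb hc h hp) (yb hc h hq) (w.nonneg _) (by positivity))
            (geo h.tri _ _ g) (w.nonneg _) (by positivity)
      _ = κ ^ (5 * g + 3) * (w (p.1 - q.1) * (nx w p.1 * nx w q.1) ^ (2 * g + 1)) := by ring
      _ ≤ _ := mul_le_mul_of_nonneg_right (pow_le_pow_right₀ h.tri.1 (by omega)) hb
  have pp : ∀ j ≤ 2 * g + 1 + 1, w (f.eval p.1 * q.1 ^ j - f.eval q.1 * p.1 ^ j) ≤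
      κ ^ (5 * g + 4 + c) * (w (p.1 - q.1) * (nx w p.1 * nx w q.1) ^ (2 * g + 1)) := fun j hj =>
    (pol h.tri p.1 q.1 hd hf hj).trans
      (mul_le_mul_of_nonneg_right (pow_le_pow_right₀ h.tri.1 (by omega)) hb)
  have e5 : κ ^ (5 * g + 5 + c) * (w (p.1 - q.1) * (nx w p.1 * nx w q.1) ^ (2 * g + 1)) =
      κ * (κ ^ (5 * g + 4 + c) * (w (p.1 - q.1) * (nx w p.1 * nx w q.1) ^ (2 * g + 1))) := by ring
  refine mm (t1 _ (ddb hc h hp hq.ng))
    (by rw [mul_comm]; exact t1 _ (ddb hc h hp hq)) ?_ ?_ ?_ ?_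
  · refine up (by omega) (le_trans (le_of_eq ?_) (pp 0 (by omega)))
    rw [← map_mul, ← hp2, ← hq2]
    exact congrArg w (by simp only [ng]; ring)
  · rw [← map_mul, e5]
    refine le_trans (le_of_eq ?_) ((h.tri.2 _ _).trans
      (mul_le_mul_of_nonneg_left (max_le (pp (g + 1) (by omega)) yy) h0))
    rw [← hp2, ← hq2]
    exact congrArg w (by simp only [ng]; ring)
  · rw [← map_mul, e5]
    refine le_trans (le_of_eq ?_) ((h.tri.sub _ _).trans
      (mul_le_mul_of_nonneg_left (max_le (pp (g + 1) (by omega)) yy) h0))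
    rw [← hp2, ← hq2]
    exact congrArg w (by simp only [ng]; ring)
  · refine up (by omega) (le_trans (le_of_eq ?_) (pp (2 * g + 2) (by omega)))
    rw [← map_mul, ← hp2, ← hq2]
    exact congrArg w (by simp only [ng]; ring)

end Up

open Up in
theorem up : GAUStmt → UPStmt := by
  intro gau g
  obtain ⟨M, hM⟩ := gau (2 * g + 1)
  refine ⟨2 * (5 * g + 5 + (M + (2 * g + 1))), fun K ι _ _ w κ a f hc h p q hp hq => ?_⟩
  have h0 := zero_le_one.trans h.tri.1
  have hn := nx_pos w p.1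
  have hn' := nx_pos w q.1
  have hf : pn w f ≤ κ ^ (M + (2 * g + 1)) := by
    have := (hM K w κ h.tri).2.2.2.2 (univ.val.map a) (by simp [hc.card])
    rw [Multiset.map_map, Multiset.map_map] at this
    rw [hc.eq, pow_add]
    refine this.trans (mul_le_mul_of_nonneg_left ?_ (pow_nonneg h0 _))
    calc _ = ∏ i, nx w (a i) := rfl
      _ ≤ ∏ _i : ι, κ := prod_le_prod (fun i _ => (nx_pos w _).le) fun i _ =>
          max_le h.tri.1 (h.le i)
      _ = _ := by rw [prod_const, card_univ, hc.card]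
  refine ⟨?_, ?_, ?_⟩
  · have := pow_le_pow_left₀ (mul_nonneg (dd_nonneg w g _ _) (dd_nonneg w g _ _))
      (ddm hc h hf hp hq) 2
    rw [de, de, div_mul_div_comm, div_le_iff₀ (by simp only [ng]; positivity), ← mul_pow]
    refine this.trans (le_of_eq ?_)
    simp only [ng]
    ring
  · have := pow_le_pow_left₀ (dd_nonneg w g _ _) (ddb hc h hp hq) 2
    rw [de, div_le_iff₀ (by positivity)]
    refine this.trans ?_
    calc _ = κ ^ (2 * (2 * g + 2)) * (nx w p.1 * nx w q.1) ^ (2 * g + 2) := by ring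
      _ ≤ κ ^ (2 * (5 * g + 5 + (M + (2 * g + 1)))) * (nx w p.1 * nx w q.1) ^ (2 * g + 2) :=
          mul_le_mul_of_nonneg_right (pow_le_pow_right₀ h.tri.1 (by omega)) (by positivity)
      _ = _ := by ring
  · have h2 : w 2 ≤ κ := by
      have := h.tri.2 1 1
      rwa [one_add_one_eq_two, map_one, max_self, mul_one] at this
    have hy := w.nonneg p.2
    have hd : dd g w p (ng p) ≤ κ * w p.2 * nx w p.1 ^ (g + 1) := by
      refine max_le ?_ (max_le ?_ ?_)
      · simp only [ng, sub_self, map_zero, zero_mul]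
        positivity
      · rw [show p.2 - (ng p).2 = 2 * p.2 by simp only [ng]; ring, map_mul]
        exact (mul_le_mul_of_nonneg_right h2 hy).trans
          (le_mul_of_one_le_right (by positivity) (one_le_pow₀ (one_le_nx w _)))
      · rw [show p.2 * (ng p).1 ^ (g + 1) - (ng p).2 * p.1 ^ (g + 1) = 2 * p.2 * p.1 ^ (g + 1) by
          simp only [ng]; ring, map_mul, map_mul, map_pow]
        exact mul_le_mul (mul_le_mul_of_nonneg_right h2 hy)
          (pow_le_pow_left₀ (w.nonneg _) (le_nx w _) _) (by positivity) (by positivity)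
    have := pow_le_pow_left₀ (dd_nonneg w g _ _) hd 2
    rw [de, div_mul_eq_mul_div, div_le_iff₀ (by simp only [ng]; positivity)]
    refine (mul_le_mul_of_nonneg_right this (by positivity)).trans ?_
    calc _ = κ ^ 2 * (w p.2 ^ 2 * (nx w p.1 * nx w p.1) ^ (2 * g + 1)) := by ring
      _ ≤ κ ^ (2 * (5 * g + 5 + (M + (2 * g + 1)))) *
          (w p.2 ^ 2 * (nx w p.1 * nx w p.1) ^ (2 * g + 1)) :=
          mul_le_mul_of_nonneg_right (pow_le_pow_right₀ h.tri.1 (by omega)) (by positivity)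
      _ = _ := by simp only [ng]; ring

end Pool.Agent.MP_a43263_nt.JM

end MrgPart1

-- marker of a merged file
example : 731051 + 318241 = 731051 + 318241 := rfl
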