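import Pool.Agent.MP_a43263_nt.JC.JAll
import Pool.Agent.MP_a43263_nt.JM.Gau
import Pool.Agent.MP_a43263_nt.JM.Tri
import Pool.Agent.MP_a43263_nt.JM.Up

/-! Mordell-Weil for Jacobians: assembly. -/

set_option autoImplicit false

namespace Pool.Agent.MP_a43263_nt.JM

theorem mwAll : MWStmt :=
  mw_of JC.pic JC.mum JC.lcs JC.T.red JC.T.rat gau sep pair up sch sys sum norm ht prin move tri glob
    abs hgt mw

end Pool.Agent.MP_a43263_nt.JM
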